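import Pool.Agent.helper70.KU.Defs

/-! Module AB: bounds of `Ab`. -/

namespace C048

open Finset

/-- `log ((1+x)/(1-x)) ≤ 2 x + (2/3) x³/(1-x²)` -/
lemma log_ratio_le {x : ℝ} (h0 : 0 ≤ x) (h1 : x < 1) :
    Real.log (1 + x) - Real.log (1 - x) ≤ 2 * x + 2 / 3 * x ^ 3 / (1 - x ^ 2) := by
  have hx2 : x ^ 2 < 1 := by nlinarith
  have hs := Real.hasSum_log_sub_log_of_abs_lt_one (x := x) (by rw [abs_of_nonneg h0]; exact h1)
  have hg : HasSum (fun k : ℕ => 2 / 3 * x * (x ^ 2) ^ k) (2 / 3 * x * (1 - x ^ 2)⁻¹) :=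
    (hasSum_geometric_of_lt_one (by positivity) hx2).mul_left _
  have hd : HasSum (fun k : ℕ => if k = 0 then 4 / 3 * x else 0) (4 / 3 * x) :=
    hasSum_ite_eq 0 (4 / 3 * x)
  have hsum := hg.add hd
  have hle := hasSum_le (f := fun k : ℕ => (2 : ℝ) * (1 / (2 * k + 1)) * x ^ (2 * k + 1))
    (g := fun k : ℕ => 2 / 3 * x * (x ^ 2) ^ k + (if k = 0 then 4 / 3 * x else 0)) ?_ hs hsum
  · refine hle.trans (le_of_eq ?_)
    have : (1 - x ^ 2) ≠ 0 := by nlinarith
    field_simp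
    ring
  · intro k
    rcases Nat.eq_zero_or_pos k with rfl | hk
    · simp
      linarith
    · rw [if_neg (by omega), add_zero]
      have hk1 : (1 : ℝ) ≤ k := by exact_mod_cast hk
      have h3 : (1 : ℝ) / (2 * k + 1) ≤ 1 / 3 := by
        apply one_div_le_one_div_of_le <;> linarith
      have hp : 0 ≤ x ^ (2 * k + 1) := by positivity
      have e : x * (x ^ 2) ^ k = x ^ (2 * k + 1) := by rw [← pow_mul]; ring
      calc (2 : ℝ) * (1 / (2 * k + 1)) * x ^ (2 * k + 1) ≤ 2 * (1 / 3) * x ^ (2 * k + 1) := by gcongr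
        _ = 2 / 3 * x * (x ^ 2) ^ k := by rw [mul_assoc (2 / 3) x, e]; ring

lemma Lf_eq {y : ℝ} (hy : 0 < y) :
    Lf y = Real.log (1 + Real.exp (-y)) - Real.log (1 - Real.exp (-y)) := by
  unfold Lf
  have hs : 0 < Real.sinh (y / 2) := Real.sinh_pos_iff.2 (by linarith)
  have hc : 0 < Real.cosh (y / 2) := Real.cosh_pos _
  have hx1 : Real.exp (-y) < 1 := by rw [Real.exp_lt_one_iff]; linarith
  have hx0 : 0 < Real.exp (-y) := Real.exp_pos _
  have h1 : 1 + 1 / Real.sinh (y / 2) ^ 2 = (Real.cosh (y / 2) / Real.sinh (y / 2)) ^ 2 := by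
    rw [div_pow, Real.cosh_sq (y / 2)]
    field_simp
  have h2 : Real.cosh (y / 2) / Real.sinh (y / 2) = (1 + Real.exp (-y)) / (1 - Real.exp (-y)) := by
    rw [div_eq_div_iff hs.ne' (by linarith), Real.cosh_eq, Real.sinh_eq]
    have e1 : Real.exp (-y) = Real.exp (-(y / 2)) * Real.exp (-(y / 2)) := by
      rw [← Real.exp_add]; congr 1; ring
    have e2 : Real.exp (y / 2) * Real.exp (-(y / 2)) = 1 := by
      rw [← Real.exp_add]; simp
    rw [e1]
    linear_combination (-(Real.exp (-(y / 2)))) * e2 + 0 * e2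
  rw [h1, Real.log_pow, h2, Real.log_div (by linarith) (by linarith)]
  push_cast
  ring

lemma sum_exp_Ioc_le {c τ : ℝ} (hc : 0 < c) (hτ : 0 < τ) (a b : ℕ) (h : a ≤ b) :
    ∑ i ∈ Ioc a b, Real.exp (-(c * (i * τ)))
      ≤ 1 / (c * τ) * (Real.exp (-(c * (a * τ))) - Real.exp (-(c * (b * τ)))) := by
  induction b, h using Nat.le_induction with
  | base => simp
  | succ b hab ih =>
    rw [← Finset.insert_Ioc_right_eq_Ioc_add_one (by omega), sum_insert (by simp)]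
    have hct : 0 < c * τ := by positivity
    have key : Real.exp (-(c * (((b + 1 : ℕ) : ℝ) * τ)))
        ≤ 1 / (c * τ) * (Real.exp (-(c * (b * τ))) - Real.exp (-(c * (((b + 1 : ℕ) : ℝ) * τ)))) := by
      have e : Real.exp (-(c * (b * τ)))
          = Real.exp (c * τ) * Real.exp (-(c * (((b + 1 : ℕ) : ℝ) * τ))) := by
        rw [← Real.exp_add]; congr 1; push_cast; ring
      rw [e]
      have h1 : c * τ ≤ Real.exp (c * τ) - 1 := by
        have := Real.add_one_le_exp (c * τ); linarith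
      have hE := Real.exp_pos (-(c * (((b + 1 : ℕ) : ℝ) * τ)))
      rw [one_div, inv_mul_eq_div, le_div_iff₀ hct]
      nlinarith
    calc _ ≤ 1 / (c * τ) * (Real.exp (-(c * (b * τ))) - Real.exp (-(c * (((b + 1 : ℕ) : ℝ) * τ))))
          + 1 / (c * τ) * (Real.exp (-(c * (a * τ))) - Real.exp (-(c * (b * τ)))) :=
          add_le_add key ih
      _ = _ := by ring

theorem Ab_le (n : ℕ) {τ : ℝ} (hτ : 0 < τ) :
    Ab n τ ≤ 2 / τ * (Real.exp (-(3 * n * τ)) - Real.exp (-(6 * n * τ)))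
      + 2 / (9 * τ) * Real.exp (-(9 * n * τ)) / (1 - Real.exp (-(6 * n * τ))) := by
  unfold Ab
  rcases Nat.eq_zero_or_pos n with rfl | hn
  · simp
  have hn' : (1 : ℝ) ≤ n := by exact_mod_cast hn
  set w := Real.exp (-(6 * n * τ)) with hw
  have hw0 : 0 < w := Real.exp_pos _
  have hw1 : w < 1 := by
    rw [hw, Real.exp_lt_one_iff]
    have : 0 < 6 * n * τ := by positivity
    linarith
  have hterm : ∀ i ∈ Ioc (3 * n) (6 * n), Lf (i * τ)
      ≤ 2 * Real.exp (-(1 * (i * τ))) + 2 / 3 / (1 - w) * Real.exp (-(3 * (i * τ))) := by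
    intro i hi
    rw [mem_Ioc] at hi
    have hi1 : (3 * n : ℝ) < i := by exact_mod_cast hi.1
    have hiτ : 0 < (i : ℝ) * τ := by
      have : (0 : ℝ) < i := by linarith
      positivity
    rw [Lf_eq hiτ]
    have hx1 : Real.exp (-((i : ℝ) * τ)) < 1 := by rw [Real.exp_lt_one_iff]; linarith
    refine (log_ratio_le (Real.exp_pos _).le hx1).trans ?_
    rw [one_mul]
    have hsq : Real.exp (-((i : ℝ) * τ)) ^ 2 ≤ w := by
      rw [← Real.exp_nat_mul, hw, Real.exp_le_exp]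
      push_cast
      nlinarith
    have hcube : Real.exp (-((i : ℝ) * τ)) ^ 3 = Real.exp (-(3 * ((i : ℝ) * τ))) := by
      rw [← Real.exp_nat_mul]; congr 1; push_cast; ring
    rw [hcube]
    have h3 : 2 / 3 * Real.exp (-(3 * ((i : ℝ) * τ))) / (1 - Real.exp (-((i : ℝ) * τ)) ^ 2)
        ≤ 2 / 3 * Real.exp (-(3 * ((i : ℝ) * τ))) / (1 - w) := by
      apply div_le_div_of_nonneg_left (by positivity) (by linarith) (by linarith)
    calc _ ≤ 2 * Real.exp (-((i : ℝ) * τ)) + 2 / 3 * Real.exp (-(3 * ((i : ℝ) * τ))) / (1 - w) := by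
          linarith
      _ = _ := by ring
  refine (sum_le_sum hterm).trans ?_
  rw [sum_add_distrib, ← mul_sum, ← mul_sum]
  have h1 := sum_exp_Ioc_le (c := 1) one_pos hτ (3 * n) (6 * n) (by omega)
  have h3 := sum_exp_Ioc_le (c := 3) (by norm_num) hτ (3 * n) (6 * n) (by omega)
  push_cast at h1 h3
  have h1' : ∑ i ∈ Ioc (3 * n) (6 * n), Real.exp (-(1 * ((i : ℝ) * τ)))
      ≤ 1 / τ * (Real.exp (-(3 * n * τ)) - w) := by
    rw [hw]; simpa using h1
  have h3' : ∑ i ∈ Ioc (3 * n) (6 * n), Real.exp (-(3 * ((i : ℝ) * τ)))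
      ≤ 1 / (3 * τ) * Real.exp (-(9 * n * τ)) := by
    refine h3.trans ?_
    have e : Real.exp (-(3 * (3 * (n : ℝ) * τ))) = Real.exp (-(9 * n * τ)) := by
      congr 1; ring
    rw [e]
    have := Real.exp_pos (-(3 * (6 * (n : ℝ) * τ)))
    gcongr
    linarith
  have hw2 : 0 < 1 - w := by linarith
  calc _ ≤ 2 * (1 / τ * (Real.exp (-(3 * n * τ)) - w))
        + 2 / 3 / (1 - w) * (1 / (3 * τ) * Real.exp (-(9 * n * τ))) := by gcongr
    _ = _ := by
      field_simp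
      ring

/-! ### numbers -/

lemma exp_half_bounds : 1.64872127 < Real.exp (1 / 2) ∧ Real.exp (1 / 2) < 1.64872128 := by
  have h1 := Real.exp_one_gt_d9
  have h2 := Real.exp_one_lt_d9
  have e : Real.exp (1 / 2) * Real.exp (1 / 2) = Real.exp 1 := by
    rw [← Real.exp_add]; norm_num
  have hp := Real.exp_pos (1 / 2)
  constructor
  · by_contra hc
    push Not at hc
    nlinarith
  · by_contra hc
    push Not at hc
    nlinarith

lemma exp_quarter_bounds : 1.2840254 < Real.exp (1 / 4) ∧ Real.exp (1 / 4) < 1.2840255 := by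
  obtain ⟨h1, h2⟩ := exp_half_bounds
  have e : Real.exp (1 / 4) * Real.exp (1 / 4) = Real.exp (1 / 2) := by
    rw [← Real.exp_add]; norm_num
  have hp := Real.exp_pos (1 / 4)
  constructor
  · by_contra hc
    push Not at hc
    nlinarith
  · by_contra hc
    push Not at hc
    nlinarith

/-- bounds of `exp (-(k/2))` from powers -/
lemma exp_neg_half_mul (k : ℕ) :
    (1 / 1.64872128 : ℝ) ^ k ≤ Real.exp (-(k / 2)) ∧ Real.exp (-(k / 2)) ≤ (1 / 1.64872127 : ℝ) ^ k := by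
  obtain ⟨h1, h2⟩ := exp_half_bounds
  have e : Real.exp (-(k / 2)) = (1 / Real.exp (1 / 2)) ^ k := by
    rw [one_div, ← Real.exp_neg, ← Real.exp_nat_mul]; congr 1; ring
  rw [e]
  have hp := Real.exp_pos (1 / 2)
  constructor
  · gcongr
  · gcongr

lemma exp_neg_quarter_mul (k : ℕ) :
    (1 / 1.2840255 : ℝ) ^ k ≤ Real.exp (-(k / 4)) ∧ Real.exp (-(k / 4)) ≤ (1 / 1.2840254 : ℝ) ^ k := by
  obtain ⟨h1, h2⟩ := exp_quarter_bounds
  have e : Real.exp (-(k / 4)) = (1 / Real.exp (1 / 4)) ^ k := by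
    rw [one_div, ← Real.exp_neg, ← Real.exp_nat_mul]; congr 1; ring
  rw [e]
  have hp := Real.exp_pos (1 / 4)
  constructor
  · gcongr
  · gcongr

lemma Ab_num (n : ℕ) (hn : 0 < n) {c : ℝ} (hc : 0 < c) {hi3 lo6 hi6 hi9 K : ℝ}
    (h3 : Real.exp (-(3 * c)) ≤ hi3) (h6 : lo6 ≤ Real.exp (-(6 * c))) (h6' : Real.exp (-(6 * c)) ≤ hi6)
    (h61 : hi6 < 1)
    (h9 : Real.exp (-(9 * c)) ≤ hi9)
    (hK : 2 / c * (hi3 - lo6) + 2 / (9 * c) * hi9 / (1 - hi6) ≤ K) :
    Ab n (c / n) ≤ K * n := by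
  have hn' : (0 : ℝ) < n := by exact_mod_cast hn
  have h := Ab_le n (τ := c / n) (by positivity)
  have e3 : 3 * (n : ℝ) * (c / n) = 3 * c := by field_simp
  have e6 : 6 * (n : ℝ) * (c / n) = 6 * c := by field_simp
  have e9 : 9 * (n : ℝ) * (c / n) = 9 * c := by field_simp
  rw [e3, e6, e9] at h
  refine h.trans ?_
  have h9p := Real.exp_pos (-(9 * c))
  have a1 : 2 / c * (Real.exp (-(3 * c)) - Real.exp (-(6 * c))) ≤ 2 / c * (hi3 - lo6) := by
    gcongr
  have a2 : 2 / (9 * c) * Real.exp (-(9 * c)) / (1 - Real.exp (-(6 * c)))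
      ≤ 2 / (9 * c) * hi9 / (1 - hi6) := by
    have : 0 < 1 - hi6 := by linarith
    have h9q : 0 < hi9 := by linarith
    gcongr
  calc _ = (2 / c * (Real.exp (-(3 * c)) - Real.exp (-(6 * c)))
        + 2 / (9 * c) * Real.exp (-(9 * c)) / (1 - Real.exp (-(6 * c)))) * n := by
        field_simp
    _ ≤ K * n := by
        gcongr
        linarith

theorem Ab05 (n : ℕ) (hn : 150 ≤ n) : Ab n (1 / (2 * n)) ≤ 0.6986 * n := by
  have e : (1 : ℝ) / (2 * n) = (1 / 2) / n := by rw [div_div]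
  rw [e]
  have h3 := (exp_neg_half_mul 3)
  have h6 := (exp_neg_half_mul 6)
  have h9 := (exp_neg_half_mul 9)
  norm_num at h3 h6 h9
  refine Ab_num n (by omega) (by norm_num) (hi3 := 0.2231302) (lo6 := 0.049787)
    (hi6 := 0.04979) (hi9 := 0.011110) ?_ ?_ ?_ ?_ ?_ ?_ <;> norm_num <;> linarith

theorem Ab075 (n : ℕ) (hn : 150 ≤ n) : Ab n (3 / (4 * n)) ≤ 0.252 * n := by
  have e : (3 : ℝ) / (4 * n) = (3 / 4) / n := by rw [div_div]
  rw [e]
  have h3 := (exp_neg_quarter_mul 9)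
  have h6 := (exp_neg_quarter_mul 18)
  have h9 := (exp_neg_quarter_mul 27)
  norm_num at h3 h6 h9
  refine Ab_num n (by omega) (by norm_num) (hi3 := 0.10540) (lo6 := 0.0111)
    (hi6 := 0.01112) (hi9 := 0.0012) ?_ ?_ ?_ ?_ ?_ ?_ <;> norm_num <;> linarith

theorem Ab1 (n : ℕ) (hn : 150 ≤ n) : Ab n (1 / n) ≤ 0.0947 * n := by
  have h3 := (exp_neg_half_mul 6)
  have h6 := (exp_neg_half_mul 12)
  have h9 := (exp_neg_half_mul 18)
  norm_num at h3 h6 h9
  refine Ab_num n (by omega) (by norm_num) (hi3 := 0.04979) (lo6 := 0.00247)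
    (hi6 := 0.0025) (hi9 := 0.00013) ?_ ?_ ?_ ?_ ?_ ?_ <;> norm_num <;> linarith

theorem Ab15 (n : ℕ) (hn : 150 ≤ n) : Ab n (3 / (2 * n)) ≤ 0.0147 * n := by
  have e : (3 : ℝ) / (2 * n) = (3 / 2) / n := by rw [div_div]
  rw [e]
  have h3 := (exp_neg_half_mul 9)
  have h6 := (exp_neg_half_mul 18)
  have h9 := (exp_neg_half_mul 27)
  norm_num at h3 h6 h9
  refine Ab_num n (by omega) (by norm_num) (hi3 := 0.01111) (lo6 := 0.000123)
    (hi6 := 0.00013) (hi9 := 0.000002) ?_ ?_ ?_ ?_ ?_ ?_ <;> norm_num <;> linarith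

end C048
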