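import Pool.Agent.helper18.KU.Spec

/-!
# ku:CHS
-/

set_option autoImplicit false

namespace Pool.Agent.KU

open Finset

noncomputable section

theorem CHS : CHS_stmt := by
  intro κ α _ K
  classical
  induction K using Finset.induction_on with
  | empty =>
    intro A hA
    rw [card_empty, Multiset.card_eq_zero] at hA
    exact ⟨fun _ => Classical.arbitrary α, by rw [hA]; rfl⟩
  | insert a K ha ih =>
    intro A hA
    rw [card_insert_of_notMem ha] at hA
    obtain ⟨x, hx⟩ := Multiset.card_pos_iff_exists_mem.1 (by omega : 0 < Multiset.card A)
    obtain ⟨B, rfl⟩ := Multiset.exists_cons_of_mem hx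
    rw [Multiset.card_cons] at hA
    obtain ⟨g, hg⟩ := ih B (by omega)
    refine ⟨Function.update g a x, ?_⟩
    rw [insert_val_of_notMem ha, Multiset.map_cons, Function.update_self]
    congr 1
    rw [← hg]
    refine Multiset.map_congr rfl fun b hb => ?_
    rw [Function.update_of_ne]
    rintro rfl
    exact ha hb

end

end Pool.Agent.KU
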