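import Pool.Agent.helper18.KU.Spec

/-!
# ku:DEG: degrees
-/

set_option autoImplicit false

namespace Pool.Agent.KU

open Finset

noncomputable section

theorem DEG (hEIN : EIN_stmt) (hFNS : FNS_stmt) : DEG_stmt := by
  intro V _ S X w hC hI h2
  obtain ⟨e1, e2, e3, e4, e5, e6, e7, e8, e9⟩ := hEIN V w hC.sy
  obtain ⟨f1, f2, f3, f4, f5, f6, f7, f8, f9⟩ := hFNS V w X hC.sy
  refine ⟨fun v hv => ?_, ?_, ?_, ?_⟩
  · have hd : dg w S v = dg w (S.erase v) v := by
      rw [dg, dg, ← sum_erase_add S _ hv, hC.sy.loop v, add_zero]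
    have hins : f X w S = f X w (S.erase v) + 3 - X v - dg w (S.erase v) v := by
      rw [← f3 (S.erase v) v (notMem_erase v S), insert_erase hv]
    rw [hC.tot] at hins
    have hne : (S.erase v).Nonempty := by
      rw [← card_pos, card_erase_of_mem hv]
      omega
    have hneS : S.erase v ≠ S := fun h => notMem_erase v S (by rw [h]; exact hv)
    have h1 := (hI (S.erase v) (erase_subset v S) hne hneS).1
    have hvS : ({v} : Finset V) ≠ S := fun h => by
      rw [← h, card_singleton] at h2
      omega
    have h3 := hI {v} (singleton_subset_iff.2 hv) (singleton_nonempty v) hvS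
    rw [f2] at h3
    have h4 : S \ {v} = S.erase v := sdiff_singleton_eq_erase v S
    rw [h4] at h3
    refine ⟨?_, ?_, ?_, ?_, hd⟩
    · rw [hd]
      linarith
    · rw [hd]
      have h5 : (4 : ℤ) ≤ X v + dg w (S.erase v) v := by linarith
      exact_mod_cast h5
    · have h5 := h3.1
      have h6 : (X v : ℤ) ≤ 2 := by linarith
      exact_mod_cast h6
    · intro hX
      have h5 : f X w (S.erase v) ≠ 1 := fun h => h3.2 ⟨by rw [hX]; norm_num, h⟩
      have h6 : 2 ≤ f X w (S.erase v) := by omega
      rw [hd]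
      have h7 : (5 : ℤ) ≤ X v + dg w (S.erase v) v := by linarith
      exact_mod_cast h7
  · rw [sum_add_distrib, e9 S]
    have h := hC.tot
    unfold f at h
    have h5 : (∑ v ∈ S, (X v : ℤ)) = ((∑ v ∈ S, X v : ℕ) : ℤ) := by push_cast; rfl
    rw [h5] at h
    omega
  · have h := hC.tot
    unfold f at h
    have h5 : (∑ v ∈ S, (X v : ℤ)) = ((∑ v ∈ S, X v : ℕ) : ℤ) := by push_cast; rfl
    rw [h5] at h
    have h6 : S.card ≤ ∑ v ∈ S, X v := by
      rw [card_eq_sum_ones]
      exact sum_le_sum hC.root
    omega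
  · intro a ha b hb hab
    have h := hC.v {a, b} (by
      intro x hx
      simp only [mem_insert, mem_singleton] at hx
      rcases hx with rfl | rfl
      · exact ha
      · exact hb) (by rw [card_pair hab])
    rw [card_pair hab, e5 a b hab] at h
    omega

end

end Pool.Agent.KU
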