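import Pool.Agent.helper18.KU.Spec

/-!
# ku:F1
-/

set_option autoImplicit false

namespace Pool.Agent.KU

open Finset

noncomputable section

theorem F1 (hFNS : FNS_stmt) (hCRI : CRI_stmt) : F1_stmt := by
  intro V _ S X w hC hI h5 Q hQ v hv hvQ
  obtain ⟨-, -, f3, -⟩ := hFNS V w X hC.sy
  have h1 := f3 Q v hvQ
  have h2 := (hCRI V S X w hC hI (by omega) Q hQ).2.1
  have h3 : (insert v Q).card = 4 := by rw [card_insert_of_notMem hvQ, hQ.2.1]
  have h4 := (hI (insert v Q) (insert_subset hv hQ.1) (insert_nonempty v Q) (fun h => by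
    rw [← h, h3] at h5
    omega)).1
  omega

end

end Pool.Agent.KU
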