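import Pool.Agent.helper18.KU.Spec

/-!
# ku:F3
-/

set_option autoImplicit false

namespace Pool.Agent.KU

open Finset

noncomputable section

theorem F3_sub {V : Type} [DecidableEq V] {S : Finset V} {a b c : V} (ha : a ∈ S) (hb : b ∈ S) (hc : c ∈ S) :
    ({a, b, c} : Finset V) ⊆ S := by
  intro x hx
  simp only [mem_insert, mem_singleton] at hx
  rcases hx with rfl | rfl | rfl
  · exact ha
  · exact hb
  · exact hc

/-- the case where `a` and `b` are in a critical triple -/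
theorem F3_core (hEIN : EIN_stmt) (hCRI : CRI_stmt) (hF1 : F1_stmt) {V : Type} [DecidableEq V] (S : Finset V)
    (X : V → ℕ) (w : V → V → ℕ) (hC : Cone S X w) (hI : Irr S X w) (h5 : 5 ≤ S.card) (hD : CrDj S w)
    (v : V) (hv : v ∈ S) (hvc : ∀ Q, Crit S w Q → v ∉ Q) (a b c : V) (ha : a ∈ S) (hb : b ∈ S) (hc : c ∈ S)
    (hab : a ≠ b) (hac : a ≠ c) (hbc : b ≠ c) (h1 : 1 ≤ w v a) (h2 : 1 ≤ w v b) (h3 : 1 ≤ w v c)
    (Q : Finset V) (hQ : Crit S w Q) (haQ : a ∈ Q) (hbQ : b ∈ Q) (b2 : Blk S w a c) (b3 : Blk S w b c) : False := by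
  obtain ⟨-, -, -, -, -, e6, -, -, -⟩ := hEIN V w hC.sy
  have hcQ : c ∉ Q := by
    intro hcQ
    have h4 := hF1 V S X w hC hI h5 Q hQ v hv (hvc Q hQ)
    have h6 := hC.root v hv
    have h7 : w v a + w v b + w v c ≤ dg w Q v := by
      have h8 : ∑ u ∈ ({a, b, c} : Finset V), w v u = w v a + w v b + w v c := by
        rw [sum_insert (by simp [hab, hac]), sum_pair hbc, add_assoc]
      rw [← h8]
      exact sum_le_sum_of_subset (F3_sub haQ hbQ hcQ)
    omega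
  have key : ∀ z ∈ Q, Blk S w z c → w z c = 2 := by
    intro z hz hB
    rcases hB with h | ⟨Q', hQ', hzQ', hcQ'⟩
    · exact h
    · exfalso
      have hne : Q ≠ Q' := fun h => hcQ (h ▸ hcQ')
      exact (disjoint_left.1 (hD Q Q' hQ hQ' hne)) hz hzQ'
  have k2 := key a haQ b2
  have k3 := key b hbQ b3
  have k1 := (hCRI V S X w hC hI (by omega) Q hQ).2.2.2.2 a haQ b hbQ hab
  have hsub := F3_sub ha hb hc
  have hcard : ({a, b, c} : Finset V).card = 3 := card_eq_three.2 ⟨a, b, c, hab, hac, hbc, rfl⟩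
  have h4 := hC.v {a, b, c} hsub (by omega)
  have h6 := e6 a b c hab hac hbc
  have hcr : Crit S w {a, b, c} := ⟨hsub, hcard, by omega⟩
  have hne : Q ≠ {a, b, c} := fun h => hcQ (by rw [h]; simp)
  exact (disjoint_left.1 (hD Q _ hQ hcr hne)) haQ (by simp)

theorem F3 (hEIN : EIN_stmt) (hCRI : CRI_stmt) (hF1 : F1_stmt) : F3_stmt := by
  intro V _ S X w hC hI h5 hD v hv hvc a ha b hb c hc hva hvb hvc' hab hac hbc h1 h2 h3 ⟨b1, b2, b3⟩
  have sw : ∀ p q, Blk S w p q → Blk S w q p := by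
    rintro p q (h | ⟨Q, hQ, hp, hq⟩)
    · exact Or.inl (by rw [hC.sy.symm]; exact h)
    · exact Or.inr ⟨Q, hQ, hq, hp⟩
  rcases id b1 with q1 | ⟨Q, hQ, haQ, hbQ⟩
  · rcases id b2 with q2 | ⟨Q, hQ, haQ, hcQ⟩
    · rcases id b3 with q3 | ⟨Q, hQ, hbQ, hcQ⟩
      · obtain ⟨-, -, -, -, -, e6, -, -, -⟩ := hEIN V w hC.sy
        have hcard : ({a, b, c} : Finset V).card = 3 := card_eq_three.2 ⟨a, b, c, hab, hac, hbc, rfl⟩
        have h4 := hC.v {a, b, c} (F3_sub ha hb hc) (by omega)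
        have h6 := e6 a b c hab hac hbc
        omega
      · exact F3_core hEIN hCRI hF1 S X w hC hI h5 hD v hv hvc b c a hb hc ha hbc hab.symm hac.symm h2 h3 h1
          Q hQ hbQ hcQ (sw _ _ b1) (sw _ _ b2)
    · exact F3_core hEIN hCRI hF1 S X w hC hI h5 hD v hv hvc a c b ha hc hb hac hab hbc.symm h1 h3 h2
        Q hQ haQ hcQ b1 (sw _ _ b3)
  · exact F3_core hEIN hCRI hF1 S X w hC hI h5 hD v hv hvc a b c ha hb hc hab hac hbc h1 h2 h3
      Q hQ haQ hbQ b2 b3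

end

end Pool.Agent.KU
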