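import Pool.Agent.helper18.KU.Spec

/-!
# ku:IN3: insertion of a vertex of degree 5 with two root edges
-/

set_option autoImplicit false

namespace Pool.Agent.KU

open Finset

noncomputable section

theorem IN3_core (hINS : INS_stmt) (hGEN : GEN_stmt) (hDIS : DIS_stmt) {V : Type} [DecidableEq V]
    (S : Finset V) (X : V → ℕ) (w : V → V → ℕ) (v a b c : V) (hv : v ∉ S) (hw : Sy w) (ha : a ∈ S)
    (hb : b ∈ S) (hc : c ∈ S) (hX : X v = 2)
    (hN : ∀ u ∈ S, w v u = (if u = a then 1 else 0) + (if u = b then 1 else 0) + (if u = c then 1 else 0))
    (h : V → ZMod 3 → Option V) (φ : V → ℝ) (hS : Static S (addX X c) (addE w a b) h φ)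
    (k1 : ZMod 3) (hk1 : h a k1 = some b) : St (insert v S) X w := by
  obtain ⟨k2, hk2⟩ : ∃ k2, h c k2 = none := by
    have h1 := hS.cX c hc
    have h2 : 0 < (univ.filter fun k => h c k = none).card := by
      rw [h1, addX, if_pos rfl]
      omega
    obtain ⟨k2, hk⟩ := card_pos.1 h2
    exact ⟨k2, (mem_filter.1 hk).2⟩
  obtain ⟨s, hs1, hs2, hs3⟩ := hGEN (S.image φ) (φ c + (ZMod.val k2 : ℝ) + 1) (φ c + (ZMod.val k2 : ℝ) + 2)
    (by linarith)
  have hba : b ≠ a := (hS.mem a ha k1 b hk1).2
  have hcast : ((ZMod.val k2 : ℤ) : ZMod 3) = k2 := by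
    rw [Int.cast_natCast, ZMod.natCast_zmod_val]
  have hne12 : ∀ k, h a k = some b → ¬ (a = c ∧ k = k2) := by
    rintro k hk ⟨rfl, rfl⟩
    rw [hk2] at hk
    exact absurd hk (by simp)
  refine hINS V S (addX X c) X (addE w a b) w h φ v {(a, k1), (c, k2)}
    (fun k => if k = 0 then some b else none) s hv hw hS ?_ ?_ ?_ ?_ ?_ ?_ ?_ ?_
  · intro r hr
    simp only [mem_insert, mem_singleton] at hr
    rcases hr with rfl | rfl
    · exact ha
    · exact hc
  · intro k b' hb'
    split_ifs at hb' with hk
    rw [Option.some.injEq] at hb'
    rw [← hb']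
    exact hb
  · intro u hu n
    exact hs3 (φ u) (mem_image_of_mem φ hu) n
  · intro t
    by_cases ht : ((⌊t - s⌋ : ℤ) : ZMod 3) = 0
    · right
      intro r hr hact
      rw [if_pos ht]
      simp only [mem_insert, mem_singleton] at hr
      rcases hr with rfl | rfl
      · exact hk1
      · exfalso
        refine hDIS s (φ c) 0 (ZMod.val k2 : ℤ) 0 ?_ ?_ t ⟨?_, ?_⟩
        · push_cast
          linarith
        · push_cast
          linarith
        · rw [ht]
          simp
        · rw [hcast]
          exact hact
    · left
      rw [if_neg ht]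
  · -- the root slots
    intro u hu
    have h1 := hS.cX u hu
    by_cases huc : u = c
    · subst huc
      have h2 : (univ.filter fun k => (u, k) ∉ ({(a, k1), (u, k2)} : Finset (V × ZMod 3)) ∧ h u k = none) =
          (univ.filter fun k => h u k = none).erase k2 := by
        ext k
        simp only [mem_filter, mem_univ, true_and, mem_erase, mem_insert, mem_singleton, Prod.mk.injEq,
          not_or, not_and]
        constructor
        · rintro ⟨⟨-, h3⟩, h4⟩
          exact ⟨h3, h4⟩
        · rintro ⟨h3, h4⟩
          refine ⟨⟨?_, h3⟩, h4⟩
          rintro rfl rfl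
          rw [hk1] at h4
          exact absurd h4 (by simp)
      rw [h2, card_erase_of_mem (by simp [hk2]), h1, addX, if_pos rfl]
      rfl
    · have h2 : (univ.filter fun k => (u, k) ∉ ({(a, k1), (c, k2)} : Finset (V × ZMod 3)) ∧ h u k = none) =
          (univ.filter fun k => h u k = none) := by
        ext k
        simp only [mem_filter, mem_univ, true_and, mem_insert, mem_singleton, Prod.mk.injEq,
          not_or, not_and]
        constructor
        · rintro ⟨-, h4⟩
          exact h4
        · intro h4
          refine ⟨⟨?_, fun h5 => absurd h5 huc⟩, h4⟩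
          rintro rfl rfl
          rw [hk1] at h4
          exact absurd h4 (by simp)
      rw [h2, h1, addX, if_neg huc, add_zero]
  · -- the other slots
    have key : ∀ u ∈ S, ∀ z ∈ S, (univ.filter fun k => (u, k) ∉ ({(a, k1), (c, k2)} : Finset (V × ZMod 3)) ∧
        h u k = some z).card + (if u = a ∧ z = b then 1 else 0) = (univ.filter fun k => h u k = some z).card := by
      intro u hu z hz
      by_cases huz : u = a ∧ z = b
      · obtain ⟨rfl, rfl⟩ := huz
        have h2 : (univ.filter fun k => (u, k) ∉ ({(u, k1), (c, k2)} : Finset (V × ZMod 3)) ∧ h u k = some z) =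
            (univ.filter fun k => h u k = some z).erase k1 := by
          ext k
          simp only [mem_filter, mem_univ, true_and, mem_erase, mem_insert, mem_singleton, Prod.mk.injEq,
            not_or, not_and]
          constructor
          · rintro ⟨⟨h3, -⟩, h4⟩
            exact ⟨h3, h4⟩
          · rintro ⟨h3, h4⟩
            refine ⟨⟨h3, ?_⟩, h4⟩
            rintro rfl rfl
            rw [hk2] at h4
            exact absurd h4 (by simp)
        rw [h2, card_erase_of_mem (by simp [hk1]), if_pos ⟨rfl, rfl⟩]
        have h5 : 0 < (univ.filter fun k => h u k = some z).card :=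
          card_pos.2 ⟨k1, by simp [hk1]⟩
        omega
      · rw [if_neg huz, add_zero]
        congr 1
        ext k
        simp only [mem_filter, mem_univ, true_and, mem_insert, mem_singleton, Prod.mk.injEq,
          not_or, not_and]
        constructor
        · rintro ⟨-, h4⟩
          exact h4
        · intro h4
          refine ⟨⟨?_, ?_⟩, h4⟩
          · rintro rfl rfl
            rw [hk1, Option.some.injEq] at h4
            exact huz ⟨rfl, h4.symm⟩
          · rintro rfl rfl
            rw [hk2] at h4
            exact absurd h4 (by simp)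
    intro u hu z hz huz
    have h1 := hS.cw u hu z hz huz
    have h2 := key u hu z hz
    have h3 := key z hz u hu
    rw [addE] at h1
    by_cases p1 : u = a ∧ z = b
    · have p2 : ¬ (z = a ∧ u = b) := fun h => huz (by rw [p1.1, h.1])
      rw [if_pos p1] at h2
      rw [if_neg p2] at h3
      rw [if_pos (Or.inl p1)] at h1
      omega
    · by_cases p2 : z = a ∧ u = b
      · rw [if_neg p1] at h2
        rw [if_pos p2] at h3
        rw [if_pos (Or.inr ⟨p2.2, p2.1⟩)] at h1
        omega
      · rw [if_neg p1] at h2
        rw [if_neg p2] at h3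
        rw [if_neg (by
          rintro (h | h)
          · exact p1 h
          · exact p2 ⟨h.2, h.1⟩)] at h1
        omega
  · rw [hX]
    have h1 : (univ.filter fun k : ZMod 3 => (if k = 0 then some b else none : Option V) = none) =
        univ.filter fun k : ZMod 3 => k ≠ 0 := by
      ext k
      simp only [mem_filter, mem_univ, true_and]
      split_ifs with hk
      · simp [hk]
      · simp [hk]
    rw [h1]
    decide
  · intro u hu
    rw [hN u hu]
    have h1 : (univ.filter fun k : ZMod 3 => (if k = 0 then some b else none : Option V) = some u).card =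
        if u = b then 1 else 0 := by
      by_cases hub : u = b
      · rw [if_pos hub]
        have h2 : (univ.filter fun k : ZMod 3 => (if k = 0 then some b else none : Option V) = some u) = {0} := by
          ext k
          simp only [mem_filter, mem_univ, true_and, mem_singleton]
          split_ifs with hk
          · simp [hk, hub]
          · simp [hk]
        rw [h2, card_singleton]
      · rw [if_neg hub, card_eq_zero, filter_eq_empty_iff]
        intro k _
        split_ifs with hk
        · rw [Option.some.injEq]
          exact fun h => hub h.symm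
        · simp
    have h3 : (univ.filter fun k : ZMod 3 => (u, k) ∈ ({(a, k1), (c, k2)} : Finset (V × ZMod 3))).card =
        (if u = a then 1 else 0) + (if u = c then 1 else 0) := by
      have h4 : (univ.filter fun k : ZMod 3 => (u, k) ∈ ({(a, k1), (c, k2)} : Finset (V × ZMod 3))) =
          (if u = a then {k1} else ∅) ∪ (if u = c then {k2} else ∅) := by
        ext k
        have q : ∀ (z : V) (k' : ZMod 3), (k ∈ if u = z then ({k'} : Finset (ZMod 3)) else ∅) ↔ u = z ∧ k = k' := by
          intro z k'
          split_ifs with q <;> simp [q]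
        simp only [mem_filter, mem_univ, true_and, mem_insert, mem_singleton, Prod.mk.injEq, mem_union, q]
      rw [h4, card_union_of_disjoint]
      · congr 1
        · split_ifs <;> simp
        · split_ifs <;> simp
      · by_cases q1 : u = a
        · by_cases q2 : u = c
          · rw [if_pos q1, if_pos q2, disjoint_singleton]
            rintro rfl
            exact hne12 k1 hk1 ⟨by rw [← q1, ← q2], rfl⟩
          · rw [if_neg q2]
            exact disjoint_empty_right _
        · rw [if_neg q1]
          exact disjoint_empty_left _
    rw [h1, h3]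
    ring

theorem IN3 (hINS : INS_stmt) (hGEN : GEN_stmt) (hDIS : DIS_stmt) : IN3_stmt := by
  intro V _ S X w v a b c hv hw ha hb hc hab hX hN hSt
  obtain ⟨h, φ, hS⟩ := hSt
  have h1 := hS.cw a ha b hb hab
  rw [addE, if_pos (Or.inl ⟨rfl, rfl⟩)] at h1
  by_cases h2 : 0 < (univ.filter fun k => h a k = some b).card
  · obtain ⟨k1, hk⟩ := card_pos.1 h2
    exact IN3_core hINS hGEN hDIS S X w v a b c hv hw ha hb hc hX hN h φ hS k1 (mem_filter.1 hk).2
  · have h3 : 0 < (univ.filter fun k => h b k = some a).card := by omega
    obtain ⟨k1, hk⟩ := card_pos.1 h3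
    have h4 : addE w a b = addE w b a := by
      funext u z
      unfold addE
      congr 1
      exact if_congr or_comm rfl rfl
    rw [h4] at hS
    refine IN3_core hINS hGEN hDIS S X w v b a c hv hw hb ha hc hX (fun u hu => ?_) h φ hS k1
      (mem_filter.1 hk).2
    rw [hN u hu]
    ring

end

end Pool.Agent.KU
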