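import Pool.Agent.helper51.KU.LC3

/-!
# ku:LC2: the smaller graph for IN2
-/

set_option autoImplicit false

namespace Pool.Agent.KU

open Finset

noncomputable section

theorem LC2 (hEIN : EIN_stmt) (hFNS : FNS_stmt) (hDEG : DEG_stmt) : LC2_stmt := by
  intro V _ S X w hC hI h5 v hv hvc a ha b hb c hc d hd hva hvb hvc' hvd hab hcd hXv hw hB1 hB2
  obtain ⟨f1, -, f3, -, -, f6, f7, f8, -⟩ := hFNS V w X hC.sy
  obtain ⟨-, -, -, -, -, g6, g7, g8, -⟩ := hFNS V (addE w a b) X (f6 a b hab)
  obtain ⟨d1, -, -, -⟩ := hDEG V S X w hC hI (by omega)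
  obtain ⟨d11, -, -, -, d15⟩ := d1 v hv
  obtain ⟨-, -, -, -, -, e6, -, -, -⟩ := hEIN V w hC.sy
  have hsub : S.erase v ⊆ S := erase_subset _ _
  have hdgT : ∀ T ⊆ S.erase v, a ∈ T → b ∈ T → c ∈ T → d ∈ T → dg w T v = 4 := by
    intro T hT h1 h2 h3 h4
    unfold dg
    rw [sum_congr rfl fun u hu => hw u (hT hu), sum_add_distrib, sum_add_distrib, sum_add_distrib,
      sum_ite_eq', sum_ite_eq', sum_ite_eq', sum_ite_eq', if_pos h1, if_pos h2, if_pos h3, if_pos h4]
  have hae : a ∈ S.erase v := mem_erase.mpr ⟨hva.symm, ha⟩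
  have hbe : b ∈ S.erase v := mem_erase.mpr ⟨hvb.symm, hb⟩
  have hce : c ∈ S.erase v := mem_erase.mpr ⟨hvc'.symm, hc⟩
  have hde : d ∈ S.erase v := mem_erase.mpr ⟨hvd.symm, hd⟩
  have hdg : dg w S v = 4 := by
    rw [d15]
    exact hdgT _ (Subset.refl _) hae hbe hce hde
  have hfe : f X w (S.erase v) = 2 := by
    rw [hXv, hdg] at d11
    push_cast at d11
    linarith
  have hTS : ∀ T ⊆ S.erase v, T ≠ S := by
    rintro T hT rfl
    exact notMem_erase v T (hT hv)
  -- the slack if all neighbours are in `T`
  have hall : ∀ T ⊆ S.erase v, a ∈ T → b ∈ T → c ∈ T → d ∈ T → 2 ≤ f X w T ∧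
      (T.card ≤ 3 → 3 ≤ f X w T) := by
    intro T hT h1 h2 h3 h4
    have hvT : v ∉ T := fun h => notMem_erase v S (hT h)
    have h6 := f3 T v hvT
    rw [hXv, hdgT T hT h1 h2 h3 h4] at h6
    push_cast at h6
    have hins : insert v T ⊆ S := insert_subset hv (hT.trans hsub)
    have h7 := hC.iv (insert v T) hins
    refine ⟨by linarith, fun h8 => ?_⟩
    have h9 : insert v T ≠ S := by
      intro h
      have h10 : (insert v T).card = T.card + 1 := card_insert_of_notMem hvT
      rw [h] at h10
      omega
    have h10 := (hI (insert v T) hins (insert_nonempty v T) h9).1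
    linarith
  refine ⟨g6 c d hcd, fun u hu => hC.root u (hsub hu), ?_, ?_, ?_⟩
  · rw [g8 _ c d hcd, f8 _ a b hab, if_pos ⟨hae, hbe⟩, if_pos ⟨hce, hde⟩, hfe]
    norm_num
  · intro T hT
    rw [g8 _ c d hcd, f8 _ a b hab]
    by_cases hT0 : T = ∅
    · subst hT0
      rw [f1, if_neg (by simp), if_neg (by simp)]
      norm_num
    · have h3 := (hI T (hT.trans hsub) (nonempty_iff_ne_empty.mpr hT0) (hTS T hT)).1
      by_cases h1 : a ∈ T ∧ b ∈ T
      · by_cases h2 : c ∈ T ∧ d ∈ T
        · rw [if_pos h1, if_pos h2]
          have h4 := (hall T hT h1.1 h1.2 h2.1 h2.2).1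
          linarith
        · rw [if_pos h1, if_neg h2]
          linarith
      · rw [if_neg h1]
        split_ifs <;> linarith
  · intro T hT h2
    rw [g7 _ c d hcd, f7 _ a b hab]
    by_cases h1 : a ∈ T ∧ b ∈ T
    · by_cases h3 : c ∈ T ∧ d ∈ T
      · rw [if_pos h1, if_pos h3]
        obtain ⟨h6, h7⟩ := hall T hT h1.1 h1.2 h3.1 h3.2
        have h8 : (T.card : ℤ) ≤ ∑ u ∈ T, (X u : ℤ) := by
          have h9 : ∑ u ∈ T, 1 ≤ ∑ u ∈ T, X u := sum_le_sum fun u hu => hC.root u (hsub (hT hu))
          rw [sum_const, smul_eq_mul, mul_one] at h9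
          exact_mod_cast h9
        unfold f at h6 h7
        rcases Nat.lt_or_ge T.card 4 with h9 | h9
        · rcases Nat.lt_or_ge T.card 3 with h10 | h10
          · have h11 : T.card = 2 := by omega
            have h12 : ({a, b} : Finset V) = T := by
              apply eq_of_subset_of_card_le
              · intro x hx
                rw [mem_insert, mem_singleton] at hx
                rcases hx with rfl | rfl
                · exact h1.1
                · exact h1.2
              · rw [h11, card_pair hab]
            have h13 := hdgT T hT h1.1 h1.2 h3.1 h3.2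
            rw [← h12] at h13
            have h14 : w v a + w v b = 4 := by
              rw [← h13]
              unfold dg
              rw [sum_pair hab]
            have hsub3 : ({v, a, b} : Finset V) ⊆ S := by
              intro x hx
              simp only [mem_insert, mem_singleton] at hx
              rcases hx with rfl | rfl | rfl
              · exact hv
              · exact ha
              · exact hb
            have hcard : ({v, a, b} : Finset V).card = 3 :=
              card_eq_three.2 ⟨v, a, b, hva, hvb, hab, rfl⟩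
            have h15 := hC.v {v, a, b} hsub3 (by omega)
            have h16 := e6 v a b hva hvb hab
            have h17 : E w {v, a, b} ≠ 5 := fun h =>
              hvc {v, a, b} ⟨hsub3, hcard, h⟩ (mem_insert_self v _)
            have h18 := (hEIN V w hC.sy).2.2.2.2.1 a b hab
            rw [← h12, h18, card_pair hab]
            omega
          · have h11 := h7 (by omega)
            omega
        · omega
      · rw [if_pos h1, if_neg h3]
        exact LC3_v hEIN S X w hC hI v hv a b hab hB1 T hT h2 h1.1 h1.2
    · rw [if_neg h1]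
      by_cases h3 : c ∈ T ∧ d ∈ T
      · rw [if_pos h3]
        exact LC3_v hEIN S X w hC hI v hv c d hcd hB2 T hT h2 h3.1 h3.2
      · rw [if_neg h3]
        have := hC.v T (hT.trans hsub) h2
        omega

end

end Pool.Agent.KU
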