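import Pool.Agent.helper18.KU.Spec

/-!
# ku:T4: the graphs with four vertices and eight edges inside
-/

set_option autoImplicit false

namespace Pool.Agent.KU

open Finset

noncomputable section

/-- (code of the graph, code of the slots, code of the ranks) -/
def T4_tab : List (ℕ × ℕ × ℕ) :=
  [(696, 19431069, 216), (642, 19430944, 216), (480, 18342319, 228), (690, 218902964, 120),
   (636, 218902839, 120), (474, 91952214, 180), (456, 57008738, 225), (402, 43433117, 177),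
   (240, 8546064, 228), (694, 28108544, 228), (640, 29040419, 216), (478, 28077294, 228),
   (688, 19123539, 228), (634, 140780294, 180), (472, 91658069, 156), (670, 76533743, 225),
   (616, 58173738, 225), (454, 105621733, 201), (562, 199908097, 114), (400, 8576684, 228),
   (238, 197414971, 78), (682, 209293414, 120), (628, 92107789, 180), (466, 90154664, 180),
   (664, 77783698, 210), (610, 141080617, 177), (448, 91874084, 180), (556, 43658112, 177),
   (394, 18821607, 57), (232, 19167446, 30), (430, 76486868, 225), (376, 40868039, 147),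
   (214, 205543194, 75), (322, 39751862, 177), (160, 58290089, 27), (686, 208564334, 108),
   (632, 140486209, 156), (470, 208533084, 108), (614, 106159233, 201), (560, 9665284, 216),
   (398, 42334991, 141), (680, 218299309, 108), (626, 142283684, 156), (464, 140330559, 156),
   (662, 115544173, 198), (608, 140484964, 156), (446, 90147491, 141), (554, 28669047, 54),
   (392, 28072486, 45), (230, 41164981, 141), (590, 196853664, 99), (536, 216334919, 99),
   (374, 39764434, 135), (320, 106185709, 39), (158, 39211856, 141), (656, 218824784, 120),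
   (602, 77409107, 57), (440, 115572486, 45), (584, 138525539, 147), (422, 89139434, 135),
   (530, 142194294, 147), (368, 76498209, 39), (206, 90309444, 135), (350, 196806789, 99),
   (296, 138288044, 147), (134, 88356319, 135)]

/-- the codes of the slots and ranks -/
def T4_get (c : ℕ) : ℕ × ℕ := ((T4_tab.find? fun r => r.1 == c).getD (0, 0, 0)).2

/-- the slots -/
def T4_hh (H : ℕ) (i : Fin 4) (k : ZMod 3) : Option (Fin 4) :=
  if h : H / 5 ^ (3 * i.1 + ZMod.val k) % 5 < 4 then some ⟨H / 5 ^ (3 * i.1 + ZMod.val k) % 5, h⟩ else none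

/-- the ranks -/
def T4_r (R : ℕ) (i : Fin 4) : ℕ := R / 4 ^ i.1 % 4

/-- the numbers of edges -/
def T4_p (x0 x1 x2 x3 x4 x5 : ℕ) (i j : Fin 4) : ℕ :=
  if i = 0 ∧ j = 1 ∨ i = 1 ∧ j = 0 then x0 else
  if i = 0 ∧ j = 2 ∨ i = 2 ∧ j = 0 then x1 else
  if i = 0 ∧ j = 3 ∨ i = 3 ∧ j = 0 then x2 else
  if i = 1 ∧ j = 2 ∨ i = 2 ∧ j = 1 then x3 else
  if i = 1 ∧ j = 3 ∨ i = 3 ∧ j = 1 then x4 else
  if i = 2 ∧ j = 3 ∨ i = 3 ∧ j = 2 then x5 else 0

/-- the conditions of CHK -/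
def T4_ok (H R : ℕ) (p : Fin 4 → Fin 4 → ℕ) : Prop :=
  (∀ i j : Fin 4, T4_r R i = T4_r R j → i = j) ∧ (∀ (i : Fin 4) (k : ZMod 3), T4_hh H i k ≠ some i) ∧
  (∀ (j : Fin (3 * 4)) (i : Fin 4),
    it (fun i => T4_hh H i ((((j : ℕ) : ℤ) - T4_r R i) / (4 : ℕ) : ℤ)) 4 (some i) = none) ∧
  (∀ i : Fin 4, (univ.filter fun k => T4_hh H i k = none).card = 1) ∧
  (∀ i i' : Fin 4, i ≠ i' → (univ.filter fun k => T4_hh H i k = some i').card +
    (univ.filter fun k => T4_hh H i' k = some i).card = p i i')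

instance (H R : ℕ) (p : Fin 4 → Fin 4 → ℕ) : Decidable (T4_ok H R p) := by
  unfold T4_ok
  infer_instance

theorem T4_all : ∀ x0 x1 x2 x3 x4 x5 : Fin 3, x0.1 + x1.1 + x2.1 + x3.1 + x4.1 + x5.1 = 8 →
    x0.1 + x1.1 + x3.1 ≤ 5 → x0.1 + x2.1 + x4.1 ≤ 5 → x1.1 + x2.1 + x5.1 ≤ 5 → x3.1 + x4.1 + x5.1 ≤ 5 →
    T4_ok (T4_get (x0.1 + 3 * x1.1 + 9 * x2.1 + 27 * x3.1 + 81 * x4.1 + 243 * x5.1)).1
      (T4_get (x0.1 + 3 * x1.1 + 9 * x2.1 + 27 * x3.1 + 81 * x4.1 + 243 * x5.1)).2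
      (T4_p x0.1 x1.1 x2.1 x3.1 x4.1 x5.1) := by
  decide +kernel

theorem T4_core (hCHK : CHK_stmt) (hEXS : EXS_stmt) (X : Fin 4 → ℕ) (w : Fin 4 → Fin 4 → ℕ)
    (hX : ∀ i, X i = 1) (hs : ∀ i j, w i j = w j i)
    (h2 : ∀ i j, i ≠ j → w i j ≤ 2) (h8 : w 0 1 + w 0 2 + w 0 3 + w 1 2 + w 1 3 + w 2 3 = 8)
    (t1 : w 0 1 + w 0 2 + w 1 2 ≤ 5) (t2 : w 0 1 + w 0 3 + w 1 3 ≤ 5) (t3 : w 0 2 + w 0 3 + w 2 3 ≤ 5)
    (t4 : w 1 2 + w 1 3 + w 2 3 ≤ 5) : St univ X w := by
  have hlt : ∀ i j, i ≠ j → w i j < 3 := fun i j hij => Nat.lt_succ_of_le (h2 i j hij)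
  obtain ⟨a1, a2, a3, a4, a5⟩ := T4_all ⟨w 0 1, hlt 0 1 (by decide)⟩ ⟨w 0 2, hlt 0 2 (by decide)⟩
    ⟨w 0 3, hlt 0 3 (by decide)⟩ ⟨w 1 2, hlt 1 2 (by decide)⟩ ⟨w 1 3, hlt 1 3 (by decide)⟩
    ⟨w 2 3, hlt 2 3 (by decide)⟩ h8 t1 t2 t3 t4
  simp only at a1 a2 a3 a4 a5
  have h1 := hCHK 4 (by norm_num) _ _ (fun i => Nat.mod_lt _ (by norm_num)) (fun i j hij => a1 i j hij) a2 a3
  refine (hEXS (Fin 4) univ _ X _ w ?_ ?_).1 h1
  · intro i _
    rw [a4, hX]
  · intro i _ j _ hij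
    rw [a5 i j hij]
    fin_cases i <;> fin_cases j <;> first | exact absurd rfl hij | rfl | exact hs _ _

theorem T4 (hCHK : CHK_stmt) (hTRN : TRN_stmt) (hEXS : EXS_stmt) (hEIN : EIN_stmt) : T4_stmt := by
  intro V _ S X w hS hw hX hE hv
  obtain ⟨-, -, -, e4, e5, e6, -, -, -⟩ := hEIN V w hw
  obtain ⟨e, he, hes⟩ : ∃ e : Fin 4 → V, Function.Injective e ∧ univ.image e = S := by
    refine ⟨fun i => ((S.equivFinOfCardEq hS).symm i : V), ?_, ?_⟩
    · intro i j hij
      exact (S.equivFinOfCardEq hS).symm.injective (Subtype.ext hij)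
    · ext v
      simp only [mem_image, mem_univ, true_and]
      constructor
      · rintro ⟨i, rfl⟩
        exact ((S.equivFinOfCardEq hS).symm i).2
      · intro hvS
        exact ⟨S.equivFinOfCardEq hS ⟨v, hvS⟩, by simp⟩
  have hmem : ∀ i, e i ∈ S := fun i => by
    rw [← hes]
    exact mem_image_of_mem e (mem_univ i)
  have hne : ∀ i j, i ≠ j → e i ≠ e j := fun i j hij h => hij (he h)
  have h2 : ∀ i j, i ≠ j → w (e i) (e j) ≤ 2 := by
    intro i j hij
    have h := hv {e i, e j} (by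
      intro x hx
      simp only [mem_insert, mem_singleton] at hx
      rcases hx with rfl | rfl <;> exact hmem _) (by rw [card_pair (hne i j hij)])
    rw [card_pair (hne i j hij), e5 _ _ (hne i j hij)] at h
    omega
  have h3 : ∀ i j k, i ≠ j → i ≠ k → j ≠ k → w (e i) (e j) + w (e i) (e k) + w (e j) (e k) ≤ 5 := by
    intro i j k hij hik hjk
    have hc : ({e i, e j, e k} : Finset V).card = 3 :=
      card_eq_three.2 ⟨_, _, _, hne i j hij, hne i k hik, hne j k hjk, rfl⟩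
    have h := hv {e i, e j, e k} (by
      intro x hx
      simp only [mem_insert, mem_singleton] at hx
      rcases hx with rfl | rfl | rfl <;> exact hmem _) (by rw [hc]; norm_num)
    rw [hc, e6 _ _ _ (hne i j hij) (hne i k hik) (hne j k hjk)] at h
    omega
  have hSe : S = insert (e 3) {e 0, e 1, e 2} := by
    rw [← hes]
    ext v
    simp only [mem_image, mem_univ, true_and, mem_insert, mem_singleton]
    constructor
    · rintro ⟨i, rfl⟩
      fin_cases i
      · exact Or.inr (Or.inl rfl)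
      · exact Or.inr (Or.inr (Or.inl rfl))
      · exact Or.inr (Or.inr (Or.inr rfl))
      · exact Or.inl rfl
    · rintro (rfl | rfl | rfl | rfl)
      · exact ⟨3, rfl⟩
      · exact ⟨0, rfl⟩
      · exact ⟨1, rfl⟩
      · exact ⟨2, rfl⟩
  have h01 : e 0 ≠ e 1 := hne 0 1 (by decide)
  have h02 : e 0 ≠ e 2 := hne 0 2 (by decide)
  have h12 : e 1 ≠ e 2 := hne 1 2 (by decide)
  have h30 : e 3 ≠ e 0 := hne 3 0 (by decide)
  have h31 : e 3 ≠ e 1 := hne 3 1 (by decide)
  have h32 : e 3 ≠ e 2 := hne 3 2 (by decide)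
  have h8 : w (e 0) (e 1) + w (e 0) (e 2) + w (e 0) (e 3) + w (e 1) (e 2) + w (e 1) (e 3) + w (e 2) (e 3) = 8 := by
    rw [hSe, e4 _ _ (by simp [h30, h31, h32]), e6 _ _ _ h01 h02 h12] at hE
    have hd : dg w {e 0, e 1, e 2} (e 3) = w (e 0) (e 3) + w (e 1) (e 3) + w (e 2) (e 3) := by
      rw [dg, sum_insert (by simp [h01, h02]), sum_insert (by simp [h12]), sum_singleton,
        hw.symm (e 3) (e 0), hw.symm (e 3) (e 1), hw.symm (e 3) (e 2)]
      ring
    rw [hd] at hE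
    omega
  rw [← hes]
  refine hTRN 4 V e X w he (T4_core hCHK hEXS _ _ (fun i => hX _ (hmem i)) (fun i j => hw.symm _ _)
    h2 h8 ?_ ?_ ?_ ?_)
  · exact h3 0 1 2 (by decide) (by decide) (by decide)
  · exact h3 0 1 3 (by decide) (by decide) (by decide)
  · exact h3 0 2 3 (by decide) (by decide) (by decide)
  · exact h3 1 2 3 (by decide) (by decide) (by decide)

end

end Pool.Agent.KU
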