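import Pool.Agent.helper18.KU.LY
import Pool.Agent.helper59.KU.ACI
import Pool.Agent.helper23.KU.CHK
import Pool.Agent.helper18.KU.CHS
import Pool.Agent.helper76.KU.EIN
import Pool.Agent.helper99.KU.FNS
import Pool.Agent.helper18.KU.DEG
import Pool.Agent.helper59.KU.CRI
import Pool.Agent.helper67.KU.CNT
import Pool.Agent.helper25.KU.CR2
import Pool.Agent.helper70.KU.DIS
import Pool.Agent.helper26.KU.EXS
import Pool.Agent.helper18.KU.F1
import Pool.Agent.helper18.KU.F2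
import Pool.Agent.helper18.KU.F3
import Pool.Agent.helper76.KU.F4
import Pool.Agent.helper11.KU.GEN
import Pool.Agent.helper25.KU.INS
import Pool.Agent.helper26.KU.IN1
import Pool.Agent.helper1.KU.IN2
import Pool.Agent.helper18.KU.IN3
import Pool.Agent.helper25.KU.NB
import Pool.Agent.helper99.KU.LC1
import Pool.Agent.helper51.KU.LC3
import Pool.Agent.helper51.KU.L3
import Pool.Agent.helper18.KU.LC2
import Pool.Agent.helper8.KU.L4
import Pool.Agent.helper73.KU.S1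
import Pool.Agent.helper59.KU.S2
import Pool.Agent.helper90.KU.TRN
import Pool.Agent.helper90.KU.T3
import Pool.Agent.helper26.KU.S3
import Pool.Agent.helper18.KU.T4
import Pool.Agent.helper51.KU.S4
import Pool.Agent.helper59.KU.T5
import Pool.Agent.helper77.KU.S5
import Pool.Agent.helper73.KU.SPC
import Pool.Agent.helper15.KU.SPS
import Pool.Agent.helper46.KU.QIC
import Pool.Agent.helper99.KU.QIS
import Pool.Agent.helper49.KU.MAIN
import Pool.Agent.helper70.KU.ORD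
import Pool.Agent.helper26.KU.PAR
import Pool.Agent.helper62.KU.TRE

/-!
Project ku (MP_974a61_co): the assembly.
-/

set_option autoImplicit false

namespace Pool.Agent.KU

open Finset

noncomputable section

theorem t_ACI : ACI_stmt := ACI
theorem t_CHK : CHK_stmt := CHK
theorem t_CHS : CHS_stmt := CHS
theorem t_EIN : EIN_stmt := EIN
theorem t_FNS : FNS_stmt := FNS t_EIN
theorem t_DEG : DEG_stmt := DEG t_EIN t_FNS
theorem t_CRI : CRI_stmt := CRI t_EIN t_FNS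
theorem t_CNT : CNT_stmt := CNT t_DEG t_CRI
theorem t_CR2 : CR2_stmt := CR2 t_EIN t_FNS t_CRI
theorem t_DIS : DIS_stmt := DIS
theorem t_EXS : EXS_stmt := EXS
theorem t_F1 : F1_stmt := F1 t_FNS t_CRI
theorem t_F2 : F2_stmt := F2 t_EIN t_F1
theorem t_F3 : F3_stmt := F3 t_EIN t_CRI t_F1
theorem t_F4 : F4_stmt := F4 t_EIN t_F1
theorem t_GEN : GEN_stmt := GEN
theorem t_INS : INS_stmt := INS t_ACI
theorem t_IN1 : IN1_stmt := IN1 t_GEN t_DIS t_INS
theorem t_IN2 : IN2_stmt := IN2 t_GEN t_DIS t_INS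
theorem t_IN3 : IN3_stmt := IN3 t_INS t_GEN t_DIS
theorem t_NB : NB_stmt := NB
theorem t_LC1 : LC1_stmt := LC1 t_EIN t_FNS
theorem t_LC3 : LC3_stmt := LC3 t_EIN t_FNS t_DEG
theorem t_L3 : L3_stmt := L3 t_NB t_DEG t_F2 t_F3 t_LC1 t_LC3 t_IN1 t_IN3
theorem t_LC2 : LC2_stmt := LC2 t_EIN t_FNS t_DEG
theorem t_L4 : L4_stmt := L4 t_EIN t_NB t_DEG t_LC2 t_IN2 t_F2 t_F3 t_F4 t_L3
theorem t_S1 : S1_stmt := S1 t_FNS
theorem t_S2 : S2_stmt := S2
theorem t_TRN : TRN_stmt := TRN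
theorem t_T3 : T3_stmt := T3 t_CHK t_TRN t_EXS
theorem t_S3 : S3_stmt := S3 t_EIN t_DEG t_T3
theorem t_T4 : T4_stmt := T4 t_CHK t_TRN t_EXS t_EIN
theorem t_S4 : S4_stmt := S4 t_EIN t_FNS t_NB t_DEG t_IN1 t_CRI t_T4
theorem t_T5 : T5_stmt := T5 t_CHK t_TRN t_EXS
theorem t_S5 : S5_stmt := S5 t_CR2 t_T5 t_CNT t_DEG t_L3 t_L4
theorem t_SPC : SPC_stmt := SPC t_FNS
theorem t_SPS : SPS_stmt := SPS t_GEN t_CHS
theorem t_QIC : QIC_stmt := QIC t_FNS t_NB
theorem t_QIS : QIS_stmt := QIS t_GEN t_DIS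
theorem t_MAIN : MAIN_stmt := MAIN t_S1 t_S2 t_S3 t_S4 t_S5 t_SPC t_SPS t_QIC t_QIS
theorem t_ORD : ORD_stmt := ORD
theorem t_PAR : PAR_stmt := PAR
theorem t_TRE : TRE_stmt := TRE

/-- the theorem for layers -/
theorem t_LY : ∀ (V : Type) [Fintype V] (T : Fin 3 → SimpleGraph V) (x : V) (k : ℕ) (R : ℕ → Set V),
    (∀ i, (T i).IsTree) → (∀ i j, i ≠ j → Disjoint (T i).edgeSet (T j).edgeSet) →
    R 0 = {x} → R k = Set.univ → (∀ i < k, R i ⊆ R (i + 1)) →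
    (∀ i < k, ∀ j, ((T j).induce (R i)).Connected) →
    (∀ i < k, ∀ v ∈ R (i + 1), v ∉ R i → ∃ u ∈ R i, ∃ j, (T j).Adj v u) → Ordering T :=
  fun V _ T x k R hT hd h0 hk hsub hcon hdom =>
    LY t_EIN t_PAR t_SPS t_MAIN t_ORD t_TRE V T x k R hT hd h0 hk hsub hcon hdom

end

end Pool.Agent.KU
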