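import Pool.Agent.helper18.KU.Spec

/-!
# ku:F2
-/

set_option autoImplicit false

namespace Pool.Agent.KU

open Finset

noncomputable section

theorem F2 (hEIN : EIN_stmt) (hF1 : F1_stmt) : F2_stmt := by
  intro V _ S X w hC hI h5 v hv hvc a ha b hb hva hvb hab h2 h1
  obtain ⟨-, -, -, -, -, e6, -, -, -⟩ := hEIN V w hC.sy
  rintro (h | ⟨Q, hQ, haQ, hbQ⟩)
  · have hsub : ({v, a, b} : Finset V) ⊆ S := by
      intro x hx
      simp only [mem_insert, mem_singleton] at hx
      rcases hx with rfl | rfl | rfl
      · exact hv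
      · exact ha
      · exact hb
    have hc : ({v, a, b} : Finset V).card = 3 := card_eq_three.2 ⟨v, a, b, hva, hvb, hab, rfl⟩
    have h3 := hC.v {v, a, b} hsub (by omega)
    have h4 := e6 v a b hva hvb hab
    refine hvc {v, a, b} ⟨hsub, hc, ?_⟩ (mem_insert_self v _)
    omega
  · have h3 := hF1 V S X w hC hI h5 Q hQ v hv (hvc Q hQ)
    have h4 := hC.root v hv
    have h6 : w v a + w v b ≤ dg w Q v := by
      unfold dg
      rw [← sum_pair (f := fun u => w v u) hab]
      refine sum_le_sum_of_subset ?_
      intro x hx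
      simp only [mem_insert, mem_singleton] at hx
      rcases hx with rfl | rfl
      · exact haQ
      · exact hbQ
    omega

end

end Pool.Agent.KU
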