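import Pool.Agent.helper6.KU.KUM

/-!
Project ku (MP_974a61_co): from static orders to cyclic orderings (adapted from `Pool/Agent/helper6/KU/KUM.lean`).
-/

set_option autoImplicit false

namespace Pool.Agent.KU

open Finset

noncomputable section

open Classical in
/-- the number of trees containing the edge `uv` -/
def aw {V : Type} (T : Fin 3 → SimpleGraph V) (u v : V) : ℕ := (univ.filter fun i => (T i).Adj u v).card

open Classical in
theorem aw_pos {V : Type} (T : Fin 3 → SimpleGraph V) (u v : V) : 0 < aw T u v ↔ ∃ i, (T i).Adj u v := by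
  unfold aw
  rw [card_pos]
  constructor
  · rintro ⟨i, hi⟩
    exact ⟨i, (mem_filter.1 hi).2⟩
  · rintro ⟨i, hi⟩
    exact ⟨i, mem_filter.2 ⟨mem_univ i, hi⟩⟩

/-- the wanted cyclic ordering -/
def Ordering {V : Type} [Fintype V] (T : Fin 3 → SimpleGraph V) : Prop :=
  ∃ e : Fin (3 * (Fintype.card V - 1)) → Sym2 V, Function.Injective e ∧
    (∀ z, (∃ j, e j = z) ↔ ∃ i, z ∈ (T i).edgeSet) ∧
    ∀ j, (SimpleGraph.fromEdgeSet {z | ∃ i < Fintype.card V - 1, z = cyc e j i}).IsTree

theorem LB (hORD : ORD_stmt) (hTRE : TRE_stmt) (V : Type) [Fintype V] [DecidableEq V]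
    (T : Fin 3 → SimpleGraph V) (x : V) (hw1 : ∀ u v, aw T u v ≤ 1)
    (hSt : St (univ.erase x) (fun v => aw T v x) (aw T)) : Ordering T := by
  classical
  obtain ⟨e0, h, hinj, hran, hmem, hcX, hcw, hac⟩ := hORD V _ _ _ hSt
  unfold Ordering
  have hcard : (univ.erase x : Finset V).card = Fintype.card V - 1 := by
    rw [card_erase_of_mem (mem_univ x), card_univ]
  rw [← hcard]
  generalize hmdef : (univ.erase x : Finset V).card = m at e0 hinj hran hac ⊢
  have hS : ∀ v, v ∈ (univ.erase x : Finset V) ↔ v ≠ x := fun v => by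
    rw [mem_erase]
    exact ⟨fun hv => hv.1, fun hv => ⟨hv, mem_univ v⟩⟩
  have he0 : ∀ i, e0 i ≠ x := fun i => (hS _).1 ((hran _).2 ⟨i, rfl⟩)
  -- slots
  have hnone : ∀ v, v ≠ x → ∀ k k', h v k = none → h v k' = none → k = k' := by
    intro v hv k k' hk hk'
    have h1 : (univ.filter fun k => h v k = none).card ≤ 1 := by
      rw [hcX v ((hS v).2 hv)]
      exact hw1 v x
    rw [card_le_one] at h1
    exact h1 k (mem_filter.2 ⟨mem_univ _, hk⟩) k' (mem_filter.2 ⟨mem_univ _, hk'⟩)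
  have hsum : ∀ u v, u ≠ x → v ≠ x → u ≠ v → 
      (univ.filter fun k => h u k = some v).card + (univ.filter fun k => h v k = some u).card ≤ 1 := by
    intro u v hu hv huv
    rw [hcw u ((hS u).2 hu) v ((hS v).2 hv) huv]
    exact hw1 u v
  have hsome : ∀ v, v ≠ x → ∀ k k' u, h v k = some u → h v k' = some u → k = k' := by
    intro v hv k k' u hk hk'
    obtain ⟨hu, huv⟩ := hmem v ((hS v).2 hv) k u hk
    have h1 := hsum v u hv ((hS u).1 hu) huv.symm
    have h2 : (univ.filter fun k => h v k = some u).card ≤ 1 := le_trans (Nat.le_add_right _ _) h1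
    rw [card_le_one] at h2
    exact h2 k (mem_filter.2 ⟨mem_univ _, hk⟩) k' (mem_filter.2 ⟨mem_univ _, hk'⟩)
  have hboth : ∀ u v, u ≠ x → v ≠ x → ∀ k k', h u k = some v → h v k' = some u → False := by
    intro u v hu hv k k' hk hk'
    have huv : u ≠ v := (hmem u ((hS u).2 hu) k v hk).2.symm
    have h1 := hsum u v hu hv huv
    have h2 : 0 < (univ.filter fun k => h u k = some v).card :=
      card_pos.2 ⟨k, mem_filter.2 ⟨mem_univ _, hk⟩⟩
    have h3 : 0 < (univ.filter fun k => h v k = some u).card :=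
      card_pos.2 ⟨k', mem_filter.2 ⟨mem_univ _, hk'⟩⟩
    omega
  have hgx : ∀ v, v ≠ x → ∀ k, (h v k).getD x = x → h v k = none := by
    intro v hv k hk
    rcases hvk : h v k with _ | u
    · rfl
    · rw [hvk, Option.getD_some] at hk
      exact absurd hk ((hS u).1 (hmem v ((hS v).2 hv) k u hvk).1)
  have hgu : ∀ v, ∀ k u, u ≠ x → (h v k).getD x = u → h v k = some u := by
    intro v k u hu hk
    rcases hvk : h v k with _ | u'
    · rw [hvk, Option.getD_none] at hk
      exact absurd hk.symm hu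
    · rw [hvk, Option.getD_some] at hk
      rw [hk]
  have hpos : ∀ j : Fin (3 * m), 0 < m := fun j => by
    have := j.2
    omega
  let e : Fin (3 * m) → Sym2 V := fun j =>
    s(e0 ⟨(j : ℕ) % m, Nat.mod_lt _ (hpos j)⟩,
      (h (e0 ⟨(j : ℕ) % m, Nat.mod_lt _ (hpos j)⟩) (((j : ℕ) / m : ℕ) : ZMod 3)).getD x)
  have hedef : ∀ (j : Fin (3 * m)) (i : Fin m) (k : ZMod 3), (j : ℕ) % m = i →
      (((j : ℕ) / m : ℕ) : ZMod 3) = k → e j = s(e0 i, (h (e0 i) k).getD x) := by
    intro j i k hi hk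
    have h1 : (⟨(j : ℕ) % m, Nat.mod_lt _ (hpos j)⟩ : Fin m) = i := Fin.ext hi
    show s(e0 ⟨(j : ℕ) % m, Nat.mod_lt _ (hpos j)⟩,
      (h (e0 ⟨(j : ℕ) % m, Nat.mod_lt _ (hpos j)⟩) (((j : ℕ) / m : ℕ) : ZMod 3)).getD x) = _
    rw [h1, hk]
  refine ⟨e, ?_, ?_, ?_⟩
  · -- injective
    intro j j' hjj
    have hjj' : s(e0 ⟨(j : ℕ) % m, Nat.mod_lt _ (hpos j)⟩,
      (h (e0 ⟨(j : ℕ) % m, Nat.mod_lt _ (hpos j)⟩) (((j : ℕ) / m : ℕ) : ZMod 3)).getD x) =
      s(e0 ⟨(j' : ℕ) % m, Nat.mod_lt _ (hpos j')⟩,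
      (h (e0 ⟨(j' : ℕ) % m, Nat.mod_lt _ (hpos j')⟩) (((j' : ℕ) / m : ℕ) : ZMod 3)).getD x) := hjj
    rw [Sym2.eq_iff] at hjj'
    rcases hjj' with ⟨h1, h2⟩ | ⟨h1, h2⟩
    · have h3 : (j : ℕ) % m = (j' : ℕ) % m := by
        have := hinj h1
        exact congrArg Fin.val this
      rw [← h1] at h2
      have h4 : (((j : ℕ) / m : ℕ) : ZMod 3) = (((j' : ℕ) / m : ℕ) : ZMod 3) := by
        by_cases hx : (h (e0 ⟨(j : ℕ) % m, Nat.mod_lt _ (hpos j)⟩) (((j : ℕ) / m : ℕ) : ZMod 3)).getD x = x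
        · exact hnone _ (he0 _) _ _ (hgx _ (he0 _) _ hx) (hgx _ (he0 _) _ (h2 ▸ hx))
        · exact hsome _ (he0 _) _ _ _ (hgu _ _ _ hx rfl) (hgu _ _ _ hx h2.symm)
      have h5 : (j : ℕ) / m < 3 := Nat.div_lt_of_lt_mul (by have := j.2; omega)
      have h6 : (j' : ℕ) / m < 3 := Nat.div_lt_of_lt_mul (by have := j'.2; omega)
      have h7 : (j : ℕ) / m = (j' : ℕ) / m := by
        rw [ZMod.natCast_eq_natCast_iff] at h4
        have := h4
        rw [Nat.ModEq, Nat.mod_eq_of_lt h5, Nat.mod_eq_of_lt h6] at this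
        exact this
      apply Fin.ext
      rw [← Nat.div_add_mod (j : ℕ) m, ← Nat.div_add_mod (j' : ℕ) m, h3, h7]
    · exact (hboth _ _ (he0 _) (he0 _) _ _ (hgu _ _ _ (he0 _) h2) (hgu _ _ _ (he0 _) h1.symm)).elim
  · -- range
    intro z
    constructor
    · rintro ⟨j, rfl⟩
      obtain ⟨i, hi⟩ : ∃ i : Fin m, (j : ℕ) % m = i := ⟨⟨(j : ℕ) % m, Nat.mod_lt _ (hpos j)⟩, rfl⟩
      rw [hedef j i _ hi rfl]
      rcases hk : h (e0 i) (((j : ℕ) / m : ℕ) : ZMod 3) with _ | u
      · rw [Option.getD_none]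
        have h2 : 0 < (univ.filter fun k => h (e0 i) k = none).card :=
          card_pos.2 ⟨_, mem_filter.2 ⟨mem_univ _, hk⟩⟩
        rw [hcX (e0 i) ((hS _).2 (he0 i))] at h2
        obtain ⟨a, ha⟩ := (aw_pos T _ _).1 h2
        exact ⟨a, (SimpleGraph.mem_edgeSet _).2 ha⟩
      · rw [Option.getD_some]
        obtain ⟨hu, hue⟩ := hmem (e0 i) ((hS _).2 (he0 i)) _ u hk
        have h1 := hcw (e0 i) ((hS _).2 (he0 i)) u hu hue.symm
        have h2 : 0 < (univ.filter fun k => h (e0 i) k = some u).card :=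
          card_pos.2 ⟨_, mem_filter.2 ⟨mem_univ _, hk⟩⟩
        have h3 : 0 < aw T (e0 i) u := by omega
        obtain ⟨a, ha⟩ := (aw_pos T _ _).1 h3
        exact ⟨a, (SimpleGraph.mem_edgeSet _).2 ha⟩
    · rintro ⟨a, ha⟩
      induction z using Sym2.ind with
      | _ u v =>
        rw [SimpleGraph.mem_edgeSet] at ha
        -- an edge to the root
        have hroot : ∀ v, v ≠ x → (T a).Adj v x → ∃ j, e j = s(v, x) := by
          intro v hv hvx
          obtain ⟨i, hi⟩ := (hran v).1 ((hS v).2 hv)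
          have h1 : 0 < (univ.filter fun k => h v k = none).card := by
            rw [hcX v ((hS v).2 hv)]
            exact (aw_pos T _ _).2 ⟨a, hvx⟩
          obtain ⟨k, h2⟩ := card_pos.1 h1
          obtain ⟨j, hj1, hj2⟩ := KUM_code m i k
          refine ⟨j, ?_⟩
          rw [hedef j i k hj1 hj2, hi, (mem_filter.1 h2).2, Option.getD_none]
        have hslot : ∀ u v k, u ≠ x → h u k = some v → ∃ j, e j = s(u, v) := by
          intro u v k hu hk
          obtain ⟨i, hi⟩ := (hran u).1 ((hS u).2 hu)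
          obtain ⟨j, hj1, hj2⟩ := KUM_code m i k
          refine ⟨j, ?_⟩
          rw [hedef j i k hj1 hj2, hi, hk, Option.getD_some]
        by_cases hu : u = x
        · subst hu
          rw [Sym2.eq_swap]
          exact hroot v ha.ne' ha.symm
        · by_cases hv : v = x
          · subst hv
            exact hroot u hu ha
          · have h1 := hcw u ((hS u).2 hu) v ((hS v).2 hv) ha.ne
            have h2 : 0 < (univ.filter fun k => h u k = some v).card +
                (univ.filter fun k => h v k = some u).card := by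
              rw [h1]
              exact (aw_pos T _ _).2 ⟨a, ha⟩
            rcases Nat.eq_zero_or_pos (univ.filter fun k => h u k = some v).card with h3 | h3
            · rw [h3, zero_add] at h2
              obtain ⟨k, hk⟩ := card_pos.1 h2
              rw [Sym2.eq_swap]
              exact hslot v u k hv (mem_filter.1 hk).2
            · obtain ⟨k, hk⟩ := card_pos.1 h3
              exact hslot u v k hu (mem_filter.1 hk).2
  · -- windows
    intro j
    have hm := hpos j
    have : Nonempty (Fin m) := ⟨⟨0, hm⟩⟩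
    obtain ⟨ρ, hρ⟩ := hac (((j : ℕ) / m : ℕ) : ZMod 3) ((j : ℕ) % m) (Nat.mod_lt _ hm).le
    have hlinv := Function.leftInverse_invFun hinj
    let o : V → Option V := fun v =>
      if ((Function.invFun e0 v : Fin m) : ℕ) < (j : ℕ) % m then h v ((((j : ℕ) / m : ℕ) : ZMod 3) + 1)
      else h v (((j : ℕ) / m : ℕ) : ZMod 3)
    have ho : ∀ i : Fin m, o (e0 i) = if (i : ℕ) < (j : ℕ) % m then h (e0 i) ((((j : ℕ) / m : ℕ) : ZMod 3) + 1)
      else h (e0 i) (((j : ℕ) / m : ℕ) : ZMod 3) := by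
      intro i
      show (if ((Function.invFun e0 (e0 i) : Fin m) : ℕ) < (j : ℕ) % m then _ else _) = _
      rw [hlinv i]
    have hmem' : ∀ v, v ≠ x → ∀ u, o v = some u → u ≠ x := by
      intro v hv u hu
      by_cases hc : ((Function.invFun e0 v : Fin m) : ℕ) < (j : ℕ) % m
      · have hu' : (if ((Function.invFun e0 v : Fin m) : ℕ) < (j : ℕ) % m then h v ((((j : ℕ) / m : ℕ) : ZMod 3) + 1)
          else h v (((j : ℕ) / m : ℕ) : ZMod 3)) = some u := hu
        rw [if_pos hc] at hu'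
        exact (hS u).1 (hmem v ((hS v).2 hv) _ u hu').1
      · have hu' : (if ((Function.invFun e0 v : Fin m) : ℕ) < (j : ℕ) % m then h v ((((j : ℕ) / m : ℕ) : ZMod 3) + 1)
          else h v (((j : ℕ) / m : ℕ) : ZMod 3)) = some u := hu
        rw [if_neg hc] at hu'
        exact (hS u).1 (hmem v ((hS v).2 hv) _ u hu').1
    have htree := hTRE V x (fun v => (o v).getD x) (fun v => if v = x then 0 else ρ v + 1) (by
      intro v hv
      rw [if_neg hv]
      rcases hov : o v with _ | u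
      · rw [Option.getD_none, if_pos rfl]
        exact Nat.succ_pos _
      · rw [Option.getD_some, if_neg (hmem' v hv u hov)]
        obtain ⟨i, rfl⟩ := (hran v).1 ((hS v).2 hv)
        rw [ho i] at hov
        exact Nat.succ_lt_succ (hρ i u hov))
    have hset : {z | ∃ i < m, z = cyc e j i} = {z | ∃ v, v ≠ x ∧ z = s(v, (o v).getD x)} := by
      have hcyc : ∀ i < m, ∀ a : Fin m, ((j : ℕ) % m + i) % m = a →
          cyc e j i = s(e0 a, (o (e0 a)).getD x) := by
        intro i hi a ha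
        obtain ⟨h1, h2⟩ := KUM_arith m j i hm hi
        have h3 : cyc e j i = e ⟨((j : ℕ) + i) % (3 * m), Nat.mod_lt _ j.pos⟩ := rfl
        rw [h3, hedef _ a _ (h1.trans ha) rfl, ho a]
        show s(e0 a, (h (e0 a) ((((j : ℕ) + i) % (3 * m) / m : ℕ) : ZMod 3)).getD x) = _
        rw [h2, ha]
        split_ifs <;> rfl
      ext z
      constructor
      · rintro ⟨i, hi, rfl⟩
        refine ⟨e0 ⟨((j : ℕ) % m + i) % m, Nat.mod_lt _ hm⟩, he0 _, ?_⟩
        exact hcyc i hi _ rfl
      · rintro ⟨v, hv, rfl⟩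
        obtain ⟨a, rfl⟩ := (hran v).1 ((hS v).2 hv)
        obtain ⟨i, hi, hia⟩ := KUM_surj m ((j : ℕ) % m) (Nat.mod_lt _ hm) a a.2
        exact ⟨i, hi, (hcyc i hi a hia).symm⟩
    rw [hset]
    exact htree

end

end Pool.Agent.KU
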