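import Pool.Agent.helper18.KU.LB

/-!
Project ku (MP_974a61_co): layers.
-/

set_option autoImplicit false

namespace Pool.Agent.KU

open Finset

noncomputable section

theorem aw_sy {V : Type} (T : Fin 3 → SimpleGraph V) : Sy (aw T) := by
  classical
  constructor
  · intro u v
    unfold aw
    simp only [SimpleGraph.adj_comm]
  · intro v
    unfold aw
    simp

open Classical in
theorem aw_le {V : Type} (T : Fin 3 → SimpleGraph V)
    (hd : ∀ i j, i ≠ j → Disjoint (T i).edgeSet (T j).edgeSet) (u v : V) : aw T u v ≤ 1 := by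
  unfold aw
  rw [Finset.card_le_one]
  intro i hi j hj
  rw [mem_filter] at hi hj
  by_contra hij
  exact Set.disjoint_left.mp (hd i j hij) ((SimpleGraph.mem_edgeSet _).2 hi.2)
    ((SimpleGraph.mem_edgeSet _).2 hj.2)

open Classical in
/-- the number of edges of a tree inside `U` -/
theorem LY_le (hPAR : PAR_stmt) {V : Type} [Fintype V] (G : SimpleGraph V) (hG : G.IsTree)
    (U : Finset V) (hU : U.Nonempty) :
    ∑ u ∈ U, ∑ v ∈ U, (if G.Adj u v then 1 else 0 : ℕ) ≤ 2 * (U.card - 1) := by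
  obtain ⟨r, hr⟩ := hU
  obtain ⟨p, h1, h2, h3⟩ := hPAR V G r hG
  have e1 : ∀ u ∈ U, ∀ v ∈ U, (if G.Adj u v then 1 else 0 : ℕ) ≤
      (if u ≠ r ∧ p u = v then 1 else 0) + (if v ≠ r ∧ p v = u then 1 else 0) := by
    intro u _ v _
    by_cases hA : G.Adj u v
    · rw [if_pos hA]
      rcases h2 u v hA with h | h
      · rw [if_pos h]
        omega
      · rw [if_pos h]
        omega
    · rw [if_neg hA]
      omega
  have e3 : ∑ u ∈ U, ∑ v ∈ U, (if u ≠ r ∧ p u = v then 1 else 0 : ℕ) ≤ U.card - 1 := by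
    calc ∑ u ∈ U, ∑ v ∈ U, (if u ≠ r ∧ p u = v then 1 else 0 : ℕ)
        ≤ ∑ u ∈ U, (if u ≠ r then 1 else 0 : ℕ) := by
          refine sum_le_sum fun u _ => ?_
          by_cases hur : u = r
          · simp [hur]
          · rw [if_pos hur]
            have : ∀ v ∈ U, (if u ≠ r ∧ p u = v then 1 else 0 : ℕ) = if p u = v then 1 else 0 := by
              intro v _
              simp [hur]
            rw [sum_congr rfl this, sum_ite_eq]
            split_ifs <;> omega
      _ = U.card - 1 := by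
          rw [← card_filter, filter_ne', card_erase_of_mem hr]
  have e4 : ∑ u ∈ U, ∑ v ∈ U, (if v ≠ r ∧ p v = u then 1 else 0 : ℕ) ≤ U.card - 1 := by
    rw [sum_comm]
    exact e3
  calc ∑ u ∈ U, ∑ v ∈ U, (if G.Adj u v then 1 else 0 : ℕ)
      ≤ ∑ u ∈ U, ∑ v ∈ U, ((if u ≠ r ∧ p u = v then 1 else 0) + (if v ≠ r ∧ p v = u then 1 else 0)) :=
        sum_le_sum fun u hu => sum_le_sum fun v hv => e1 u hu v hv
    _ = ∑ u ∈ U, ∑ v ∈ U, (if u ≠ r ∧ p u = v then 1 else 0 : ℕ) +
        ∑ u ∈ U, ∑ v ∈ U, (if v ≠ r ∧ p v = u then 1 else 0 : ℕ) := by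
        simp_rw [sum_add_distrib]
    _ ≤ 2 * (U.card - 1) := by omega

open Classical in
theorem LY_tree {V : Type} [Fintype V] (G : SimpleGraph V) (hG : G.IsTree) :
    ∑ u : V, ∑ v : V, (if G.Adj u v then 1 else 0 : ℕ) = 2 * (Fintype.card V - 1) := by
  have h1 := G.sum_degrees_eq_twice_card_edges
  have h2 := hG.card_edgeFinset
  have h3 : ∀ u : V, ∑ v : V, (if G.Adj u v then 1 else 0 : ℕ) = G.degree u := by
    intro u
    rw [← card_filter, ← SimpleGraph.card_neighborFinset_eq_degree]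
    congr 1
    ext v
    simp
  rw [sum_congr rfl fun u _ => h3 u, h1]
  omega

open Classical in
theorem LY_eq {V : Type} [Fintype V] (G : SimpleGraph V) (hG : G.IsTree)
    (U : Finset V) (hU : (G.induce (U : Set V)).Connected) :
    ∑ u ∈ U, ∑ v ∈ U, (if G.Adj u v then 1 else 0 : ℕ) = 2 * (U.card - 1) := by
  have h1 : (G.induce (U : Set V)).IsTree := ⟨hU, hG.isAcyclic.induce _⟩
  have h2 := LY_tree _ h1
  have h3 : Fintype.card (U : Set V) = U.card := by simp
  rw [h3] at h2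
  rw [← h2, ← sum_coe_sort U]
  refine sum_congr rfl fun u _ => ?_
  rw [← sum_coe_sort U]
  rfl

open Classical in
theorem LY_E (hEIN : EIN_stmt) {V : Type} [Fintype V] (T : Fin 3 → SimpleGraph V) (U : Finset V) :
    2 * E (aw T) U = ∑ i, ∑ u ∈ U, ∑ v ∈ U, (if (T i).Adj u v then 1 else 0 : ℕ) := by
  rw [(hEIN V _ (aw_sy T)).1 U]
  unfold aw
  simp_rw [card_filter]
  calc ∑ u ∈ U, ∑ v ∈ U, ∑ i, (if (T i).Adj u v then 1 else 0 : ℕ)
      = ∑ u ∈ U, ∑ i, ∑ v ∈ U, (if (T i).Adj u v then 1 else 0 : ℕ) :=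
        sum_congr rfl fun u _ => sum_comm
    _ = _ := sum_comm

theorem LY_E_le (hEIN : EIN_stmt) (hPAR : PAR_stmt) {V : Type} [Fintype V] [DecidableEq V]
    (T : Fin 3 → SimpleGraph V) (hT : ∀ i, (T i).IsTree) (U : Finset V) (hU : U.Nonempty) :
    E (aw T) U ≤ 3 * (U.card - 1) := by
  classical
  have h1 := LY_E hEIN T U
  have h2 : ∑ i, ∑ u ∈ U, ∑ v ∈ U, (if (T i).Adj u v then 1 else 0 : ℕ) ≤ ∑ _i : Fin 3, 2 * (U.card - 1) :=
    sum_le_sum fun i _ => LY_le hPAR (T i) (hT i) U hU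
  rw [sum_const, card_univ, Fintype.card_fin, smul_eq_mul] at h2
  omega

theorem LY_E_eq (hEIN : EIN_stmt) {V : Type} [Fintype V] [DecidableEq V]
    (T : Fin 3 → SimpleGraph V) (hT : ∀ i, (T i).IsTree) (U : Finset V)
    (hU : ∀ i, ((T i).induce (U : Set V)).Connected) :
    E (aw T) U = 3 * (U.card - 1) := by
  classical
  have h1 := LY_E hEIN T U
  have h2 : ∑ i, ∑ u ∈ U, ∑ v ∈ U, (if (T i).Adj u v then 1 else 0 : ℕ) = ∑ _i : Fin 3, 2 * (U.card - 1) :=
    sum_congr rfl fun i _ => LY_eq (T i) (hT i) U (hU i)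
  rw [sum_const, card_univ, Fintype.card_fin, smul_eq_mul] at h2
  omega

theorem LY_E_univ (hEIN : EIN_stmt) {V : Type} [Fintype V] [DecidableEq V]
    (T : Fin 3 → SimpleGraph V) (hT : ∀ i, (T i).IsTree) :
    E (aw T) univ = 3 * ((univ : Finset V).card - 1) := by
  classical
  have h1 := LY_E hEIN T univ
  have h2 : ∑ i, ∑ u, ∑ v, (if (T i).Adj u v then 1 else 0 : ℕ) = ∑ _i : Fin 3, 2 * (Fintype.card V - 1) :=
    sum_congr rfl fun i _ => LY_tree (T i) (hT i)
  rw [sum_const, card_univ, Fintype.card_fin, smul_eq_mul] at h2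
  rw [card_univ]
  omega

/-- the multigraph of a layer -/
theorem LY_cone (hEIN : EIN_stmt) (hPAR : PAR_stmt) {V : Type} [Fintype V] [DecidableEq V]
    (T : Fin 3 → SimpleGraph V) (hT : ∀ i, (T i).IsTree) (hw : ∀ u v, aw T u v ≤ 1)
    (R R' : Finset V) (hR : R.Nonempty) (hRR : R ⊆ R') (h1 : E (aw T) R = 3 * (R.card - 1))
    (h2 : E (aw T) R' = 3 * (R'.card - 1)) (hdom : ∀ v ∈ R', v ∉ R → ∃ u ∈ R, ∃ i, (T i).Adj v u) :
    Cone (R' \ R) (fun v => dg (aw T) R v) (aw T) := by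
  obtain ⟨e1, e2, e3, e4, e5, e6, e7, e8, e9⟩ := hEIN V _ (aw_sy T)
  have hRc : 0 < R.card := card_pos.2 hR
  have hdisj : ∀ U ⊆ R' \ R, Disjoint U R := by
    intro U hU
    rw [disjoint_left]
    intro v hv
    exact (mem_sdiff.1 (hU hv)).2
  have hE : ∀ U ⊆ R' \ R, (E (aw T) (U ∪ R) : ℤ) = E (aw T) U + E (aw T) R + ∑ v ∈ U, (dg (aw T) R v : ℤ) := by
    intro U hU
    rw [e7 U R (hdisj U hU)]
    push_cast
    ring
  have hroot : ∀ v ∈ R' \ R, 1 ≤ dg (aw T) R v := by
    intro v hv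
    rw [mem_sdiff] at hv
    obtain ⟨u, hu, i, hi⟩ := hdom v hv.1 hv.2
    have h3 : 0 < aw T v u := (aw_pos T v u).2 ⟨i, hi⟩
    unfold dg
    exact le_trans h3 (single_le_sum (f := fun u => aw T v u) (fun _ _ => Nat.zero_le _) hu)
  have hiv : ∀ U ⊆ R' \ R, 0 ≤ f (fun v => dg (aw T) R v) (aw T) U := by
    intro U hU
    have h3 := LY_E_le hEIN hPAR T hT (U ∪ R) (hR.mono subset_union_right)
    have h4 := hE U hU
    have h5 : (U ∪ R).card = U.card + R.card := card_union_of_disjoint (hdisj U hU)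
    rw [h5] at h3
    simp only [f]
    omega
  refine ⟨aw_sy T, hroot, ?_, hiv, ?_⟩
  · have h4 := hE (R' \ R) (Subset.refl _)
    have h5 : (R' \ R) ∪ R = R' := sdiff_union_of_subset hRR
    have h6 : (R' \ R).card = R'.card - R.card := card_sdiff_of_subset hRR
    have h7 : R.card ≤ R'.card := card_le_card hRR
    rw [h5, h2] at h4
    simp only [f]
    omega
  · intro U hU hc
    rcases Nat.lt_or_ge U.card 4 with hlt | hge
    · rcases (by omega : U.card = 2 ∨ U.card = 3) with hc2 | hc3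
      · obtain ⟨a, b, hab, rfl⟩ := card_eq_two.1 hc2
        rw [e5 a b hab, hc2]
        have := hw a b
        omega
      · obtain ⟨a, b, c, hab, hac, hbc, rfl⟩ := card_eq_three.1 hc3
        rw [e6 a b c hab hac hbc, hc3]
        have := hw a b
        have := hw a c
        have := hw b c
        omega
    · have h3 := hiv U hU
      simp only [f] at h3
      have h4 : (U.card : ℤ) ≤ ∑ v ∈ U, (dg (aw T) R v : ℤ) := by
        rw [card_eq_sum_ones]
        push_cast
        exact sum_le_sum fun v hv => by exact_mod_cast hroot v (hU hv)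
      omega

theorem LY_step (hSPS : SPS_stmt) {V : Type} [DecidableEq V] (T : Fin 3 → SimpleGraph V)
    (R R' : Finset V) (x : V) (hx : x ∈ R) (hRR : R ⊆ R')
    (h1 : St (R.erase x) (fun v => aw T v x) (aw T))
    (h2 : St (R' \ R) (fun v => dg (aw T) R v) (aw T)) :
    St (R'.erase x) (fun v => aw T v x) (aw T) := by
  have h3 : R'.erase x \ R.erase x = R' \ R := by
    ext v
    simp only [mem_sdiff, mem_erase, not_and]
    constructor
    · rintro ⟨⟨h4, h5⟩, h6⟩
      exact ⟨h5, h6 h4⟩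
    · rintro ⟨h4, h5⟩
      exact ⟨⟨fun h => h5 (h ▸ hx), h4⟩, fun _ => h5⟩
  refine hSPS V (R'.erase x) (R.erase x) _ _ (aw_sy T) (erase_subset_erase x hRR) h1 ?_
  rw [h3]
  have h4 : (fun v => aw T v x + dg (aw T) (R.erase x) v) = fun v => dg (aw T) R v := by
    funext v
    unfold dg
    rw [← sum_erase_add R _ hx, add_comm]
  rw [h4]
  exact h2

theorem LY_zero {V : Type} [DecidableEq V] (X : V → ℕ) (w : V → V → ℕ) : St ∅ X w := by
  refine ⟨fun _ _ => none, fun _ => 0, ?_, ?_, ?_, ?_, ?_⟩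
  · simp
  · simp
  · simp
  · simp
  · intro t
    exact ⟨fun _ => 0, by simp⟩

/-- the theorem for layers -/
theorem LY (hEIN : EIN_stmt) (hPAR : PAR_stmt) (hSPS : SPS_stmt) (hMAIN : MAIN_stmt) (hORD : ORD_stmt)
    (hTRE : TRE_stmt) (V : Type) [Fintype V] (T : Fin 3 → SimpleGraph V) (x : V) (k : ℕ)
    (R : ℕ → Set V) (hT : ∀ i, (T i).IsTree)
    (hd : ∀ i j, i ≠ j → Disjoint (T i).edgeSet (T j).edgeSet)
    (h0 : R 0 = {x}) (hk : R k = Set.univ) (hsub : ∀ i < k, R i ⊆ R (i + 1))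
    (hcon : ∀ i < k, ∀ j, ((T j).induce (R i)).Connected)
    (hdom : ∀ i < k, ∀ v ∈ R (i + 1), v ∉ R i → ∃ u ∈ R i, ∃ j, (T j).Adj v u) : Ordering T := by
  classical
  have hw := aw_le T hd
  have huniv : (R k).toFinset = univ := by
    ext v
    simp [hk]
  have hmono : ∀ i ≤ k, x ∈ R i := by
    intro i
    induction i with
    | zero =>
      intro _
      rw [h0]
      rfl
    | succ i ih =>
      intro hi
      exact hsub i (by omega) (ih (by omega))
  have hE : ∀ i ≤ k, E (aw T) (R i).toFinset = 3 * ((R i).toFinset.card - 1) := by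
    intro i hi
    rcases Nat.lt_or_ge i k with hlt | hge
    · refine LY_E_eq hEIN T hT _ fun j => ?_
      rw [Set.coe_toFinset]
      exact hcon i hlt j
    · have hik : i = k := le_antisymm hi hge
      rw [hik, huniv]
      exact LY_E_univ hEIN T hT
  have main : ∀ i ≤ k, St ((R i).toFinset.erase x) (fun v => aw T v x) (aw T) := by
    intro i
    induction i with
    | zero =>
      intro _
      have h1 : (R 0).toFinset.erase x = ∅ := by
        ext v
        simp [h0]
      rw [h1]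
      exact LY_zero _ _
    | succ i ih =>
      intro hi
      have hxi : x ∈ (R i).toFinset := Set.mem_toFinset.2 (hmono i (by omega))
      have hRR : (R i).toFinset ⊆ (R (i + 1)).toFinset := Set.toFinset_subset_toFinset.2 (hsub i (by omega))
      refine LY_step hSPS T _ _ x hxi hRR (ih (by omega)) (hMAIN V _ _ _ ?_)
      refine LY_cone hEIN hPAR T hT hw _ _ ⟨x, hxi⟩ hRR (hE i (by omega)) (hE (i + 1) hi) ?_
      intro v hv hv'
      rw [Set.mem_toFinset] at hv hv'
      obtain ⟨u, hu, j, hj⟩ := hdom i (by omega) v hv hv'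
      exact ⟨u, Set.mem_toFinset.2 hu, j, hj⟩
  have h1 := main k le_rfl
  rw [huniv] at h1
  exact LB hORD hTRE V T x hw h1

end

end Pool.Agent.KU
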