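import Pool.Agent.helper18.KU.All

/-!
# Cyclic orderings of three edge-disjoint spanning trees, dominating layers

MP_974a61_co, a case of the conjecture of Kajitani, Ueno and Miyano for three spanning trees. Let `T 0, T 1, T 2` be pairwise edge-disjoint spanning trees on the
finite vertex set `V`, `n = |V|`, and let `{x} = R 0 ⊆ R 1 ⊆ ... ⊆ R k = V` be sets of vertices such that every tree is connected on every `R i`, `i < k`, and every vertex of `R (i + 1)` outside of `R i` has a
neighbour in `R i`, in one of the trees. Then the `3 (n - 1)` edges have a cyclic ordering in which any `n - 1` cyclically consecutive edges form a spanning tree.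
For `k = 1` the hypothesis says that `x` is adjacent to all other vertices in the union of the trees.
-/

set_option autoImplicit false

namespace Pool.Agent.Results.MP_974a61_co.LayeredOrdering

/-- the `i`-th element after the `j`-th one in the cyclic ordering `e` of `N` elements: `e ((j + i) mod N)` -/
def cyc {N : ℕ} {α : Type} (e : Fin N → α) (j : Fin N) (i : ℕ) : α := e ⟨(j.1 + i) % N, Nat.mod_lt _ j.pos⟩

theorem result : ∀ (V : Type) [Fintype V] (T : Fin 3 → SimpleGraph V) (x : V) (k : ℕ) (R : ℕ → Set V),
    (∀ i, (T i).IsTree) → (∀ i j, i ≠ j → Disjoint (T i).edgeSet (T j).edgeSet) →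
    R 0 = {x} → R k = Set.univ → (∀ i < k, R i ⊆ R (i + 1)) →
    (∀ i < k, ∀ j, ((T j).induce (R i)).Connected) →
    (∀ i < k, ∀ v ∈ R (i + 1), v ∉ R i → ∃ u ∈ R i, ∃ j, (T j).Adj v u) →
    ∃ e : Fin (3 * (Fintype.card V - 1)) → Sym2 V, Function.Injective e ∧
      (∀ z, (∃ j, e j = z) ↔ ∃ i, z ∈ (T i).edgeSet) ∧
      ∀ j, (SimpleGraph.fromEdgeSet {z | ∃ i < Fintype.card V - 1, z = cyc e j i}).IsTree :=
  fun V _ T x k R hT hd h0 hk hsub hcon hdom => KU.t_LY V T x k R hT hd h0 hk hsub hcon hdom

end Pool.Agent.Results.MP_974a61_co.LayeredOrdering
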