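import Mathlib

/-!
# Project ku (rows ku:XX of problem MP_974a61_co): cyclic orderings of three edge-disjoint spanning trees whose union has a dominating vertex

Theorem (`KUM_stmt`): if the union of three pairwise edge-disjoint spanning trees of a simple graph has a vertex `x` adjacent to all other vertices, then its edges have a cyclic ordering
in which any `n - 1` cyclically consecutive edges form a spanning tree.

The idea. A multigraph on `S` and the root `x`: `w u v` edges between `u, v ∈ S`, `X v` edges from `v` to the root. A STATIC ORDER: every `v ∈ S` has three slots `h v k`, `k ∈ ZMod 3` (pointers to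
other vertices, `none` is the root), all edges are slots, and a phase `φ v`; at the time `t` the active slot of `v` is `⌊t - φ v⌋` modulo 3; at every time the active slots form a tree oriented to the root.
Then the slots ordered by their starting times `φ v + k` modulo 3 are the wanted cyclic ordering. Existence by induction on `|S|` for the class `Cone`: split at tight sets (SPS), split at almost
tight sets with two leaving edges (QIS), insertion of vertices of degree 4 and 5 (IN1, IN2, IN3), and small cases (T3, T4, T5).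

Rules: every `XX_stmt` is proved in `Pool/Agent/<seat>/KU/XX.lean`: `import Pool.Agent.helper18.KU.Spec`, `set_option autoImplicit false`, `namespace Pool.Agent.KU`, `open Finset`,
`noncomputable section`, `theorem XX (h : YY_stmt) ... : XX_stmt`; hypotheses: any other statement of this file, not circularly. Auxiliary lemmas are prefixed `XX_`.
No sorry, no straight double quotes, no `congr!`, no `convert`. If a statement is false or awkward, tell helper18 at once.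
-/

set_option autoImplicit false

namespace Pool.Agent.KU

open Finset

noncomputable section

section defs
variable {V : Type} [DecidableEq V]

/-- the number of edges inside `T` -/
def E (w : V → V → ℕ) (T : Finset V) : ℕ := (∑ u ∈ T, ∑ v ∈ T, w u v) / 2

/-- the number of edges from `v` to `T` -/
def dg (w : V → V → ℕ) (T : Finset V) (v : V) : ℕ := ∑ u ∈ T, w v u

/-- `w` is symmetric and vanishes on the diagonal -/
structure Sy (w : V → V → ℕ) : Prop where
  symm : ∀ u v, w u v = w v u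
  loop : ∀ v, w v v = 0

/-- the slack of `T` -/
def f (X : V → ℕ) (w : V → V → ℕ) (T : Finset V) : ℤ := 3 * (T.card : ℤ) - (E w T : ℤ) - ∑ v ∈ T, (X v : ℤ)

/-- the class of multigraphs: `w u v` edges between `u, v ∈ S`, `X v ≥ 1` edges from `v` to the root -/
structure Cone (S : Finset V) (X : V → ℕ) (w : V → V → ℕ) : Prop where
  sy : Sy w
  root : ∀ v ∈ S, 1 ≤ X v
  tot : f X w S = 0
  iv : ∀ T ⊆ S, 0 ≤ f X w T
  v : ∀ T ⊆ S, 2 ≤ T.card → E w T + 4 ≤ 3 * T.card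

/-- the active slot at the time `t` -/
def ptr (h : V → ZMod 3 → Option V) (φ : V → ℝ) (t : ℝ) (v : V) : Option V := h v ((⌊t - φ v⌋ : ℤ) : ZMod 3)

/-- the pointers `p` have no cycles on `S` -/
def Ac (S : Finset V) (p : V → Option V) : Prop := ∃ ρ : V → ℕ, ∀ v ∈ S, ∀ u, p v = some u → ρ u < ρ v

/-- a static order -/
structure Static (S : Finset V) (X : V → ℕ) (w : V → V → ℕ) (h : V → ZMod 3 → Option V) (φ : V → ℝ) : Prop where
  mem : ∀ v ∈ S, ∀ k u, h v k = some u → u ∈ S ∧ u ≠ v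
  cX : ∀ v ∈ S, (univ.filter fun k => h v k = none).card = X v
  cw : ∀ u ∈ S, ∀ v ∈ S, u ≠ v →
    (univ.filter fun k => h u k = some v).card + (univ.filter fun k => h v k = some u).card = w u v
  dist : ∀ u ∈ S, ∀ v ∈ S, u ≠ v → ∀ n : ℤ, φ u - φ v ≠ n
  ac : ∀ t, Ac S (ptr h φ t)

/-- there is a static order -/
def St (S : Finset V) (X : V → ℕ) (w : V → V → ℕ) : Prop := ∃ h φ, Static S X w h φ

/-- one more edge between `a` and `b` -/
def addE (w : V → V → ℕ) (a b u v : V) : ℕ := w u v + if (u = a ∧ v = b) ∨ (u = b ∧ v = a) then 1 else 0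

/-- one more edge from `c` to the root -/
def addX (X : V → ℕ) (c u : V) : ℕ := X u + if u = c then 1 else 0

/-- no tight sets, and no pairs of complementary almost tight sets -/
def Irr (S : Finset V) (X : V → ℕ) (w : V → V → ℕ) : Prop :=
  ∀ T ⊆ S, T.Nonempty → T ≠ S → 1 ≤ f X w T ∧ ¬ (f X w T = 1 ∧ f X w (S \ T) = 1)

/-- critical triples -/
def Crit (S : Finset V) (w : V → V → ℕ) (Q : Finset V) : Prop := Q ⊆ S ∧ Q.card = 3 ∧ E w Q = 5

/-- critical triples are pairwise disjoint -/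
def CrDj (S : Finset V) (w : V → V → ℕ) : Prop := ∀ Q Q', Crit S w Q → Crit S w Q' → Q ≠ Q' → Disjoint Q Q'

/-- the edge `ab` cannot be added -/
def Blk (S : Finset V) (w : V → V → ℕ) (a b : V) : Prop := w a b = 2 ∨ ∃ Q, Crit S w Q ∧ a ∈ Q ∧ b ∈ Q

/-- the induction hypothesis -/
def IH (S : Finset V) : Prop := ∀ (S' : Finset V) (X : V → ℕ) (w : V → V → ℕ), S'.card < S.card → Cone S' X w → St S' X w

end defs

/-! ## Counting -/

/-- EIN: `2 E(T) = ∑ ∑ w` (by induction on `T` with `Sy`), and its consequences. -/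
def EIN_stmt : Prop := ∀ (V : Type) [DecidableEq V] (w : V → V → ℕ), Sy w →
  (∀ T : Finset V, 2 * E w T = ∑ u ∈ T, ∑ v ∈ T, w u v) ∧
  E w ∅ = 0 ∧ (∀ v, E w {v} = 0) ∧
  (∀ (T : Finset V) (v : V), v ∉ T → E w (insert v T) = E w T + dg w T v) ∧
  (∀ a b, a ≠ b → E w {a, b} = w a b) ∧
  (∀ a b c, a ≠ b → a ≠ c → b ≠ c → E w {a, b, c} = w a b + w a c + w b c) ∧
  (∀ A B : Finset V, Disjoint A B → E w (A ∪ B) = E w A + E w B + ∑ u ∈ A, dg w B u) ∧
  (∀ A B : Finset V, A ⊆ B → E w A ≤ E w B) ∧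
  (∀ T : Finset V, ∑ v ∈ T, dg w T v = 2 * E w T)

/-- FNS: the slack: one more vertex, disjoint unions, supermodularity of `E` (the number of edges inside `A ∪ B` and inside `A ∩ B` is at least the number inside `A` plus the number inside `B`: compare the sums
over pairs: `1_A(u) 1_A(v) + 1_B(u) 1_B(v) ≤ 1_(A ∪ B)(u) 1_(A ∪ B)(v) + 1_(A ∩ B)(u) 1_(A ∩ B)(v)`), adding edges. Uses EIN. -/
def FNS_stmt : Prop := ∀ (V : Type) [DecidableEq V] (w : V → V → ℕ) (X : V → ℕ), Sy w →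
  f X w ∅ = 0 ∧ (∀ v, f X w {v} = 3 - X v) ∧
  (∀ (T : Finset V) (v : V), v ∉ T → f X w (insert v T) = f X w T + 3 - X v - dg w T v) ∧
  (∀ A B : Finset V, Disjoint A B → f X w (A ∪ B) = f X w A + f X w B - ∑ u ∈ A, (dg w B u : ℤ)) ∧
  (∀ A B : Finset V, f X w (A ∪ B) + f X w (A ∩ B) ≤ f X w A + f X w B) ∧
  (∀ a b, a ≠ b → Sy (addE w a b)) ∧
  (∀ (T : Finset V) (a b : V), a ≠ b → E (addE w a b) T = E w T + if a ∈ T ∧ b ∈ T then 1 else 0) ∧
  (∀ (T : Finset V) (a b : V), a ≠ b → f X (addE w a b) T = f X w T - if a ∈ T ∧ b ∈ T then 1 else 0) ∧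
  (∀ (T : Finset V) (c : V), f (addX X c) w T = f X w T - if c ∈ T then 1 else 0)

/-- NB: a sum of natural numbers equal to 2, 3, 4: take the multiset `∑ u ∈ T, replicate (g u) u`, of cardinality 2, 3, 4 (`Multiset.card_eq_three` and similar), `count u` of it is `g u`. -/
def NB_stmt : Prop := ∀ (V : Type) [DecidableEq V] (T : Finset V) (g : V → ℕ),
  (∑ u ∈ T, g u = 2 → ∃ a ∈ T, ∃ b ∈ T, ∀ u ∈ T, g u = (if u = a then 1 else 0) + (if u = b then 1 else 0)) ∧
  (∑ u ∈ T, g u = 3 → ∃ a ∈ T, ∃ b ∈ T, ∃ c ∈ T, ∀ u ∈ T, g u = (if u = a then 1 else 0) + (if u = b then 1 else 0) +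
    (if u = c then 1 else 0)) ∧
  (∑ u ∈ T, g u = 4 → ∃ a ∈ T, ∃ b ∈ T, ∃ c ∈ T, ∃ d ∈ T, ∀ u ∈ T, g u = (if u = a then 1 else 0) + (if u = b then 1 else 0) +
    (if u = c then 1 else 0) + (if u = d then 1 else 0))

/-! ## Times and pointers -/

/-- GEN: generic numbers. The set of the bad `s` is countable, the interval is not. -/
def GEN_stmt : Prop := ∀ (B : Finset ℝ) (a b : ℝ), a < b → ∃ s, a < s ∧ s < b ∧ ∀ y ∈ B, ∀ n : ℤ, s - y ≠ n

/-- DIS: disjoint slots. `⌊t - s⌋ = i + 3 x`, `⌊t - α⌋ = k + 3 y`: `t` lies in `[s + i + 3 x, s + i + 3 x + 1)` and in `[α + k + 3 y, α + k + 3 y + 1)`, so `|(s + i + 3 x) - (α + k + 3 y)| < 1`, but this number is in `[1, 2] + 3 ℤ`. -/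
def DIS_stmt : Prop := ∀ (s α : ℝ) (i k n : ℤ), 1 ≤ s + i - (α + k) + 3 * n → s + i - (α + k) + 3 * n ≤ 2 →
  ∀ t : ℝ, ¬ (((⌊t - s⌋ : ℤ) : ZMod 3) = (i : ZMod 3) ∧ ((⌊t - α⌋ : ℤ) : ZMod 3) = (k : ZMod 3))

/-- EXS: static orders depend only on the values on `S`; shifts of the phases. -/
def EXS_stmt : Prop := ∀ (V : Type) [DecidableEq V] (S : Finset V) (X X' : V → ℕ) (w w' : V → V → ℕ),
  (∀ v ∈ S, X v = X' v) → (∀ u ∈ S, ∀ v ∈ S, u ≠ v → w u v = w' u v) →
  (St S X w → St S X' w') ∧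
  ∀ h φ (τ : ℝ), Static S X w h φ → Static S X w h (fun v => φ v + τ)

/-- ACI: insertion of `v` with the pointer `y`, the vertices of `A` now point to `v`. `y = none`: `ρ' v = 0`, `ρ' u = ρ u + 1`; `y = some b`: `ρ' v = 2 ρ b + 1`, `ρ' u = 2 ρ u` (`ρ b < ρ a` for `a ∈ A`, as `p a = some b`). -/
def ACI_stmt : Prop := ∀ (V : Type) [DecidableEq V] (S A : Finset V) (p : V → Option V) (v : V) (y : Option V), v ∉ S →
  A ⊆ S → Ac S p → (∀ u ∈ S, p u ≠ some v) → (∀ b, y = some b → b ∈ S) → (y = none ∨ ∀ a ∈ A, p a = y) →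
  Ac (insert v S) (fun u => if u = v then y else if u ∈ A then some v else p u)

/-- INS: insertion of a vertex `v` with the pointers `g k`, the phase `s`; the slots `r ∈ R` are redirected to `v`. At every time `v` points to the root, or to the old values of all active slots of `R`. New `h`: `g` at `v`, `some v` at the slots of `R`, old otherwise.
ACI with `A` = the vertices whose active slot is in `R`. (`w v v = 0` is not needed.) -/
def INS_stmt : Prop := ∀ (V : Type) [DecidableEq V] (S : Finset V) (X' X : V → ℕ) (w' w : V → V → ℕ)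
  (h : V → ZMod 3 → Option V) (φ : V → ℝ) (v : V) (R : Finset (V × ZMod 3)) (g : ZMod 3 → Option V) (s : ℝ),
  v ∉ S → Sy w → Static S X' w' h φ → (∀ r ∈ R, r.1 ∈ S) → (∀ k b, g k = some b → b ∈ S) →
  (∀ u ∈ S, ∀ n : ℤ, s - φ u ≠ n) →
  (∀ t : ℝ, g ((⌊t - s⌋ : ℤ) : ZMod 3) = none ∨ ∀ r ∈ R, ((⌊t - φ r.1⌋ : ℤ) : ZMod 3) = r.2 →
    h r.1 r.2 = g ((⌊t - s⌋ : ℤ) : ZMod 3)) →
  (∀ u ∈ S, (univ.filter fun k => (u, k) ∉ R ∧ h u k = none).card = X u) →
  (∀ u ∈ S, ∀ z ∈ S, u ≠ z → (univ.filter fun k => (u, k) ∉ R ∧ h u k = some z).card +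
    (univ.filter fun k => (z, k) ∉ R ∧ h z k = some u).card = w u z) →
  (univ.filter fun k => g k = none).card = X v →
  (∀ u ∈ S, (univ.filter fun k => g k = some u).card + (univ.filter fun k => (u, k) ∈ R).card = w v u) →
  St (insert v S) X w

/-- IN1: a vertex of degree 4 with one root edge. The pair `a, b` has a slot: `h a k1 = some b` (or `h b k1 = some a`: exchange the names). `R = {(a, k1)}`, `g 0 = some b`, `g 1 = none`, `g 2 = some c`, `α = φ a + k1`, `s ∈ (α - 1, α)` generic (GEN):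
by DIS (`i = 2`) the slot `(a, k1)` is not active when `v` points to `c`. INS. -/
def IN1_stmt : Prop := ∀ (V : Type) [DecidableEq V] (S : Finset V) (X : V → ℕ) (w : V → V → ℕ) (v a b c : V),
  v ∉ S → Sy w → a ∈ S → b ∈ S → c ∈ S → a ≠ b → X v = 1 →
  (∀ u ∈ S, w v u = (if u = a then 1 else 0) + (if u = b then 1 else 0) + (if u = c then 1 else 0)) →
  St S X (addE w a b) → St (insert v S) X w

/-- IN2: a vertex of degree 5 with one root edge, two lifts. `w' = addE (addE w a b) c d`. There is a slot `(a, k1)` with `h a k1 = some b` (after exchanging `a`, `b`), and a different slot `(c, k2)`, `h c k2 = some d` (after exchanging `c`, `d`; if `{a, b} = {c, d}` there are at least two slots of the pair).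
`α = φ a + k1`, `γ = φ c + k2`, `δ = γ - α` reduced modulo 3 to `(0, 3)`: it is not `0` modulo 3, by `dist` if `a ≠ c`, and as `k1 ≠ k2` if `a = c`. `R = {(a, k1), (c, k2)}`. If `1 < δ < 3`: `g = (some b, some d, none)`,
`s - α ∈ (max(0, δ - 2), min(1, δ - 1))` generic: then `s + 1 - α ∈ (1, 2)` (the slot `(a, k1)` is not active when `v` points to `d`), `s - γ + 3 ∈ (1, 2)` (`(c, k2)` is not active when `v` points to `b`). If `0 < δ ≤ 1`: exchange the roles of `(a, b)` and `(c, d)` (`3 - δ ∈ [2, 3)`). INS. -/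
def IN2_stmt : Prop := ∀ (V : Type) [DecidableEq V] (S : Finset V) (X : V → ℕ) (w : V → V → ℕ) (v a b c d : V),
  v ∉ S → Sy w → a ∈ S → b ∈ S → c ∈ S → d ∈ S → a ≠ b → c ≠ d → X v = 1 →
  (∀ u ∈ S, w v u = (if u = a then 1 else 0) + (if u = b then 1 else 0) + (if u = c then 1 else 0) +
    (if u = d then 1 else 0)) →
  St S X (addE (addE w a b) c d) → St (insert v S) X w

/-- IN3: a vertex of degree 5 with two root edges. A slot `(a, k1)` with `h a k1 = some b` (after exchanging `a`, `b`), a slot `(c, k2)` with `h c k2 = none`. `R = {(a, k1), (c, k2)}` (`c = a` or `c = b` is possible; the slots are different), `g = (some b, none, none)`,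
`γ = φ c + k2`, `s ∈ (γ + 1, γ + 2)` generic: `(c, k2)` is not active when `v` points to `b` (DIS). INS. -/
def IN3_stmt : Prop := ∀ (V : Type) [DecidableEq V] (S : Finset V) (X : V → ℕ) (w : V → V → ℕ) (v a b c : V),
  v ∉ S → Sy w → a ∈ S → b ∈ S → c ∈ S → a ≠ b → X v = 2 →
  (∀ u ∈ S, w v u = (if u = a then 1 else 0) + (if u = b then 1 else 0) + (if u = c then 1 else 0)) →
  St S (addX X c) (addE w a b) → St (insert v S) X w

/-! ## Splitting -/

/-- CHS: functions with given values. -/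
def CHS_stmt : Prop := ∀ (κ α : Type) [Nonempty α] (K : Finset κ) (A : Multiset α), Multiset.card A = K.card →
  ∃ g : κ → α, K.val.map g = A

/-- SPC: splitting at a tight set, counting. `E(S) = E(T) + E(S \ T) + ∑_(v ∈ S \ T) dg w T v`; for `U ⊆ S \ T` the new slack of `U` is `f(U ∪ T) - f(T)`. Uses EIN, FNS. -/
def SPC_stmt : Prop := ∀ (V : Type) [DecidableEq V] (S T : Finset V) (X : V → ℕ) (w : V → V → ℕ), Cone S X w → T ⊆ S →
  f X w T = 0 → Cone T X w ∧ Cone (S \ T) (fun v => X v + dg w T v) w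

/-- SPS: splitting at a tight set, static orders. `(h1, φ1)` on `T`, `(h2, φ2)` on `S \ T`, where `v ∈ S \ T` has `X v + dg w T v` root slots: by CHS redirect `w v u` of them to `some u` for every `u ∈ T` (the multiset with `X v` times `none`, `w v u` times `some u`). Shift `φ2` by a generic number (EXS, GEN).
`ρ = ρ1` on `T`, `ρ = ρ2 + 1 + (maximum of ρ1 on T)` on `S \ T`. -/
def SPS_stmt : Prop := ∀ (V : Type) [DecidableEq V] (S T : Finset V) (X : V → ℕ) (w : V → V → ℕ), Sy w → T ⊆ S →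
  St T X w → St (S \ T) (fun v => X v + dg w T v) w → St S X w

/-- QIC: splitting at complementary almost tight sets, counting. `f(S) = f(Q) + f(S \ Q) - ∑_(u ∈ Q) dg w (S \ Q) u`: there are exactly 2 edges between `Q` and `S \ Q` (NB for the function on the product `Q ×ˢ (S \ Q)`, or twice for sums). For `T ⊆ Q` with `b ∈ T` the new slack is `f(T) - 1 ≥ 0`. Uses EIN, FNS, NB. -/
def QIC_stmt : Prop := ∀ (V : Type) [DecidableEq V] (S Q : Finset V) (X : V → ℕ) (w : V → V → ℕ), Cone S X w →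
  (∀ T ⊆ S, T.Nonempty → T ≠ S → 1 ≤ f X w T) → Q ⊆ S → f X w Q = 1 → f X w (S \ Q) = 1 →
  ∃ a ∈ Q, ∃ b ∈ Q, ∃ p ∈ S \ Q, ∃ q ∈ S \ Q,
    (∀ u ∈ Q, ∀ z ∈ S \ Q, w u z = (if u = a ∧ z = p then 1 else 0) + (if u = b ∧ z = q then 1 else 0)) ∧
    Cone Q (addX X b) w ∧ Cone (S \ Q) (addX X p) w

/-- QIS: the same, static orders. `(h1, φ1)` on `Q` with a slot `h1 b k1 = none`, `(h2, φ2)` on `S \ Q` with a slot `h2 p k2 = none`. New `h`: `(b, k1) ↦ some q`, `(p, k2) ↦ some a`, otherwise old. `φ = φ1` on `Q`, `φ2 + τ` on `S \ Q`, `τ` generic with `(φ2 p + k2 + τ) - (φ1 b + k1) ∈ (1, 2)` (GEN): by DIS the two slots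
are never active at the same time. If `(b, k1)` is not active: `ρ = ρ1` on `Q`, `ρ2 + 1 + max ρ1` on `S \ Q`; else `(p, k2)` is not active: `ρ = ρ2` on `S \ Q`, `ρ1 + 1 + max ρ2` on `Q`. -/
def QIS_stmt : Prop := ∀ (V : Type) [DecidableEq V] (S Q : Finset V) (X : V → ℕ) (w : V → V → ℕ) (a b p q : V), Sy w →
  Q ⊆ S → a ∈ Q → b ∈ Q → p ∈ S \ Q → q ∈ S \ Q →
  (∀ u ∈ Q, ∀ z ∈ S \ Q, w u z = (if u = a ∧ z = p then 1 else 0) + (if u = b ∧ z = q then 1 else 0)) →
  St Q (addX X b) w → St (S \ Q) (addX X p) w → St S X w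

/-! ## Small graphs -/

/-- the `n`-th iterate of the pointers -/
def it {m : ℕ} (P : Fin m → Option (Fin m)) : ℕ → Option (Fin m) → Option (Fin m)
  | 0, o => o
  | n + 1, o => it P n (o.bind P)

/-- CHK: static orders with the phases `r i / m` (ranks `r i`). `⌊t - r / m⌋ = (⌊t m⌋ - r) / m` (division of integers with rest `≥ 0`), which modulo 3 depends only on `⌊t m⌋` modulo `3 m`. `ρ i` = the smallest `n` with `it P n (some i) = none`. -/
def CHK_stmt : Prop := ∀ (m : ℕ), 0 < m → ∀ (hh : Fin m → ZMod 3 → Option (Fin m)) (r : Fin m → ℕ), (∀ i, r i < m) →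
  Function.Injective r → (∀ i k, hh i k ≠ some i) →
  (∀ (j : Fin (3 * m)) (i : Fin m), it (fun i => hh i ((((j : ℕ) : ℤ) - r i) / m : ℤ)) m (some i) = none) →
  St univ (fun i => (univ.filter fun k => hh i k = none).card)
    (fun i i' => (univ.filter fun k => hh i k = some i').card + (univ.filter fun k => hh i' k = some i).card)

/-- TRN: transport to `S = {e i}`. -/
def TRN_stmt : Prop := ∀ (m : ℕ) (V : Type) [DecidableEq V] (e : Fin m → V) (X : V → ℕ) (w : V → V → ℕ),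
  Function.Injective e → St univ (fun i => X (e i)) (fun i j => w (e i) (e j)) → St (univ.image e) X w

/-- T3: two graphs with 3 vertices. `e = ![v, a, b]`, `hh`, `r` by CHK (decide): ranks `0, 1, 2` or similar; a search over all `hh` and `r` finds static orders for both. -/
def T3_stmt : Prop := ∀ (V : Type) [DecidableEq V] (X : V → ℕ) (w : V → V → ℕ) (v a b : V), Sy w → v ≠ a → v ≠ b → a ≠ b →
  w v a = 2 → w v b = 1 → w a b = 2 → X v = 1 → (X a = 1 ∧ X b = 2 ∨ X a = 2 ∧ X b = 1) → St {v, a, b} X w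

/-- T4: all graphs with 4 vertices and 8 edges inside (66 labelled graphs; a table with a static order for each). -/
def T4_stmt : Prop := ∀ (V : Type) [DecidableEq V] (S : Finset V) (X : V → ℕ) (w : V → V → ℕ), S.card = 4 → Sy w →
  (∀ v ∈ S, X v = 1) → E w S = 8 → (∀ T ⊆ S, 2 ≤ T.card → E w T + 4 ≤ 3 * T.card) → St S X w

/-- T5: two critical triples with a common vertex (9 labelled graphs). -/
def T5_stmt : Prop := ∀ (V : Type) [DecidableEq V] (X : V → ℕ) (w : V → V → ℕ) (s a b c d : V), Sy w →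
  s ≠ a → s ≠ b → s ≠ c → s ≠ d → a ≠ b → a ≠ c → a ≠ d → b ≠ c → b ≠ d → c ≠ d →
  w s a ≤ 2 → w s b ≤ 2 → w a b ≤ 2 → w s a + w s b + w a b = 5 →
  w s c ≤ 2 → w s d ≤ 2 → w c d ≤ 2 → w s c + w s d + w c d = 5 →
  w a c = 0 → w a d = 0 → w b c = 0 → w b d = 0 → (∀ u ∈ ({s, a, b, c, d} : Finset V), X u = 1) →
  St {s, a, b, c, d} X w

/-- S1: at most one vertex: `X v = 3`. -/
def S1_stmt : Prop := ∀ (V : Type) [DecidableEq V] (S : Finset V) (X : V → ℕ) (w : V → V → ℕ), Cone S X w → S.card ≤ 1 → St S X w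

/-- S2: two vertices: `f({u}) ≥ 1` gives `X ≤ 2`, `E ≤ 2`, the sum is 6, so `X = 2` for both, `f({u}) = f({v}) = 1`: a contradiction to `Irr`. -/
def S2_stmt : Prop := ∀ (V : Type) [DecidableEq V] (S : Finset V) (X : V → ℕ) (w : V → V → ℕ), Cone S X w → Irr S X w →
  S.card ≠ 2

/-- DEG: degrees. `S = insert v (S.erase v)`, FNS. `f({v}) = 3 - X v ≥ 1`. If `X v = 2` then `f({v}) = 1`, so `f(S.erase v) ≥ 2`. `∑ (X v + dg w S v) = X(S) + 2 E(S) = 3 |S| + E(S)`, `E(S) ≤ 2 |S|` as `X ≥ 1`. Pairs: `Cone.v`. -/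
def DEG_stmt : Prop := ∀ (V : Type) [DecidableEq V] (S : Finset V) (X : V → ℕ) (w : V → V → ℕ), Cone S X w → Irr S X w →
  2 ≤ S.card →
  (∀ v ∈ S, (X v : ℤ) + dg w S v = 3 + f X w (S.erase v) ∧ 4 ≤ X v + dg w S v ∧ X v ≤ 2 ∧
    (X v = 2 → 5 ≤ X v + dg w S v) ∧ dg w S v = dg w (S.erase v) v) ∧
  (∑ v ∈ S, (X v + dg w S v) = 3 * S.card + E w S) ∧ E w S ≤ 2 * S.card ∧
  (∀ a ∈ S, ∀ b ∈ S, a ≠ b → w a b ≤ 2)

/-- S3: three vertices. `E(S) ≤ 5`, so by DEG some `v` has `X v + dg w S v ≤ 4`, so `= 4`, `X v = 1`, `dg = 3`: `S = {v, a, b}` with `w v a = 2`, `w v b = 1` (after exchanging `a`, `b`). The total: `w a b + X a + X b = 5`, `X ≤ 2`, `w a b ≤ 2`.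
If `X b = 2`: `f({b}) = 1`, so `f({v, a}) = 6 - 2 - 1 - X a ≥ 2`: `X a = 1`. So `w a b = 2` and `(X a, X b) = (1, 2)` or `(2, 1)`. T3. -/
def S3_stmt : Prop := ∀ (V : Type) [DecidableEq V] (S : Finset V) (X : V → ℕ) (w : V → V → ℕ), Cone S X w → Irr S X w →
  S.card = 3 → St S X w

/-- CRI: critical triples. `1 ≤ f(Q) = 4 - X(Q)`, so `X = 1` on `Q` and `f(Q) = 1`, `f(S \ Q) ≥ 2` by `Irr`. `f(S) = 0 = f(Q) + f(S \ Q) - (edges between)`, so `∑_Q (X + dg w S) = 3 + 2 * 5 + f(Q) + f(S \ Q) ≥ 16`. Every pair has at most 2 edges, so at least 1. -/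
def CRI_stmt : Prop := ∀ (V : Type) [DecidableEq V] (S : Finset V) (X : V → ℕ) (w : V → V → ℕ), Cone S X w → Irr S X w →
  4 ≤ S.card → ∀ Q, Crit S w Q → (∀ u ∈ Q, X u = 1) ∧ f X w Q = 1 ∧ 2 ≤ f X w (S \ Q) ∧
    16 ≤ ∑ u ∈ Q, (X u + dg w S u) ∧ (∀ a ∈ Q, ∀ b ∈ Q, a ≠ b → 1 ≤ w a b)

/-- S4: four vertices. If `E(S) = 8`: then `X = 1` on `S` (`X(S) = 4`), T4. If `E(S) ≤ 7`: DEG: some `v` has degree 4, `X v = 1`, `dg = 3`; NB: `a, b, c` in `S.erase v`; not all equal (`w v a ≤ 2`). There are `a ≠ b` (after a permutation of `a, b, c`) with `w a b ≤ 1`: if two of them are equal, say `c = a`, and `w a b = 2`,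
then `{v, a, b}` is critical, so `f(S \ {v, a, b}) ≥ 2`: the fourth vertex has `X = 1` (`f({u}) = 3 - X u`), so `X(S) = 4`, `E(S) = 8`, a contradiction; if they are different and all pairs have 2 edges, `E({a, b, c}) = 6`, a contradiction. `Cone (S.erase v) X (addE w a b)`: the slack of `T` decreases by at most 1 (`T ≠ S`);
`Cone.v` for `T = {a, b}`: `w a b + 1 ≤ 2`; for `|T| = 3`, `T = S.erase v`: `E(T) = E(S) - 3 ≤ 4`. IH, IN1. -/
def S4_stmt : Prop := ∀ (V : Type) [DecidableEq V] (S : Finset V) (X : V → ℕ) (w : V → V → ℕ), Cone S X w → Irr S X w →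
  S.card = 4 → IH S → St S X w

/-! ## At least five vertices -/

/-- CR2: two critical triples which meet. `f(Q ∪ Q') + f(Q ∩ Q') ≤ 2` (FNS, CRI). If `|Q ∩ Q'| = 2`, `Q ∩ Q' = {a, b}`: `f = 6 - 2 - w a b ≥ 2`, and `Q ∪ Q' ≠ S` has slack `≥ 1`: a contradiction. So `Q ∩ Q' = {s}`, of slack 2, `f(Q ∪ Q') ≤ 0`, `Q ∪ Q' = S`. `15 = E(S) + X(S)`, `X(S) = 5`, so `E(S) = 10 = E(Q) + E(Q')`: no other edges. -/
def CR2_stmt : Prop := ∀ (V : Type) [DecidableEq V] (S : Finset V) (X : V → ℕ) (w : V → V → ℕ), Cone S X w → Irr S X w →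
  5 ≤ S.card → ¬ CrDj S w → ∃ s a b c d, s ≠ a ∧ s ≠ b ∧ s ≠ c ∧ s ≠ d ∧ a ≠ b ∧ a ≠ c ∧ a ≠ d ∧ b ≠ c ∧ b ≠ d ∧ c ≠ d ∧
    S = {s, a, b, c, d} ∧ (w s a ≤ 2 ∧ w s b ≤ 2 ∧ w a b ≤ 2 ∧ w s a + w s b + w a b = 5) ∧
    (w s c ≤ 2 ∧ w s d ≤ 2 ∧ w c d ≤ 2 ∧ w s c + w s d + w c d = 5) ∧
    w a c = 0 ∧ w a d = 0 ∧ w b c = 0 ∧ w b d = 0 ∧ ∀ u ∈ S, X u = 1

/-- CNT: a vertex of low degree outside of the critical triples. Else: `𝒬` the set of the critical triples (in `S.powerset`), `U` its union, `|U| = 3 |𝒬|`: `5 |S| ≥ ∑_S (X + dg) ≥ 16 |𝒬| + 6 (|S| - 3 |𝒬|)` (DEG, CRI), so `|S| ≤ 2 |𝒬|`, but `3 |𝒬| ≤ |S|`, so `|S| = 0`. -/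
def CNT_stmt : Prop := ∀ (V : Type) [DecidableEq V] (S : Finset V) (X : V → ℕ) (w : V → V → ℕ), Cone S X w → Irr S X w →
  5 ≤ S.card → CrDj S w → ∃ v ∈ S, X v + dg w S v ≤ 5 ∧ ∀ Q, Crit S w Q → v ∉ Q

/-- F1: `f(insert v Q) = f(Q) + 3 - X v - dg w Q v ≥ 1`, `f(Q) = 1`. -/
def F1_stmt : Prop := ∀ (V : Type) [DecidableEq V] (S : Finset V) (X : V → ℕ) (w : V → V → ℕ), Cone S X w → Irr S X w →
  5 ≤ S.card → ∀ Q, Crit S w Q → ∀ v ∈ S, v ∉ Q → dg w Q v + X v ≤ 3

/-- F2: if `w a b = 2` then `E({v, a, b}) ≥ 5`, so `= 5` (`Cone.v`), a critical triple with `v`. If `a, b ∈ Q` critical then `dg w Q v ≥ 3`: F1. -/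
def F2_stmt : Prop := ∀ (V : Type) [DecidableEq V] (S : Finset V) (X : V → ℕ) (w : V → V → ℕ), Cone S X w → Irr S X w →
  5 ≤ S.card → ∀ v ∈ S, (∀ Q, Crit S w Q → v ∉ Q) → ∀ a ∈ S, ∀ b ∈ S, v ≠ a → v ≠ b → a ≠ b →
  w v a = 2 → 1 ≤ w v b → ¬ Blk S w a b

/-- F3: no triangle of blocked pairs. Not all three pairs have 2 edges (`E ≤ 5`). So (after a permutation) `a, b ∈ Q` critical; `c ∉ Q` by F1. `a, c` are not in a common critical triple (`CrDj`: it would be `Q`), so `w a c = 2`, also `w b c = 2`, and `w a b ≥ 1` (CRI): `{a, b, c}` is critical and meets `Q`, so it is `Q`: a contradiction. -/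
def F3_stmt : Prop := ∀ (V : Type) [DecidableEq V] (S : Finset V) (X : V → ℕ) (w : V → V → ℕ), Cone S X w → Irr S X w →
  5 ≤ S.card → CrDj S w → ∀ v ∈ S, (∀ Q, Crit S w Q → v ∉ Q) → ∀ a ∈ S, ∀ b ∈ S, ∀ c ∈ S, v ≠ a → v ≠ b → v ≠ c →
  a ≠ b → a ≠ c → b ≠ c → 1 ≤ w v a → 1 ≤ w v b → 1 ≤ w v c → ¬ (Blk S w a b ∧ Blk S w a c ∧ Blk S w b c)

/-- F4: no star of blocked pairs, with one exception. If (after a permutation of `b, c, d`) `a, b ∈ Q` critical: by F1 `dg w Q v ≤ 2`, so `c, d ∉ Q`, and by `CrDj` `w a c = w a d = 2`; `T = Q ∪ {v, c, d}`: `E(T) ≥ 5 + 2 + 2 + 4 = 13`, `f(T) ≤ 18 - 13 - 6 < 0`. Else `w a b = w a c = w a d = 2`, `T = {v, a, b, c, d}`: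
`E(T) ≥ 10`, `f(T) ≤ 0`, so `T = S`, `E(S) = 10`, `X = 1` on `S`. -/
def F4_stmt : Prop := ∀ (V : Type) [DecidableEq V] (S : Finset V) (X : V → ℕ) (w : V → V → ℕ), Cone S X w → Irr S X w →
  5 ≤ S.card → CrDj S w → ∀ v ∈ S, (∀ Q, Crit S w Q → v ∉ Q) → ∀ a ∈ S, ∀ b ∈ S, ∀ c ∈ S, ∀ d ∈ S,
  v ≠ a → v ≠ b → v ≠ c → v ≠ d → a ≠ b → a ≠ c → a ≠ d → b ≠ c → b ≠ d → c ≠ d →
  1 ≤ w v a → 1 ≤ w v b → 1 ≤ w v c → 1 ≤ w v d → Blk S w a b → Blk S w a c → Blk S w a d →
  S = {v, a, b, c, d} ∧ w a b = 2 ∧ w a c = 2 ∧ w a d = 2 ∧ E w S = 10 ∧ ∀ u ∈ S, X u = 1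

/-- LC1: the smaller graph for IN1. `T ⊆ S.erase v`: the slack decreases by at most 1 and `T ≠ S`. `tot`: `f(S.erase v) = X v + dg w S v - 3 = 1`. `Cone.v` for `a, b ∈ T`: `3 |T| - E(T) = f(T) + X(T) ≥ 1 + |T|`; `|T| ≥ 4`: clear; `|T| = 3`: `E(T) ≤ 5` and `T` is not critical (`Blk`), so `E(T) ≤ 4`; `|T| = 2`: `E(T) = w a b ≤ 1`. -/
def LC1_stmt : Prop := ∀ (V : Type) [DecidableEq V] (S : Finset V) (X : V → ℕ) (w : V → V → ℕ), Cone S X w → Irr S X w →
  5 ≤ S.card → ∀ v ∈ S, ∀ a ∈ S, ∀ b ∈ S, v ≠ a → v ≠ b → a ≠ b → X v + dg w S v = 4 → ¬ Blk S w a b →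
  Cone (S.erase v) X (addE w a b)

/-- LC3: the smaller graph for IN3. As LC1; `tot`: `f(S.erase v) = 5 - 3 = 2`. If `T ⊆ S.erase v` contains `a, b, c` then `f(insert v T) = f(T) + 3 - 5 ≥ 0` (all neighbours of `v` are in `T`), so `f(T) ≥ 2`. `Cone.v` as in LC1. -/
def LC3_stmt : Prop := ∀ (V : Type) [DecidableEq V] (S : Finset V) (X : V → ℕ) (w : V → V → ℕ), Cone S X w → Irr S X w →
  5 ≤ S.card → ∀ v ∈ S, ∀ a ∈ S, ∀ b ∈ S, ∀ c ∈ S, v ≠ a → v ≠ b → v ≠ c → a ≠ b → X v = 2 →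
  (∀ u ∈ S.erase v, w v u = (if u = a then 1 else 0) + (if u = b then 1 else 0) + (if u = c then 1 else 0)) →
  ¬ Blk S w a b → Cone (S.erase v) (addX X c) (addE w a b)

/-- LC2: the smaller graph for IN2. Let `j` be the number of the two added edges inside `T ⊆ S.erase v`. `j = 2`: all neighbours of `v` are in `T`, `f(insert v T) = f(T) + 3 - 5`, so `f(T) ≥ 2`, and `f(T) ≥ 3` if `insert v T ≠ S`. `Cone.v`: `3 |T| - E(T) = f(T) + X(T) ≥ f(T) + |T|` must be `≥ 4 + j`. `j = 1`: as in LC1.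
`j = 2`: `|T| ≥ 4`: clear; `|T| = 3`: `insert v T ≠ S`, `f(T) ≥ 3`; `|T| = 2`: `T = {a, b} = {c, d}`, `w v a = w v b = 2`; `E({v, a, b}) = 4 + w a b ≤ 5`, and `= 5` is excluded (a critical triple with `v`), so `w a b = 0`. -/
def LC2_stmt : Prop := ∀ (V : Type) [DecidableEq V] (S : Finset V) (X : V → ℕ) (w : V → V → ℕ), Cone S X w → Irr S X w →
  5 ≤ S.card → ∀ v ∈ S, (∀ Q, Crit S w Q → v ∉ Q) → ∀ a ∈ S, ∀ b ∈ S, ∀ c ∈ S, ∀ d ∈ S, v ≠ a → v ≠ b → v ≠ c → v ≠ d →
  a ≠ b → c ≠ d → X v = 1 →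
  (∀ u ∈ S.erase v, w v u = (if u = a then 1 else 0) + (if u = b then 1 else 0) + (if u = c then 1 else 0) +
    (if u = d then 1 else 0)) →
  ¬ Blk S w a b → ¬ Blk S w c d → Cone (S.erase v) X (addE (addE w a b) c d)

/-- L3: a low vertex with three edges inside. NB on `S.erase v`: `a, b, c`; not all equal (`w v a ≤ 2`). After a permutation `a ≠ b` and `¬ Blk a b`: if two are equal, F2; if all are different, F3. `X v = 1`: LC1, IH, IN1; `X v = 2`: LC3, IH, IN3 (`insert v (S.erase v) = S`). -/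
def L3_stmt : Prop := ∀ (V : Type) [DecidableEq V] (S : Finset V) (X : V → ℕ) (w : V → V → ℕ), Cone S X w → Irr S X w →
  5 ≤ S.card → CrDj S w → IH S → ∀ v ∈ S, (∀ Q, Crit S w Q → v ∉ Q) → X v + dg w S v ≤ 5 → dg w S v = 3 → St S X w

/-- L4: a low vertex with four edges inside, `X v = 1`. NB: `a, b, c, d`, each value at most twice. `a = c`, `b = d`, `a ≠ b` (after a permutation): the pairs `ab`, `ab` (F2); `a = c`, `b ≠ d`: the pairs `ab`, `ad` (F2); all different: if one of the three matchings has no blocked pair: LC2, IH, IN2. Else choose a blocked pair in each of the three matchings: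
they form a triangle (F3) or a star (F4): then `S = {v, a, b, c, d}`, `E(S) = 10`, so there are no other edges, and `b` has `X b = 1`, `dg w S b = 3` and is in no critical triple (a critical triple does not contain `v`, and `E({a, b, c}) = E({a, b, d}) = 4`, `E({b, c, d}) = 0`): L3 for `b`. -/
def L4_stmt : Prop := ∀ (V : Type) [DecidableEq V] (S : Finset V) (X : V → ℕ) (w : V → V → ℕ), Cone S X w → Irr S X w →
  5 ≤ S.card → CrDj S w → IH S → ∀ v ∈ S, (∀ Q, Crit S w Q → v ∉ Q) → X v + dg w S v ≤ 5 → dg w S v = 4 → St S X w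

/-- S5: at least five vertices. CR2 and T5, or CNT; DEG: `X v + dg w S v ∈ {4, 5}`, `X v ∈ {1, 2}`, and `X v = 2` only if the sum is 5: `dg w S v ∈ {3, 4}`: L3, L4. -/
def S5_stmt : Prop := ∀ (V : Type) [DecidableEq V] (S : Finset V) (X : V → ℕ) (w : V → V → ℕ), Cone S X w → Irr S X w →
  5 ≤ S.card → IH S → St S X w

/-- MAIN: strong induction on `|S|`. S1; a tight set `T ≠ ∅, S`: SPC, SPS; else, `T` with `f(T) = f(S \ T) = 1`: QIC, QIS; else `Irr`: S2, S3, S4, S5. -/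
def MAIN_stmt : Prop := ∀ (V : Type) [DecidableEq V] (S : Finset V) (X : V → ℕ) (w : V → V → ℕ), Cone S X w → St S X w

/-! ## Cyclic orderings -/

/-- ORD: sort the vertices by the fractional parts of the phases: `e` with `Int.fract (φ (e i))` strictly increasing; new `h v k` = old `h v (k - ⌊φ v⌋)`. For `q` (an integer representative) and `r ≥ 1` take `t = q + 1 + fract (φ (e (r - 1)))`, for `r = 0` `t = q + fract (φ (e (m - 1)))`:
`t - φ (e i) = (q + 1 or q) - ⌊φ (e i)⌋ + (a number in [0, 1))`, with `q + 1` if and only if `i < r`. -/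
def ORD_stmt : Prop := ∀ (V : Type) [DecidableEq V] (S : Finset V) (X : V → ℕ) (w : V → V → ℕ), St S X w →
  ∃ (e : Fin S.card → V) (h : V → ZMod 3 → Option V), Function.Injective e ∧ (∀ v, v ∈ S ↔ ∃ i, e i = v) ∧
    (∀ v ∈ S, ∀ k u, h v k = some u → u ∈ S ∧ u ≠ v) ∧
    (∀ v ∈ S, (univ.filter fun k => h v k = none).card = X v) ∧
    (∀ u ∈ S, ∀ v ∈ S, u ≠ v →
      (univ.filter fun k => h u k = some v).card + (univ.filter fun k => h v k = some u).card = w u v) ∧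
    ∀ (q : ZMod 3) (r : ℕ), r ≤ S.card → ∃ ρ : V → ℕ, ∀ (i : Fin S.card) (u : V),
      (if (i : ℕ) < r then h (e i) (q + 1) else h (e i) q) = some u → ρ u < ρ (e i)

/-- PAR: rooted trees. `p v` = the neighbour of `v` on the path to `x`. (Or: an orientation of the `n - 1` edges; compare the proof of `SimpleGraph.IsTree.card_edgeFinset`.) -/
def PAR_stmt : Prop := ∀ (V : Type) [Fintype V] [DecidableEq V] (T : SimpleGraph V) (x : V), T.IsTree →
  ∃ p : V → V, (∀ v, v ≠ x → T.Adj v (p v)) ∧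
    (∀ u v, T.Adj u v → (u ≠ x ∧ p u = v) ∨ (v ≠ x ∧ p v = u)) ∧
    ∀ u v, u ≠ x → v ≠ x → p u = v → p v ≠ u

open Classical in
/-- CGR: the graph is in the class. `S = univ.erase x`, `w u v` = the number of trees containing the edge `uv`. PAR for the three trees: for `T ⊆ S` the number of edges of one tree inside `insert x T` is the number of the `v ∈ T` with `p v ∈ insert x T`, so it is `≤ |T|`, and `= |T|` for `T = S`. Every `v ≠ x` is adjacent to `x` in exactly one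
tree (`X v = 1`). `w ≤ 1` as the trees are edge-disjoint: `Cone.v` for `|T| = 2, 3`; for `|T| ≥ 4`: `E(T) ≤ 3 |T| - |T| = 2 |T| ≤ 3 |T| - 4`. -/
def CGR_stmt : Prop := ∀ (V : Type) [Fintype V] [DecidableEq V] (T : Fin 3 → SimpleGraph V) (x : V),
  (∀ i, (T i).IsTree) → (∀ i j, i ≠ j → Disjoint (T i).edgeSet (T j).edgeSet) →
  (∀ v, v ≠ x → ∃ i, (T i).Adj x v) →
  Cone (univ.erase x) (fun _ => 1) (fun u v => (univ.filter fun i => (T i).Adj u v).card) ∧
  ∀ u v, (univ.filter fun i => (T i).Adj u v).card ≤ 1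

/-- TRE: trees from pointers. Connected: induction on `ρ`. The edges `s(v, p v)`, `v ≠ x`, are different (`v = p u`, `u = p v` contradicts `ρ`), so there are `n - 1`: `SimpleGraph.isTree_iff_connected_and_card`. -/
def TRE_stmt : Prop := ∀ (V : Type) [Fintype V] [DecidableEq V] (x : V) (p : V → V) (ρ : V → ℕ),
  (∀ v, v ≠ x → ρ (p v) < ρ v) → (SimpleGraph.fromEdgeSet {z | ∃ v, v ≠ x ∧ z = s(v, p v)}).IsTree

/-- the `i`-th element after `j` in the cyclic ordering `e` -/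
def cyc {N : ℕ} {α : Type} (e : Fin N → α) (j : Fin N) (i : ℕ) : α := e ⟨(j.1 + i) % N, Nat.mod_lt _ j.pos⟩

/-- KUM: THE THEOREM. CGR, MAIN, ORD (`m = |V| - 1`): the edge number `q m + i`, `q < 3`, `i < m`, is `s(e i, h (e i) q)` with `none` replaced by `x`. A window starting at `q m + r`, `r < m`, consists of the `s(e i, h (e i) (q + 1))` for `i < r` and the `s(e i, h (e i) q)` for `i ≥ r`: a tree by ORD and TRE (`ρ' x = 0`, `ρ' v = ρ v + 1`).
Injective: two slots with the same edge contradict `X = 1` or `w ≤ 1`. The range: every edge of the union has a slot, and every slot is an edge. -/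
def KUM_stmt : Prop := ∀ (V : Type) [Fintype V] [DecidableEq V] (T : Fin 3 → SimpleGraph V) (x : V),
  (∀ i, (T i).IsTree) → (∀ i j, i ≠ j → Disjoint (T i).edgeSet (T j).edgeSet) →
  (∀ v, v ≠ x → ∃ i, (T i).Adj x v) →
  ∃ e : Fin (3 * (Fintype.card V - 1)) → Sym2 V, Function.Injective e ∧
    (∀ z, (∃ j, e j = z) ↔ ∃ i, z ∈ (T i).edgeSet) ∧
    ∀ j, (SimpleGraph.fromEdgeSet {z | ∃ i < Fintype.card V - 1, z = cyc e j i}).IsTree

end

end Pool.Agent.KU
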