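import Pool.Agent.helper70.KU.Alg

/-! Module TRIV: the trivial range `k + 1 ≤ 3 n`. -/

namespace C048

open Finset Polynomial

/-- dividing by `1 - X^i` preserves nonnegativity of the low coefficients -/
lemma triv_step {C : ℤ[X]} {i N : ℕ} (hi : 1 ≤ i)
    (h : ∀ k < N, 0 ≤ (C * (1 - X ^ i)).coeff k) : ∀ k < N, 0 ≤ C.coeff k := by
  intro k
  induction k using Nat.strong_induction_on with
  | _ k ih =>
    intro hk
    have h1 := h k hk
    rw [mul_sub, mul_one, coeff_sub, coeff_mul_X_pow'] at h1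
    by_cases hik : i ≤ k
    · rw [if_pos hik] at h1
      have := ih (k - i) (by omega) (by omega)
      linarith
    · rw [if_neg hik] at h1
      linarith

lemma triv_prod {ι : Type*} (s : Finset ι) (f : ι → ℕ) (hf : ∀ i ∈ s, 1 ≤ f i) {N : ℕ} :
    ∀ {C : ℤ[X]}, (∀ k < N, 0 ≤ (C * ∏ i ∈ s, (1 - X ^ f i)).coeff k) → ∀ k < N, 0 ≤ C.coeff k := by
  classical
  induction s using Finset.induction_on with
  | empty => intro C h k hk; simpa using h k hk
  | insert b s hb ih =>
    intro C h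
    have h1 : ∀ k < N, 0 ≤ (C * (1 - X ^ f b)).coeff k := by
      apply ih (fun i hi => hf i (mem_insert_of_mem hi))
      intro k hk
      have := h k hk
      rw [prod_insert hb, ← mul_assoc] at this
      exact this
    exact triv_step (hf b (mem_insert_self b s)) h1

lemma triv_R (N : ℕ) (s : Finset ℕ) (hs : ∀ i ∈ s, N ≤ i + 1) :
    ∀ k < N, 0 ≤ (∏ i ∈ s, (1 - X ^ (i + 1)) : ℤ[X]).coeff k := by
  classical
  have key : ∀ k < N, (∏ i ∈ s, (1 - X ^ (i + 1)) : ℤ[X]).coeff k = if k = 0 then 1 else 0 := by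
    induction s using Finset.induction_on with
    | empty => intro k hk; simp [coeff_one]
    | insert b s hb ih =>
      intro k hk
      have hb1 := hs b (mem_insert_self b s)
      rw [prod_insert hb, sub_mul, one_mul, coeff_sub, coeff_X_pow_mul',
        ih (fun i hi => hs i (mem_insert_of_mem hi)) k hk,
        if_neg (show ¬ (b + 1 ≤ k) by omega), sub_zero]
  intro k hk
  rw [key k hk]
  split_ifs <;> norm_num

lemma triv_qfac_ne_zero (m : ℕ) : qfac m ≠ 0 := by
  unfold qfac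
  rw [Finset.prod_ne_zero_iff]
  intro i _ h
  have := congrArg (fun p : ℤ[X] => p.coeff 0) h
  simp [coeff_X_pow] at this

/-- TRIV, with the product identity as a hypothesis -/
theorem triv_range_of (hPN : ∀ n : ℕ, (PN n).map (Nat.castRingHom ℤ)
      * (qfac (3 * n) * qfac (2 * n) ^ 2) = qfac (6 * n) * qfac n)
    (n : ℕ) (hn : 1 ≤ n) (k : ℕ) (hk : k + 1 ≤ 3 * n) : a n k ≤ a n (k + 1) := by
  set P : ℤ[X] := (PN n).map (Nat.castRingHom ℤ) with hP
  set R : ℤ[X] := ∏ i ∈ Ico (3 * n) (6 * n), (1 - X ^ (i + 1)) with hR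
  set A1 : ℤ[X] := ∏ i ∈ Ico n (2 * n), (1 - X ^ (i + 1)) with hA1
  set A2 : ℤ[X] := ∏ i ∈ Ico 1 (2 * n), (1 - X ^ (i + 1)) with hA2
  have h6 : qfac (6 * n) = qfac (3 * n) * R := by
    unfold qfac
    rw [hR, range_eq_Ico, range_eq_Ico, prod_Ico_consecutive _ (by omega) (by omega)]
  have h2 : qfac (2 * n) = qfac n * A1 := by
    unfold qfac
    rw [hA1, range_eq_Ico, range_eq_Ico, prod_Ico_consecutive _ (by omega) (by omega)]
  have h2' : qfac (2 * n) = (1 - X) * A2 := by
    unfold qfac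
    rw [hA2, range_eq_Ico, ← prod_Ico_consecutive _ (show 0 ≤ 1 by omega) (show 1 ≤ 2 * n by omega)]
    simp
  have key : (P * (1 - X)) * (A1 * A2) = R := by
    have h := hPN n
    rw [← hP, sq] at h
    have h3 : (qfac (3 * n) * qfac n) * ((P * (1 - X)) * (A1 * A2))
        = (qfac (3 * n) * qfac n) * R := by
      calc (qfac (3 * n) * qfac n) * ((P * (1 - X)) * (A1 * A2))
          = P * (qfac (3 * n) * ((qfac n * A1) * ((1 - X) * A2))) := by ring
        _ = P * (qfac (3 * n) * (qfac (2 * n) * qfac (2 * n))) := by rw [← h2, ← h2']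
        _ = qfac (6 * n) * qfac n := h
        _ = (qfac (3 * n) * qfac n) * R := by rw [h6]; ring
    exact mul_left_cancel₀ (mul_ne_zero (triv_qfac_ne_zero _) (triv_qfac_ne_zero _)) h3
  have hnn : ∀ j < 3 * n + 1, 0 ≤ (P * (1 - X)).coeff j := by
    apply triv_prod (Ico n (2 * n)) (fun i => i + 1) (fun i _ => by omega)
    apply triv_prod (Ico 1 (2 * n)) (fun i => i + 1) (fun i _ => by omega)
    intro j hj
    have e : (P * (1 - X) * (∏ i ∈ Ico n (2 * n), (1 - X ^ (i + 1))))
        * (∏ i ∈ Ico 1 (2 * n), (1 - X ^ (i + 1))) = R := by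
      rw [← key, mul_assoc (P * (1 - X))]
    rw [e, hR]
    exact triv_R (3 * n + 1) _ (fun i hi => by rw [mem_Ico] at hi; omega) j hj
  have h1 := hnn (k + 1) (by omega)
  rw [mul_sub, mul_one, coeff_sub, coeff_mul_X, hP, coeff_map, coeff_map] at h1
  have h4 : ((PN n).coeff k : ℤ) ≤ ((PN n).coeff (k + 1) : ℤ) := by simpa using h1
  unfold a
  exact_mod_cast h4

/-- TRIV -/
theorem triv_range (n : ℕ) (hn : 1 ≤ n) (k : ℕ) (hk : k + 1 ≤ 3 * n) : a n k ≤ a n (k + 1) :=
  triv_range_of PN_identity n hn k hk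

end C048
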