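import Pool.Agent.helper63.KU.S1C
import Pool.Agent.helper63.KU.EXP
import Pool.Agent.helper18.KU.AB

/-! Modules X05, X075, X15: numerical lower bounds of `S1`. -/

namespace C048

open Finset

lemma X_exp {τ : ℝ} (h0 : 0 < τ) (h1 : τ ≤ 1) :
    1 + τ + τ ^ 2 / 2 ≤ Real.exp τ ∧ Real.exp τ ≤ 1 + τ + τ ^ 2 / 2 + 2 / 9 * τ ^ 3 := by
  refine ⟨Real.quadratic_le_exp_of_nonneg h0.le, ?_⟩
  have h := Real.exp_bound' h0.le h1 (n := 3) (by norm_num)
  refine h.trans (le_of_eq ?_)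
  simp [Finset.sum_range_succ, Nat.factorial]
  ring

lemma X_inv {τ : ℝ} (h0 : 0 < τ) (h1 : τ ≤ 1) : 1 / τ - 1 / 2 ≤ 1 / (Real.exp τ - 1) := by
  obtain ⟨ha, hb⟩ := X_exp h0 h1
  have hp : 0 < Real.exp τ - 1 := by nlinarith
  have e : 1 / τ - 1 / 2 = (2 - τ) / (2 * τ) := by field_simp
  rw [e, div_le_div_iff₀ (by positivity) hp]
  have h2 : (2 - τ) * (Real.exp τ - 1) ≤ (2 - τ) * (τ + τ ^ 2 / 2 + 2 / 9 * τ ^ 3) := by
    apply mul_le_mul_of_nonneg_left <;> linarith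
  have h3 : (0 : ℝ) < τ ^ 3 := by positivity
  nlinarith [pow_pos h0 4]

lemma X_s {n : ℕ} (hn : 150 ≤ n) {x θ : ℝ} (hx : 0 < x) (hx20 : x ≤ 20) (hxθ : x ≤ n * θ)
    (hθ : θ ≤ Real.pi) :
    x ^ 2 * (1 - x ^ 2 / 180000) / (n : ℝ) ^ 2 ≤ 4 * Real.sin (θ / 2) ^ 2 := by
  have hn' : (150 : ℝ) ≤ n := by exact_mod_cast hn
  have hn0 : (0 : ℝ) < n := by linarith
  set y := x / n with hy
  have hy0 : 0 < y := by positivity
  have hyθ : y ≤ θ := by rw [hy, div_le_iff₀ hn0]; linarith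
  have hy1 : y ≤ 20 / 150 := by
    rw [hy]; gcongr
  have hyy : y ^ 2 ≤ x ^ 2 / 22500 := by
    rw [hy, div_pow]
    gcongr
    nlinarith
  have h1 : Real.sin (y / 2) ≤ Real.sin (θ / 2) :=
    Real.sin_le_sin_of_le_of_le_pi_div_two (by linarith [Real.pi_pos]) (by linarith) (by linarith)
  have h2' := Real.sin_gt_sub_cube (x := y / 2) (by linarith)
  have h2 : y / 2 - (y / 2) ^ 3 / 4 < Real.sin (y / 2) := by
    have : 0 < (y / 2) ^ 3 := by positivity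
    linarith
  have h3 : 0 ≤ y / 2 - (y / 2) ^ 3 / 4 := by nlinarith [mul_pos hy0 hy0, mul_pos (mul_pos hy0 hy0) hy0]
  have h4 : (y / 2 - (y / 2) ^ 3 / 4) ^ 2 ≤ Real.sin (θ / 2) ^ 2 := by
    apply pow_le_pow_left₀ h3; linarith
  have h5 : y ^ 2 * (1 - y ^ 2 / 8) ≤ 4 * (y / 2 - (y / 2) ^ 3 / 4) ^ 2 := by
    have : 0 ≤ y ^ 6 := by positivity
    nlinarith
  have h6 : x ^ 2 * (1 - x ^ 2 / 180000) / (n : ℝ) ^ 2 = y ^ 2 * (1 - x ^ 2 / 180000) := by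
    rw [hy]; field_simp
  rw [h6]
  have h7 : y ^ 2 * (1 - x ^ 2 / 180000) ≤ y ^ 2 * (1 - y ^ 2 / 8) := by
    apply mul_le_mul_of_nonneg_left _ (by positivity)
    linarith
  linarith

lemma X_den {n : ℕ} (hn : 150 ≤ n) {c x θ R : ℝ} (hc : 0 < c) (hc2 : c ≤ 2) (hx : 0 < x)
    (hx20 : x ≤ 20) (hxθ : x ≤ n * θ) (hθ : θ ≤ Real.pi)
    (hR : R ≤ c ^ 2 + x ^ 2 * (1 - x ^ 2 / 180000)) :
    (1 + c / n) * (R / (n : ℝ) ^ 2)
      ≤ (Real.exp (c / n) - 1) ^ 2 + 4 * Real.exp (c / n) * Real.sin (θ / 2) ^ 2 := by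
  have hn' : (150 : ℝ) ≤ n := by exact_mod_cast hn
  have hn0 : (0 : ℝ) < n := by linarith
  have hs := X_s hn hx hx20 hxθ hθ
  set τ := c / (n : ℝ) with hτ
  have hτ0 : 0 < τ := by positivity
  have hτ1 : τ ≤ 1 := by rw [hτ, div_le_one hn0]; linarith
  obtain ⟨ha, hb⟩ := X_exp hτ0 hτ1
  have h1 : (1 + τ) * τ ^ 2 ≤ (Real.exp τ - 1) ^ 2 := by
    have h2 : (τ + τ ^ 2 / 2) ^ 2 ≤ (Real.exp τ - 1) ^ 2 :=
      pow_le_pow_left₀ (by positivity) (by linarith) 2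
    nlinarith [pow_pos hτ0 4]
  have h2 : (1 + τ) * (x ^ 2 * (1 - x ^ 2 / 180000) / (n : ℝ) ^ 2)
      ≤ Real.exp τ * (4 * Real.sin (θ / 2) ^ 2) := by
    apply mul_le_mul (by nlinarith) hs _ (Real.exp_pos _).le
    have : x ^ 2 ≤ 400 := by nlinarith
    have : 0 ≤ 1 - x ^ 2 / 180000 := by linarith
    positivity
  have h3 : R / (n : ℝ) ^ 2 ≤ τ ^ 2 + x ^ 2 * (1 - x ^ 2 / 180000) / (n : ℝ) ^ 2 := by
    rw [hτ, div_pow, ← add_div]
    gcongr
  have h4 : (1 + τ) * (R / (n : ℝ) ^ 2)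
      ≤ (1 + τ) * (τ ^ 2 + x ^ 2 * (1 - x ^ 2 / 180000) / (n : ℝ) ^ 2) :=
    mul_le_mul_of_nonneg_left h3 (by linarith)
  nlinarith

/-- modulus bound -/
lemma X_mod {n : ℕ} (hn : 150 ≤ n) {c x r θ L a1 b : ℝ} (hc : 0 < c) (hc2 : c ≤ 2) (hx : 0 < x)
    (hx20 : x ≤ 20) (hxθ : x ≤ n * θ) (hθ : θ ≤ Real.pi) (hr : 0 < r)
    (hR : r ^ 2 ≤ c ^ 2 + x ^ 2 * (1 - x ^ 2 / 180000))
    (hA : a1 ≤ 1 + Real.exp (-c) - 2 * Real.exp (-(2 * c)))
    (hB : 1 + Real.exp (-c) + 2 * Real.exp (-(2 * c)) ≤ b)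
    (hpos : b * c / r ≤ a1)
    (hL : L ≤ a1 * (1 / c - 1 / 300) - b / r * (1 - c / 300 + c ^ 2 / 60000)) :
    L * n ≤ S1 n (c / n) θ := by
  have hn' : (150 : ℝ) ≤ n := by exact_mod_cast hn
  have hn0 : (0 : ℝ) < n := by linarith
  have hden := X_den hn hc hc2 hx hx20 hxθ hθ hR
  have hτ0 : 0 < c / (n : ℝ) := by positivity
  have hτ1 : c / (n : ℝ) ≤ 1 := by rw [div_le_one hn0]; linarith
  have hinv := X_inv hτ0 hτ1
  have h := S1_mod n hτ0 θ
  have e1 : (n : ℝ) * (c / n) = c := by field_simp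
  have e2 : 2 * (n : ℝ) * (c / n) = 2 * c := by field_simp
  rw [e1, e2] at h
  set A := 1 + Real.exp (-c) - 2 * Real.exp (-(2 * c)) with hAd
  set B := 1 + Real.exp (-c) + 2 * Real.exp (-(2 * c)) with hBd
  set den := (Real.exp (c / n) - 1) ^ 2 + 4 * Real.exp (c / n) * Real.sin (θ / 2) ^ 2 with hdd
  have hB0 : 0 < B := by positivity
  have hb0 : 0 < b := by linarith
  have ha0 : 0 < a1 := lt_of_lt_of_le (by positivity) hpos
  obtain ⟨m, hm⟩ : ∃ m : ℝ, m = 1 / n := ⟨_, rfl⟩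
  have hm0 : 0 < m := by rw [hm]; positivity
  have hm1 : m ≤ 1 / 150 := by rw [hm]; gcongr
  have eτ : c / (n : ℝ) = c * m := by rw [hm]; ring
  -- first term
  have hfirst : (n : ℝ) * (a1 * (1 / c - m / 2)) ≤ A / (Real.exp (c / n) - 1) := by
    have e3 : (n : ℝ) * (a1 * (1 / c - m / 2)) = a1 * (1 / (c / n) - 1 / 2) := by
      rw [hm]; field_simp
    rw [e3, div_eq_mul_one_div A]
    have hq : 0 ≤ 1 / (c / (n : ℝ)) - 1 / 2 := by
      have : (1 : ℝ) ≤ 1 / (c / (n : ℝ)) := by rw [le_div_iff₀ hτ0]; linarith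
      linarith
    apply mul_le_mul hA hinv hq (by linarith)
  -- second term
  set k := 1 - c * m / 2 + 3 * (c * m) ^ 2 / 8 with hk
  have hcm : 0 < c * m := by positivity
  have hcm1 : c * m ≤ 1 := by rw [← eτ]; exact hτ1
  have hk0 : 0 < k := by
    rw [hk]; nlinarith [sq_nonneg (c * m)]
  have hk2 : 1 ≤ (1 + c * m) * k ^ 2 := by
    rw [hk]
    nlinarith [pow_pos hcm 3, pow_pos hcm 4, pow_pos hcm 5, mul_nonneg (pow_pos hcm 3).le (sub_nonneg.2 hcm1)]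
  have hsq : r / (n * k) ≤ Real.sqrt den := by
    apply Real.le_sqrt_of_sq_le
    refine le_trans ?_ hden
    rw [eτ, div_pow, mul_pow, ← mul_div_assoc, div_le_div_iff₀ (by positivity) (by positivity)]
    have : 0 ≤ r ^ 2 * (n : ℝ) ^ 2 := by positivity
    nlinarith
  have hsecond : B / Real.sqrt den ≤ n * (b / r * k) := by
    have h3 : 0 < r / (n * k) := by positivity
    calc B / Real.sqrt den ≤ b / (r / (n * k)) := by gcongr
      _ = n * (b / r * k) := by field_simp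
  have hmain : L ≤ a1 * (1 / c - m / 2) - b / r * k := by
    refine hL.trans ?_
    have e4 : (a1 * (1 / c - m / 2) - b / r * k)
        - (a1 * (1 / c - 1 / 300) - b / r * (1 - c / 300 + c ^ 2 / 60000))
        = (1 / 150 - m) * (a1 / 2 - b * c / r / 2 + 3 / 8 * (b / r) * c ^ 2 * (m + 1 / 150)) := by
      rw [hk]; ring
    have h5 : 0 ≤ (1 / 150 - m) * (a1 / 2 - b * c / r / 2 + 3 / 8 * (b / r) * c ^ 2 * (m + 1 / 150)) := by
      apply mul_nonneg (by linarith)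
      have : 0 ≤ 3 / 8 * (b / r) * c ^ 2 * (m + 1 / 150) := by positivity
      linarith
    linarith
  calc L * n ≤ (a1 * (1 / c - m / 2) - b / r * k) * n := by gcongr
    _ = (n : ℝ) * (a1 * (1 / c - m / 2)) - n * (b / r * k) := by ring
    _ ≤ A / (Real.exp (c / n) - 1) - B / Real.sqrt den := by linarith
    _ ≤ _ := h

/-- bound for the ratio `(e^τ - 1)/den` -/
lemma X_ratio {n : ℕ} (hn : 150 ≤ n) {c x θ R : ℝ} (hc : 0 < c) (hc2 : c ≤ 2) (hx : 0 < x)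
    (hx20 : x ≤ 20) (hxθ : x ≤ n * θ) (hθ : θ ≤ Real.pi) (hR0 : 0 < R)
    (hR : R ≤ c ^ 2 + x ^ 2 * (1 - x ^ 2 / 180000)) :
    (Real.exp (c / n) * Real.cos θ - 1)
        / ((Real.exp (c / n) - 1) ^ 2 + 4 * Real.exp (c / n) * Real.sin (θ / 2) ^ 2)
      ≤ n * (c / R * (1 - c / n / 2 + 3 / 4 * (c / n) ^ 2)) := by
  have hn' : (150 : ℝ) ≤ n := by exact_mod_cast hn
  have hn0 : (0 : ℝ) < n := by linarith
  have hden := X_den hn hc hc2 hx hx20 hxθ hθ hR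
  obtain ⟨τ, hτ⟩ : ∃ τ : ℝ, τ = c / n := ⟨_, rfl⟩
  rw [← hτ] at hden ⊢
  have hτ0 : 0 < τ := by rw [hτ]; positivity
  have hτ1 : τ ≤ 1 := by rw [hτ, div_le_one hn0]; linarith
  obtain ⟨ha, hb⟩ := X_exp hτ0 hτ1
  set den := (Real.exp τ - 1) ^ 2 + 4 * Real.exp τ * Real.sin (θ / 2) ^ 2 with hdd
  have hden0 : 0 < (1 + τ) * (R / (n : ℝ) ^ 2) := by positivity
  have hnum : Real.exp τ * Real.cos θ - 1 ≤ τ + τ ^ 2 / 2 + 2 / 9 * τ ^ 3 := by
    have := Real.cos_le_one θ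
    have := Real.exp_pos τ
    nlinarith
  have hnum0 : 0 < τ + τ ^ 2 / 2 + 2 / 9 * τ ^ 3 := by positivity
  calc (Real.exp τ * Real.cos θ - 1) / den ≤ (τ + τ ^ 2 / 2 + 2 / 9 * τ ^ 3) / den := by
        apply div_le_div_of_nonneg_right hnum (by linarith)
    _ ≤ (τ + τ ^ 2 / 2 + 2 / 9 * τ ^ 3) / ((1 + τ) * (R / (n : ℝ) ^ 2)) := by
        apply div_le_div_of_nonneg_left hnum0.le hden0 hden
    _ ≤ n * (c / R * (1 - τ / 2 + 3 / 4 * τ ^ 2)) := by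
        rw [div_le_iff₀ hden0]
        have hc' : c = τ * n := by rw [hτ]; field_simp
        have e : (n : ℝ) * (c / R * (1 - τ / 2 + 3 / 4 * τ ^ 2)) * ((1 + τ) * (R / (n : ℝ) ^ 2))
            = τ * ((1 - τ / 2 + 3 / 4 * τ ^ 2) * (1 + τ)) := by
          rw [hc']; field_simp
        rw [e]
        nlinarith [pow_pos hτ0 3, pow_pos hτ0 4]

/-- real part bound -/
lemma X_re {n : ℕ} (hn : 150 ≤ n) {c x R θ L a1 b : ℝ} (hc : 1 / 2 ≤ c) (hc2 : c ≤ 2)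
    (hx0 : 0 < x) (hpθ : Real.pi / 2 ≤ n * θ) (hxθ : x ≤ n * θ) (hθ : n * θ ≤ Real.pi) (hR0 : 0 < R)
    (hR : R ≤ c ^ 2 + x ^ 2 * (1 - x ^ 2 / 180000))
    (hA : a1 ≤ 1 + Real.exp (-c) - 2 * Real.exp (-(2 * c)))
    (hB : 1 + 2 * Real.exp (-(2 * c)) ≤ b)
    (hpos : b * c ^ 2 / R ≤ a1)
    (hL : L ≤ a1 * (1 / c - 1 / 300) - b * c / R * (1 - c / 300 + c ^ 2 / 30000)) :
    L * n ≤ S1 n (c / n) θ := by
  have hn' : (150 : ℝ) ≤ n := by exact_mod_cast hn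
  have hn0 : (0 : ℝ) < n := by linarith
  have hc0 : 0 < c := by linarith
  have hpi := Real.pi_gt_three
  have hpi4 := Real.pi_lt_four
  have hx20 : x ≤ 20 := by linarith
  have hθ0 : 0 < θ := by
    by_contra hcon
    push Not at hcon
    nlinarith
  have hθn : θ ≤ 4 / 150 := by
    by_contra hcon
    push Not at hcon
    nlinarith
  have hθpi : θ ≤ Real.pi := by linarith
  have hratio := X_ratio hn hc0 hc2 hx0 hx20 hxθ hθpi hR0 hR
  have hτ0 : 0 < c / (n : ℝ) := by positivity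
  have hτ1 : c / (n : ℝ) ≤ 1 := by rw [div_le_one hn0]; linarith
  have hinv := X_inv hτ0 hτ1
  have h3 : 1 ≤ Real.exp (c / n) * Real.cos θ := by
    have h4 : 1 + c / n ≤ Real.exp (c / n) := by
      have := Real.add_one_le_exp (c / (n : ℝ)); linarith
    have h5 := Real.one_sub_sq_div_two_le_cos (x := θ)
    have h6 : θ ^ 2 ≤ 16 / (n : ℝ) ^ 2 := by
      rw [le_div_iff₀ (by positivity)]
      have : θ * n ≤ 4 := by linarith
      nlinarith [mul_pos hθ0 hn0]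
    have h7 : (1 + c / n) * (1 - 8 / (n : ℝ) ^ 2) ≤ Real.exp (c / n) * Real.cos θ := by
      have h9 : 8 / (n : ℝ) ^ 2 = 16 / (n : ℝ) ^ 2 / 2 := by ring
      apply mul_le_mul h4 (by linarith) _ (Real.exp_pos _).le
      rw [sub_nonneg, div_le_one (by positivity)]
      nlinarith
    refine le_trans ?_ h7
    have h8 : 8 / (n : ℝ) ^ 2 * (1 + c / n) ≤ c / n := by
      rw [div_mul_eq_mul_div, div_le_div_iff₀ (by positivity) hn0]
      have : c / n ≤ 1 := hτ1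
      nlinarith
    linarith
  have h := S1_re n hτ0 hpθ hθ h3
  have e1 : (n : ℝ) * (c / n) = c := by field_simp
  have e2 : 2 * (n : ℝ) * (c / n) = 2 * c := by field_simp
  rw [e1, e2] at h
  set A := 1 + Real.exp (-c) - 2 * Real.exp (-(2 * c)) with hAd
  set B := 1 + 2 * Real.exp (-(2 * c)) with hBd
  set den := (Real.exp (c / n) - 1) ^ 2 + 4 * Real.exp (c / n) * Real.sin (θ / 2) ^ 2 with hdd
  have hB0 : 0 < B := by positivity
  have hb0 : 0 < b := by linarith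
  have ha0 : 0 < a1 := lt_of_lt_of_le (by positivity) hpos
  obtain ⟨m, hm⟩ : ∃ m : ℝ, m = 1 / n := ⟨_, rfl⟩
  have hm0 : 0 < m := by rw [hm]; positivity
  have hm1 : m ≤ 1 / 150 := by rw [hm]; gcongr
  have eτ : c / (n : ℝ) = c * m := by rw [hm]; ring
  have hfirst : (n : ℝ) * (a1 * (1 / c - m / 2)) ≤ A / (Real.exp (c / n) - 1) := by
    have e3 : (n : ℝ) * (a1 * (1 / c - m / 2)) = a1 * (1 / (c / n) - 1 / 2) := by
      rw [hm]; field_simp
    rw [e3, div_eq_mul_one_div A]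
    have hq : 0 ≤ 1 / (c / (n : ℝ)) - 1 / 2 := by
      have : (1 : ℝ) ≤ 1 / (c / (n : ℝ)) := by rw [le_div_iff₀ hτ0]; linarith
      linarith
    apply mul_le_mul hA hinv hq (by linarith)
  rw [eτ] at hratio
  set k := 1 - c * m / 2 + 3 / 4 * (c * m) ^ 2 with hk
  have hcm : 0 < c * m := by positivity
  have hcm1 : c * m ≤ 1 := by rw [← eτ]; exact hτ1
  have hk0 : 0 < k := by
    rw [hk]; nlinarith [sq_nonneg (c * m)]
  have hsecond : B * (Real.exp (c / n) * Real.cos θ - 1) / den ≤ n * (b * c / R * k) := by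
    rw [mul_div_assoc]
    rw [← eτ] at hratio
    calc B * ((Real.exp (c / n) * Real.cos θ - 1) / den) ≤ B * (n * (c / R * k)) :=
          mul_le_mul_of_nonneg_left hratio hB0.le
      _ ≤ b * (n * (c / R * k)) := by
          apply mul_le_mul_of_nonneg_right hB (by positivity)
      _ = _ := by ring
  have hmain : L ≤ a1 * (1 / c - m / 2) - b * c / R * k := by
    refine hL.trans ?_
    have e4 : (a1 * (1 / c - m / 2) - b * c / R * k)
        - (a1 * (1 / c - 1 / 300) - b * c / R * (1 - c / 300 + c ^ 2 / 30000))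
        = (1 / 150 - m) * (a1 / 2 - b * c ^ 2 / R / 2
          + 3 / 4 * (b / R) * c ^ 3 * (m + 1 / 150)) := by
      rw [hk]; ring
    have h5 : 0 ≤ (1 / 150 - m) * (a1 / 2 - b * c ^ 2 / R / 2
          + 3 / 4 * (b / R) * c ^ 3 * (m + 1 / 150)) := by
      apply mul_nonneg (by linarith)
      have : 0 ≤ 3 / 4 * (b / R) * c ^ 3 * (m + 1 / 150) := by positivity
      linarith
    linarith
  calc L * n ≤ (a1 * (1 / c - m / 2) - b * c / R * k) * n := by gcongr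
    _ = (n : ℝ) * (a1 * (1 / c - m / 2)) - n * (b * c / R * k) := by ring
    _ ≤ A / (Real.exp (c / n) - 1) - B * (Real.exp (c / n) * Real.cos θ - 1) / den := by linarith
    _ ≤ _ := h

/-! ### numbers -/

lemma X_e05 : 0.606530 ≤ Real.exp (-(1 / 2)) ∧ Real.exp (-(1 / 2)) ≤ 0.606531 := by
  have h := exp_neg_half_mul 1
  norm_num at h ⊢
  constructor <;> linarith

lemma X_e1 : 0.367879 ≤ Real.exp (-1) ∧ Real.exp (-1) ≤ 0.367880 := by
  have h := exp_neg_half_mul 2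
  norm_num at h ⊢
  constructor <;> linarith

lemma X_e075 : 0.472366 ≤ Real.exp (-(3 / 4)) ∧ Real.exp (-(3 / 4)) ≤ 0.472367 := by
  have h := exp_neg_quarter_mul 3
  norm_num at h ⊢
  constructor <;> linarith

lemma X_e15 : 0.223130 ≤ Real.exp (-(3 / 2)) ∧ Real.exp (-(3 / 2)) ≤ 0.223131 := by
  have h := exp_neg_half_mul 3
  norm_num at h ⊢
  constructor <;> linarith

lemma X_e2 : 0.135335 ≤ Real.exp (-2) ∧ Real.exp (-2) ≤ 0.135336 := by
  have h := exp_neg_half_mul 4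
  norm_num at h ⊢
  constructor <;> linarith

lemma X_e3 : 0.049787 ≤ Real.exp (-3) ∧ Real.exp (-3) ≤ 0.049788 := by
  have h := exp_neg_half_mul 6
  norm_num at h ⊢
  constructor <;> linarith

lemma X_e4 : 0.018315 ≤ Real.exp (-4) ∧ Real.exp (-4) ≤ 0.018316 := by
  have h := exp_neg_half_mul 8
  norm_num at h ⊢
  constructor <;> linarith

end C048
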