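import Pool.Agent.helper18.KU.X

/-! Modules X05, X075, X15: the theorems. -/

namespace C048

open Finset

theorem X05a (n : ℕ) (hn : 150 ≤ n) {θ : ℝ} (h0 : 2 ≤ n * θ) (h1 : n * θ ≤ 4) :
    1.415 * n ≤ S1 n (1 / (2 * n)) θ + S1 n (1 / n) (2 * θ) / 2 := by
  have hn' : (150 : ℝ) ≤ n := by exact_mod_cast hn
  have hn0 : (0 : ℝ) < n := by linarith
  have e : (1 : ℝ) / (2 * n) = (1 / 2) / n := by rw [div_div]
  rw [e]
  have hθn : θ ≤ 4 / 150 := by
    by_contra hcon
    push Not at hcon
    nlinarith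
  have hp3 := Real.pi_gt_d4
  have hp4 := Real.pi_lt_d4
  obtain ⟨l05, u05⟩ := X_e05
  obtain ⟨l1, u1⟩ := X_e1
  obtain ⟨l2, u2⟩ := X_e2
  rcases le_total (n * θ) Real.pi with h | h
  · have hA := X_re hn (c := 1 / 2) (x := 2) (R := 4.2499) (θ := θ) (L := 1.5347) (a1 := 0.87077)
      (b := 1.73576) (by norm_num) (by norm_num) (by norm_num) (by linarith) h0 h (by norm_num)
      (by norm_num) (by rw [show (2:ℝ) * (1 / 2) = 1 by norm_num]; linarith) (by rw [show (2:ℝ) * (1 / 2) = 1 by norm_num]; linarith) (by norm_num)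
      (by norm_num)
    have hB := S1_nonneg n (1 / n) (2 * θ)
    linarith
  · have hA := X_mod hn (c := 1 / 2) (x := 3.1415) (r := 3.1809) (θ := θ) (L := 1.0034)
      (a1 := 0.87077) (b := 2.342291) (by norm_num) (by norm_num) (by norm_num) (by norm_num)
      (by linarith) (by linarith) (by norm_num)
      (by norm_num) (by rw [show (2:ℝ) * (1 / 2) = 1 by norm_num]; linarith) (by rw [show (2:ℝ) * (1 / 2) = 1 by norm_num]; linarith) (by norm_num)
      (by norm_num)
    have hB := X_mod hn (c := 1) (x := 6.283) (r := 6.3613) (θ := 2 * θ) (L := 0.8367)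
      (a1 := 1.097207) (b := 1.638552) (by norm_num) (by norm_num) (by norm_num) (by norm_num)
      (by linarith) (by linarith) (by norm_num)
      (by norm_num) (by rw [show (2:ℝ) * (1) = 2 by norm_num]; linarith) (by rw [show (2:ℝ) * (1) = 2 by norm_num]; linarith) (by norm_num)
      (by norm_num)
    linarith

theorem X05b (n : ℕ) (hn : 150 ≤ n) {θ : ℝ} (h0 : 4 ≤ n * θ) (h1 : θ ≤ Real.pi) :
    1.59 * n ≤ S1 n (1 / (2 * n)) θ + S1 n (1 / n) (2 * θ) / 2 := by
  have hn' : (150 : ℝ) ≤ n := by exact_mod_cast hn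
  have hn0 : (0 : ℝ) < n := by linarith
  have e : (1 : ℝ) / (2 * n) = (1 / 2) / n := by rw [div_div]
  rw [e]
  have hp3 := Real.pi_gt_d4
  have hp4 := Real.pi_lt_d4
  obtain ⟨l05, u05⟩ := X_e05
  obtain ⟨l1, u1⟩ := X_e1
  obtain ⟨l2, u2⟩ := X_e2
  rcases le_total (n * θ) 20 with h | h
  · have hθn : θ ≤ 20 / 150 := by
      by_contra hcon
      push Not at hcon
      nlinarith
    have hA := X_mod hn (c := 1 / 2) (x := 4) (r := 4.0309) (θ := θ) (L := 1.1584)
      (a1 := 0.87077) (b := 2.342291) (by norm_num) (by norm_num) (by norm_num) (by norm_num)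
      (by linarith) (by linarith) (by norm_num)
      (by norm_num) (by rw [show (2:ℝ) * (1 / 2) = 1 by norm_num]; linarith) (by rw [show (2:ℝ) * (1 / 2) = 1 by norm_num]; linarith) (by norm_num)
      (by norm_num)
    have hB := X_mod hn (c := 1) (x := 8) (r := 8.0607) (θ := 2 * θ) (L := 0.8909)
      (a1 := 1.097207) (b := 1.638552) (by norm_num) (by norm_num) (by norm_num) (by norm_num)
      (by linarith) (by linarith) (by norm_num)
      (by norm_num) (by rw [show (2:ℝ) * (1) = 2 by norm_num]; linarith) (by rw [show (2:ℝ) * (1) = 2 by norm_num]; linarith) (by norm_num)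
      (by norm_num)
    linarith
  · have hA := X_mod hn (c := 1 / 2) (x := 20) (r := 19.983) (θ := θ) (L := 1.62)
      (a1 := 0.87077) (b := 2.342291) (by norm_num) (by norm_num) (by norm_num) (by norm_num)
      (by linarith) (by linarith) (by norm_num)
      (by norm_num) (by rw [show (2:ℝ) * (1 / 2) = 1 by norm_num]; linarith) (by rw [show (2:ℝ) * (1 / 2) = 1 by norm_num]; linarith) (by norm_num)
      (by norm_num)
    have hB := S1_nonneg n (1 / n) (2 * θ)
    linarith

theorem X075 (n : ℕ) (hn : 150 ≤ n) {θ : ℝ} (h0 : 2 ≤ n * θ) (h1 : θ ≤ Real.pi) :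
    1.03 * n ≤ S1 n (3 / (4 * n)) θ + S1 n (3 / (2 * n)) (2 * θ) / 2 := by
  have hn' : (150 : ℝ) ≤ n := by exact_mod_cast hn
  have hn0 : (0 : ℝ) < n := by linarith
  have e : (3 : ℝ) / (4 * n) = (3 / 4) / n := by rw [div_div]
  have e' : (3 : ℝ) / (2 * n) = (3 / 2) / n := by rw [div_div]
  rw [e, e']
  have hp3 := Real.pi_gt_d4
  have hp4 := Real.pi_lt_d4
  obtain ⟨l075, u075⟩ := X_e075
  obtain ⟨l15, u15⟩ := X_e15
  obtain ⟨l3, u3⟩ := X_e3
  rcases le_total (n * θ) Real.pi with h | h
  · have hA := X_re hn (c := 3 / 4) (x := 2) (R := 4.5624) (θ := θ) (L := 1.1275) (a1 := 1.026104)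
      (b := 1.446262) (by norm_num) (by norm_num) (by norm_num) (by linarith) h0 h (by norm_num)
      (by norm_num) (by rw [show (2:ℝ) * (3 / 4) = 3 / 2 by norm_num]; linarith) (by rw [show (2:ℝ) * (3 / 4) = 3 / 2 by norm_num]; linarith) (by norm_num)
      (by norm_num)
    have hB := S1_nonneg n (3 / 2 / n) (2 * θ)
    linarith
  rcases le_total (n * θ) 20 with h' | h'
  · have hθn : θ ≤ 20 / 150 := by
      by_contra hcon
      push Not at hcon
      nlinarith
    have hA := X_mod hn (c := 3 / 4) (x := 3.1415) (r := 3.2296) (θ := θ) (L := 0.772)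
      (a1 := 1.026104) (b := 1.918629) (by norm_num) (by norm_num) (by norm_num) (by norm_num)
      (by linarith) (by linarith) (by norm_num)
      (by norm_num) (by rw [show (2:ℝ) * (3 / 4) = 3 / 2 by norm_num]; linarith) (by rw [show (2:ℝ) * (3 / 4) = 3 / 2 by norm_num]; linarith) (by norm_num)
      (by norm_num)
    have hB := X_mod hn (c := 3 / 2) (x := 6.283) (r := 6.4588) (θ := 2 * θ) (L := 0.5414)
      (a1 := 1.123554) (b := 1.322707) (by norm_num) (by norm_num) (by norm_num) (by norm_num)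
      (by linarith) (by linarith) (by norm_num)
      (by norm_num) (by rw [show (2:ℝ) * (3 / 2) = 3 by norm_num]; linarith) (by rw [show (2:ℝ) * (3 / 2) = 3 by norm_num]; linarith) (by norm_num)
      (by norm_num)
    linarith
  · have hA := X_mod hn (c := 3 / 4) (x := 20) (r := 19.991) (θ := θ) (L := 1.26)
      (a1 := 1.026104) (b := 1.918629) (by norm_num) (by norm_num) (by norm_num) (by norm_num)
      (by linarith) (by linarith) (by norm_num)
      (by norm_num) (by rw [show (2:ℝ) * (3 / 4) = 3 / 2 by norm_num]; linarith) (by rw [show (2:ℝ) * (3 / 4) = 3 / 2 by norm_num]; linarith) (by norm_num)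
      (by norm_num)
    have hB := S1_nonneg n (3 / 2 / n) (2 * θ)
    linarith

theorem X1 (n : ℕ) (hn : 150 ≤ n) {θ : ℝ} (h0 : 2 ≤ n * θ) (h1 : θ ≤ Real.pi) :
    0.59 * n ≤ S1 n (1 / n) θ := by
  have hn' : (150 : ℝ) ≤ n := by exact_mod_cast hn
  have hn0 : (0 : ℝ) < n := by linarith
  have hp3 := Real.pi_gt_d4
  have hp4 := Real.pi_lt_d4
  obtain ⟨l1, u1⟩ := X_e1
  obtain ⟨l2, u2⟩ := X_e2
  rcases le_total (n * θ) Real.pi with h | h
  · have hA := X_re hn (c := 1) (x := 2) (R := 4.9999) (θ := θ) (L := 0.84) (a1 := 1.097207)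
      (b := 1.270672) (by norm_num) (by norm_num) (by norm_num) (by linarith) h0 h (by norm_num)
      (by norm_num) (by rw [show (2:ℝ) * (1) = 2 by norm_num]; linarith) (by rw [show (2:ℝ) * (1) = 2 by norm_num]; linarith) (by norm_num)
      (by norm_num)
    linarith
  · have hA := X_mod hn (c := 1) (x := 3.1415) (r := 3.2967) (θ := θ) (L := 0.598)
      (a1 := 1.097207) (b := 1.638552) (by norm_num) (by norm_num) (by norm_num) (by norm_num)
      (by linarith) (by linarith) (by norm_num)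
      (by norm_num) (by rw [show (2:ℝ) * (1) = 2 by norm_num]; linarith) (by rw [show (2:ℝ) * (1) = 2 by norm_num]; linarith) (by norm_num)
      (by norm_num)
    linarith

theorem X15b (n : ℕ) (hn : 150 ≤ n) {θ : ℝ} (h0 : Real.pi / 2 ≤ n * θ) (h1 : θ ≤ Real.pi) :
    0.3655 * n ≤ S1 n (3 / (2 * n)) θ := by
  have hn' : (150 : ℝ) ≤ n := by exact_mod_cast hn
  have hn0 : (0 : ℝ) < n := by linarith
  have e' : (3 : ℝ) / (2 * n) = (3 / 2) / n := by rw [div_div]
  rw [e']
  have hp3 := Real.pi_gt_d4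
  have hp4 := Real.pi_lt_d4
  obtain ⟨l15, u15⟩ := X_e15
  obtain ⟨l3, u3⟩ := X_e3
  rcases le_total (n * θ) Real.pi with h | h
  · have hA := X_re hn (c := 3 / 2) (x := 1.5707) (R := 4.717) (θ := θ) (L := 0.397)
      (a1 := 1.123554)
      (b := 1.099576) (by norm_num) (by norm_num) (by norm_num) h0 (by linarith) h (by norm_num)
      (by norm_num) (by rw [show (2:ℝ) * (3 / 2) = 3 by norm_num]; linarith) (by rw [show (2:ℝ) * (3 / 2) = 3 by norm_num]; linarith) (by norm_num)
      (by norm_num)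
    linarith
  · have hA := X_mod hn (c := 3 / 2) (x := 3.1415) (r := 3.4811) (θ := θ) (L := 0.3672)
      (a1 := 1.123554) (b := 1.322707) (by norm_num) (by norm_num) (by norm_num) (by norm_num)
      (by linarith) (by linarith) (by norm_num)
      (by norm_num) (by rw [show (2:ℝ) * (3 / 2) = 3 by norm_num]; linarith) (by rw [show (2:ℝ) * (3 / 2) = 3 by norm_num]; linarith) (by norm_num)
      (by norm_num)
    linarith

theorem X2b (n : ℕ) (hn : 150 ≤ n) {θ : ℝ} (h0 : Real.pi / 2 ≤ n * θ) (h1 : θ ≤ Real.pi) :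
    0.225 * n ≤ S1 n (2 / n) θ := by
  have hn' : (150 : ℝ) ≤ n := by exact_mod_cast hn
  have hn0 : (0 : ℝ) < n := by linarith
  have hp3 := Real.pi_gt_d4
  have hp4 := Real.pi_lt_d4
  obtain ⟨l2, u2⟩ := X_e2
  obtain ⟨l4, u4⟩ := X_e4
  rcases le_total (n * θ) Real.pi with h | h
  · have hA := X_re hn (c := 2) (x := 1.5707) (R := 6.467) (θ := θ) (L := 0.227)
      (a1 := 1.098703)
      (b := 1.036632) (by norm_num) (by norm_num) (by norm_num) h0 (by linarith) h (by norm_num)
      (by norm_num) (by rw [show (2:ℝ) * (2) = 4 by norm_num]; linarith) (by rw [show (2:ℝ) * (2) = 4 by norm_num]; linarith) (by norm_num)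
      (by norm_num)
    linarith
  · have hA := X_mod hn (c := 2) (x := 3.1415) (r := 3.724) (θ := θ) (L := 0.233)
      (a1 := 1.098703) (b := 1.171968) (by norm_num) (by norm_num) (by norm_num) (by norm_num)
      (by linarith) (by linarith) (by norm_num)
      (by norm_num) (by rw [show (2:ℝ) * (2) = 4 by norm_num]; linarith) (by rw [show (2:ℝ) * (2) = 4 by norm_num]; linarith) (by norm_num)
      (by norm_num)
    linarith

end C048
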