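import Pool.Agent.helper18.KU.X

/-! Modules X05, X075, X15: the theorems. -/

namespace C048

open Finset

lemma X_expsq {τ : ℝ} (h0 : 0 < τ) (h1 : τ ≤ 2 / 150) :
    (Real.exp τ - 1) ^ 2 ≤ Real.exp τ * (1.0001 * τ ^ 2) := by
  obtain ⟨hea, heb⟩ := X_exp h0 (by linarith)
  have hp : 0 ≤ Real.exp τ - 1 := by
    have : 0 ≤ τ ^ 2 := by positivity
    linarith
  have g2 : (Real.exp τ - 1) ^ 2 ≤ (τ + τ ^ 2 / 2 + 2 / 9 * τ ^ 3) ^ 2 := by
    apply pow_le_pow_left₀ hp (by linarith)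
  have g3 : (1 + τ + τ ^ 2 / 2) * (1.0001 * τ ^ 2) ≤ Real.exp τ * (1.0001 * τ ^ 2) := by
    apply mul_le_mul_of_nonneg_right hea (by positivity)
  have g6 : τ ^ 2 ≤ 0.00018 := by
    calc τ ^ 2 ≤ (2 / 150) ^ 2 := by gcongr
      _ ≤ 0.00018 := by norm_num
  have g5 : (1 + τ / 2 + 2 / 9 * τ ^ 2) ^ 2 ≤ (1 + τ + τ ^ 2 / 2) * 1.0001 := by
    have g7 : τ ^ 3 ≤ 0.00018 * (2 / 150) := by
      calc τ ^ 3 = τ ^ 2 * τ := by ring
        _ ≤ 0.00018 * (2 / 150) := mul_le_mul g6 h1 h0.le (by norm_num)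
    have g8 : τ ^ 4 ≤ 0.00018 * 0.00018 := by
      calc τ ^ 4 = τ ^ 2 * τ ^ 2 := by ring
        _ ≤ 0.00018 * 0.00018 := mul_le_mul g6 g6 (by positivity) (by norm_num)
    have e : (1 + τ / 2 + 2 / 9 * τ ^ 2) ^ 2
        = 1 + τ + (1 / 4 + 4 / 9) * τ ^ 2 + 2 / 9 * τ ^ 3 + 4 / 81 * τ ^ 4 := by ring
    rw [e]
    linarith
  have g9 : 0 ≤ τ ^ 2 := by positivity
  calc (Real.exp τ - 1) ^ 2 ≤ (τ + τ ^ 2 / 2 + 2 / 9 * τ ^ 3) ^ 2 := g2
    _ = (1 + τ / 2 + 2 / 9 * τ ^ 2) ^ 2 * τ ^ 2 := by ring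
    _ ≤ (1 + τ + τ ^ 2 / 2) * 1.0001 * τ ^ 2 := mul_le_mul_of_nonneg_right g5 g9
    _ = (1 + τ + τ ^ 2 / 2) * (1.0001 * τ ^ 2) := by ring
    _ ≤ _ := g3

lemma X_theta {n : ℕ} (hn : 150 ≤ n) {θ0 : ℝ} (hnθ : (n : ℝ) * θ0 = Real.pi / 4) :
    0 < θ0 ∧ θ0 ≤ 1 / 150 ∧ 4 * Real.sin (θ0 / 2) ^ 2 ≤ 0.617 / (n : ℝ) ^ 2
      ∧ 0.7853 / (n : ℝ) ≤ Real.sin θ0 := by
  have hn' : (150 : ℝ) ≤ n := by exact_mod_cast hn
  have hn0 : (0 : ℝ) < n := by linarith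
  have hp3 := Real.pi_gt_d4
  have hp4 := Real.pi_lt_d4
  have hθ0 : θ0 = Real.pi / 4 / n := by rw [← hnθ]; field_simp
  have hθ0p : 0 < θ0 := by rw [hθ0]; positivity
  have hθ0u : θ0 ≤ 1 / 150 := by
    rw [hθ0, div_le_div_iff₀ hn0 (by norm_num)]; linarith
  have g2 : Real.sin (θ0 / 2) ^ 2 ≤ (θ0 / 2) ^ 2 := by
    have h3 := Real.sin_lt (x := θ0 / 2) (by linarith)
    have h4 := Real.sin_nonneg_of_nonneg_of_le_pi (x := θ0 / 2) (by linarith) (by linarith)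
    apply pow_le_pow_left₀ h4 h3.le
  have g3 : θ0 ^ 2 ≤ 0.617 / (n : ℝ) ^ 2 := by
    rw [hθ0, div_pow]
    have : (Real.pi / 4) ^ 2 ≤ 0.617 := by
      calc (Real.pi / 4) ^ 2 ≤ (3.1416 / 4) ^ 2 := by gcongr
        _ ≤ 0.617 := by norm_num
    gcongr
  refine ⟨hθ0p, hθ0u, ?_, ?_⟩
  · calc 4 * Real.sin (θ0 / 2) ^ 2 ≤ 4 * (θ0 / 2) ^ 2 := by linarith
      _ = θ0 ^ 2 := by ring
      _ ≤ _ := g3
  · have h3 := Real.sin_gt_sub_cube (x := θ0) hθ0p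
    have h4 : 0.7853 / (n : ℝ) ≤ θ0 - θ0 ^ 3 / 6 := by
      have e5 : 0.7853 / (n : ℝ) = 0.7853 / (Real.pi / 4) * θ0 := by
        rw [hθ0]; field_simp
      have h5 : 0.7853 / (Real.pi / 4) ≤ 0.99999 := by
        rw [div_le_iff₀ (by positivity)]; linarith
      have h6 : θ0 ^ 2 ≤ 1 / 22500 := by
        calc θ0 ^ 2 ≤ (1 / 150) ^ 2 := by gcongr
          _ = 1 / 22500 := by norm_num
      rw [e5]
      have h7 : 0.7853 / (Real.pi / 4) * θ0 ≤ 0.99999 * θ0 := by gcongr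
      have h8 : θ0 ^ 3 ≤ 1 / 22500 * θ0 := by
        calc θ0 ^ 3 = θ0 ^ 2 * θ0 := by ring
          _ ≤ _ := mul_le_mul_of_nonneg_right h6 hθ0p.le
      linarith
    linarith

/-- closed form at `n θ = π / 4` -/
lemma X_clo {n : ℕ} (hn : 150 ≤ n) {c R θ L a1 p q : ℝ} (hc : 1 ≤ c) (hc2 : c ≤ 2)
    (h0 : Real.pi / 4 ≤ n * θ) (h1 : n * θ ≤ Real.pi / 2)
    (hR0 : 0 < R) (hR : R ≤ c ^ 2 + 0.7853 ^ 2 * (1 - 0.7853 ^ 2 / 180000))
    (hA : a1 ≤ 1 + Real.exp (-c) - 2 * Real.exp (-(2 * c)))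
    (hp : 1 + Real.exp (-c) * (Real.sqrt 2 / 2) ≤ p)
    (hq0 : 0 ≤ q) (hq : q ≤ Real.exp (-c) * (Real.sqrt 2 / 2) - 2 * Real.exp (-(2 * c)))
    (hpos : p * c ^ 2 / R ≤ a1)
    (hL : L ≤ a1 * (1 / c - 1 / 300) - p * c / R * (1 - c / 300 + c ^ 2 / 30000)
      + q * 0.7853 / (1.0001 * c ^ 2 + 0.617)) : L * n ≤ S1 n (c / n) θ := by
  have hn' : (150 : ℝ) ≤ n := by exact_mod_cast hn
  have hn0 : (0 : ℝ) < n := by linarith
  have hc0 : 0 < c := by linarith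
  have hp3 := Real.pi_gt_d4
  have hp4 := Real.pi_lt_d4
  obtain ⟨θ0, hθ0⟩ : ∃ θ0 : ℝ, θ0 = Real.pi / 4 / n := ⟨_, rfl⟩
  have hnθ : (n : ℝ) * θ0 = Real.pi / 4 := by rw [hθ0]; field_simp
  obtain ⟨hθ0p, hθ0u, hsin2, hsin⟩ := X_theta hn hnθ
  have hmono := S1_mono n (τ := c / n) (θ := θ0) (θ' := θ) hθ0p.le
    (le_of_mul_le_mul_left (by rw [hnθ]; exact h0) hn0) (by linarith)
  refine le_trans ?_ hmono
  have hratio := X_ratio hn hc0 hc2 (x := 0.7853) (by norm_num) (by norm_num)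
    (θ := θ0) (by linarith) (by linarith) hR0 hR
  have hden := X_den hn hc0 hc2 (x := 0.7853) (by norm_num) (by norm_num)
    (θ := θ0) (by linarith) (by linarith) hR
  have hτ0 : 0 < c / (n : ℝ) := by positivity
  have hτ2 : c / (n : ℝ) ≤ 2 / 150 := by gcongr
  have hτ1 : c / (n : ℝ) ≤ 1 := by linarith
  have hinv := X_inv hτ0 hτ1
  obtain ⟨hea, heb⟩ := X_exp hτ0 hτ1
  have h := S1_closed n hτ0 θ0
  have e1 : (n : ℝ) * (c / n) = c := by field_simp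
  have e2 : 2 * (n : ℝ) * (c / n) = 2 * c := by field_simp
  have e3 : 2 * (n : ℝ) * θ0 = Real.pi / 2 := by linarith
  rw [e1, e2, e3, hnθ, Real.cos_pi_div_four, Real.sin_pi_div_four, Real.cos_pi_div_two,
    Real.sin_pi_div_two] at h
  rw [h]
  have hsqrt2 : 0 ≤ Real.sqrt 2 := Real.sqrt_nonneg 2
  set A := 1 + Real.exp (-c) - 2 * Real.exp (-(2 * c)) with hAd
  set P := 1 + Real.exp (-c) * (Real.sqrt 2 / 2) with hPd
  set Q := Real.exp (-c) * (Real.sqrt 2 / 2) - 2 * Real.exp (-(2 * c)) with hQd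
  set den := (Real.exp (c / n) - 1) ^ 2 + 4 * Real.exp (c / n) * Real.sin (θ0 / 2) ^ 2 with hdd
  have hden0 : 0 < den := lt_of_lt_of_le (by positivity) hden
  have hP0 : 0 < P := by positivity
  have hp0 : 0 < p := by linarith
  have ha0 : 0 < a1 := lt_of_lt_of_le (by positivity) hpos
  obtain ⟨m, hm⟩ : ∃ m : ℝ, m = 1 / n := ⟨_, rfl⟩
  have hm0 : 0 < m := by rw [hm]; positivity
  have hm1 : m ≤ 1 / 150 := by rw [hm]; gcongr
  have eτ : c / (n : ℝ) = c * m := by rw [hm]; ring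
  have hfirst : (n : ℝ) * (a1 * (1 / c - m / 2)) ≤ A / (Real.exp (c / n) - 1) := by
    have e3 : (n : ℝ) * (a1 * (1 / c - m / 2)) = a1 * (1 / (c / n) - 1 / 2) := by
      rw [hm]; field_simp
    rw [e3, div_eq_mul_one_div A]
    have hq : 0 ≤ 1 / (c / (n : ℝ)) - 1 / 2 := by
      have : (1 : ℝ) ≤ 1 / (c / (n : ℝ)) := by rw [le_div_iff₀ hτ0]; linarith
      linarith
    apply mul_le_mul hA hinv hq (by linarith)
  set k := 1 - c * m / 2 + 3 / 4 * (c * m) ^ 2 with hk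
  have hcm : 0 < c * m := by positivity
  have hcm1 : c * m ≤ 1 := by rw [← eτ]; exact hτ1
  have hk0 : 0 < k := by
    have := sq_nonneg (c * m)
    rw [hk]; linarith
  have hratio' : (Real.exp (c / n) * Real.cos θ0 - 1) / den ≤ n * (c / R * k) := by
    rw [hk, ← eτ]; exact hratio
  have hsecond : P * ((Real.exp (c / n) * Real.cos θ0 - 1) / den) ≤ n * (p * c / R * k) := by
    calc P * ((Real.exp (c / n) * Real.cos θ0 - 1) / den) ≤ P * (n * (c / R * k)) :=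
          mul_le_mul_of_nonneg_left hratio' hP0.le
      _ ≤ p * (n * (c / R * k)) := by
          apply mul_le_mul_of_nonneg_right hp (by positivity)
      _ = _ := by ring
  -- third term
  have hdenup : den ≤ Real.exp (c / n) * ((1.0001 * c ^ 2 + 0.617) / (n : ℝ) ^ 2) := by
    have g1 := X_expsq hτ0 hτ2
    have g4 : 4 * Real.exp (c / n) * Real.sin (θ0 / 2) ^ 2
        ≤ Real.exp (c / n) * (0.617 / (n : ℝ) ^ 2) := by
      calc 4 * Real.exp (c / n) * Real.sin (θ0 / 2) ^ 2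
          = Real.exp (c / n) * (4 * Real.sin (θ0 / 2) ^ 2) := by ring
        _ ≤ _ := mul_le_mul_of_nonneg_left hsin2 (Real.exp_pos _).le
    calc den ≤ Real.exp (c / n) * (1.0001 * (c / n) ^ 2)
          + Real.exp (c / n) * (0.617 / (n : ℝ) ^ 2) := add_le_add g1 g4
      _ = _ := by rw [div_pow]; ring
  have hQ0 : 0 ≤ Q := by linarith
  have hsin0 : 0 ≤ Real.sin θ0 := le_trans (by positivity) hsin
  have hthird : (n : ℝ) * (q * 0.7853 / (1.0001 * c ^ 2 + 0.617))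
      ≤ Real.exp (c / n) * Real.sin θ0 * Q / den := by
    rw [le_div_iff₀ hden0]
    have hexp := Real.exp_pos (c / (n : ℝ))
    calc (n : ℝ) * (q * 0.7853 / (1.0001 * c ^ 2 + 0.617)) * den
        ≤ (n : ℝ) * (q * 0.7853 / (1.0001 * c ^ 2 + 0.617))
          * (Real.exp (c / n) * ((1.0001 * c ^ 2 + 0.617) / (n : ℝ) ^ 2)) := by
          apply mul_le_mul_of_nonneg_left hdenup (by positivity)
      _ = Real.exp (c / n) * (0.7853 / n) * q := by field_simp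
      _ ≤ Real.exp (c / n) * Real.sin θ0 * Q := by gcongr
  have hmain : L ≤ a1 * (1 / c - m / 2) - p * c / R * k
      + q * 0.7853 / (1.0001 * c ^ 2 + 0.617) := by
    refine hL.trans ?_
    have e4 : (a1 * (1 / c - m / 2) - p * c / R * k)
        - (a1 * (1 / c - 1 / 300) - p * c / R * (1 - c / 300 + c ^ 2 / 30000))
        = (1 / 150 - m) * (a1 / 2 - p * c ^ 2 / R / 2
          + 3 / 4 * (p / R) * c ^ 3 * (m + 1 / 150)) := by
      rw [hk]; ring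
    have h5 : 0 ≤ (1 / 150 - m) * (a1 / 2 - p * c ^ 2 / R / 2
          + 3 / 4 * (p / R) * c ^ 3 * (m + 1 / 150)) := by
      apply mul_nonneg (by linarith)
      have : 0 ≤ 3 / 4 * (p / R) * c ^ 3 * (m + 1 / 150) := by positivity
      linarith
    linarith
  calc L * n ≤ (a1 * (1 / c - m / 2) - p * c / R * k
          + q * 0.7853 / (1.0001 * c ^ 2 + 0.617)) * n := by gcongr
    _ = (n : ℝ) * (a1 * (1 / c - m / 2)) - n * (p * c / R * k)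
        + n * (q * 0.7853 / (1.0001 * c ^ 2 + 0.617)) := by ring
    _ ≤ A / (Real.exp (c / n) - 1) - P * ((Real.exp (c / n) * Real.cos θ0 - 1) / den)
        + Real.exp (c / n) * Real.sin θ0 * Q / den := by linarith
    _ = _ := by
        rw [hPd, hQd]; ring

lemma X_sqrt2 : 1.41421 ≤ Real.sqrt 2 ∧ Real.sqrt 2 ≤ 1.414214 := by
  constructor
  · apply Real.le_sqrt_of_sq_le; norm_num
  · rw [Real.sqrt_le_left (by norm_num)]; norm_num

theorem X15a (n : ℕ) (hn : 150 ≤ n) {θ : ℝ} (h0 : Real.pi / 4 ≤ n * θ) (h1 : n * θ ≤ Real.pi / 2) :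
    0.158 * n ≤ S1 n (3 / (2 * n)) θ := by
  have hn' : (150 : ℝ) ≤ n := by exact_mod_cast hn
  have hn0 : (0 : ℝ) < n := by linarith
  have e' : (3 : ℝ) / (2 * n) = (3 / 2) / n := by rw [div_div]
  rw [e']
  obtain ⟨l15, u15⟩ := X_e15
  obtain ⟨l3, u3⟩ := X_e3
  obtain ⟨ls, us⟩ := X_sqrt2
  have m1 : Real.exp (-(3 / 2)) * (Real.sqrt 2 / 2) ≤ 0.223131 * (1.414214 / 2) := by gcongr
  have m2 : 0.223130 * (1.41421 / 2) ≤ Real.exp (-(3 / 2)) * (Real.sqrt 2 / 2) := by gcongr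
  have hA := X_clo hn (c := 3 / 2) (R := 2.8666) (θ := θ) (L := 0.158)
      (a1 := 1.123554) (p := 1.15778) (q := 0.0582) (by norm_num) (by norm_num) h0 h1 (by norm_num)
      (by norm_num) (by rw [show (2:ℝ) * (3 / 2) = 3 by norm_num]; linarith) (by linarith) (by norm_num)
      (by rw [show (2:ℝ) * (3 / 2) = 3 by norm_num]; linarith) (by norm_num) (by norm_num)
  exact hA

theorem X2a (n : ℕ) (hn : 150 ≤ n) {θ : ℝ} (h0 : Real.pi / 4 ≤ n * θ) (h1 : n * θ ≤ Real.pi / 2) :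
    0.084 * n ≤ S1 n (2 / n) θ := by
  obtain ⟨l2, u2⟩ := X_e2
  obtain ⟨l4, u4⟩ := X_e4
  obtain ⟨ls, us⟩ := X_sqrt2
  have m1 : Real.exp (-2) * (Real.sqrt 2 / 2) ≤ 0.135336 * (1.414214 / 2) := by gcongr
  have m2 : 0.135335 * (1.41421 / 2) ≤ Real.exp (-2) * (Real.sqrt 2 / 2) := by gcongr
  have hA := X_clo hn (c := 2) (R := 4.6166) (θ := θ) (L := 0.084)
      (a1 := 1.098703) (p := 1.0957) (q := 0.05906) (by norm_num) (by norm_num) h0 h1 (by norm_num)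
      (by norm_num) (by rw [show (2:ℝ) * (2) = 4 by norm_num]; linarith) (by linarith) (by norm_num)
      (by rw [show (2:ℝ) * (2) = 4 by norm_num]; linarith) (by norm_num) (by norm_num)
  exact hA

end C048
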